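import Mathlib

/-!
Extension of derivations along formally étale algebras, and uniqueness on algebraic elements.
-/

set_option autoImplicit false

open scoped TensorProduct KaehlerDifferential

namespace Pool.Agent.K4H53.BC

/-- a derivation extends along a formally étale algebra -/
theorem exists_ext {A B : Type*} [CommRing A] [CommRing B] [Algebra A B]
    [Algebra.FormallyEtale A B] (d : Derivation ℤ A A) :
    ∃ D : Derivation ℤ B B, ∀ a, D (algebraMap A B a) = algebraMap A B (d a) := by
  let e := KaehlerDifferential.tensorKaehlerEquivOfFormallyEtale ℤ A B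
  let l0 : Ω[A⁄ℤ] →ₗ[A] B := (Algebra.linearMap A B).comp d.liftKaehlerDifferential
  let l : B ⊗[A] Ω[A⁄ℤ] →ₗ[B] B := l0.liftBaseChange B
  refine ⟨(l.comp e.symm.toLinearMap).compDer (KaehlerDifferential.D ℤ B), fun a => ?_⟩
  have h := KaehlerDifferential.tensorKaehlerEquivOfFormallyEtale_symm_D_algebraMap ℤ A B a
  change l (e.symm (KaehlerDifferential.D ℤ B (algebraMap A B a))) = _
  rw [h]
  simp [l, l0]

/-- a derivation over a field of characteristic zero kills the algebraic elements -/
theorem der_eq_zero {F K M : Type*} [Field F] [Field K] [Algebra F K] [CharZero F]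
    [AddCommGroup M] [Module K M] [Module F M] [IsScalarTower F K M]
    (d : Derivation F K M) {x : K} (hx : IsAlgebraic F x) : d x = 0 := by
  have h1 := d.map_aeval (minpoly F x) x
  rw [minpoly.aeval, map_zero] at h1
  have h2 : Polynomial.aeval x (Polynomial.derivative (minpoly F x)) ≠ 0 :=
    (minpoly.irreducible hx.isIntegral).separable.aeval_derivative_ne_zero (minpoly.aeval F x)
  have h3 := h1.symm
  rcases smul_eq_zero.1 h3 with h | h
  · exact absurd h h2
  · exact h

end Pool.Agent.K4H53.BC
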