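import Pool.Agent.K4H53.BC.Lem1
import Pool.Agent.K4H53.BC.Ext

/-!
Differential subfields, relative algebraic closures, and independence of exponential elements.
-/

set_option autoImplicit false

open Polynomial

namespace Pool.Agent.K4H53.BC

variable {K : Type*} [Field K] {D : Derivation ℤ K K} {F : Subfield K}

/-- restriction of a derivation to a stable subfield -/
def resD (D : Derivation ℤ K K) (F : Subfield K) (h : ∀ x ∈ F, D x ∈ F) : Derivation ℤ F F :=
  Derivation.mk' (AddMonoidHom.toIntLinearMap
    { toFun := fun x => ⟨D x, h x x.2⟩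
      map_zero' := by ext; simp
      map_add' := fun x y => by ext; simp })
    (fun x y => by ext; simp)

@[simp]
theorem resD_coe (h : ∀ x ∈ F, D x ∈ F) (x : F) : ((resD D F h x : F) : K) = D x := rfl

theorem closure_stab {s : Set K} (hs : ∀ x ∈ s, D x ∈ Subfield.closure s) :
    ∀ x ∈ Subfield.closure s, D x ∈ Subfield.closure s := by
  intro x hx
  induction hx using Subfield.closure_induction with
  | mem x hx => exact hs x hx
  | one => rw [D.map_one_eq_zero]; exact zero_mem _
  | add x y hx hy h1 h2 => rw [map_add]; exact add_mem h1 h2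
  | neg x hx h1 => rw [map_neg]; exact neg_mem h1
  | inv x hx h1 =>
    rw [D_inv]
    exact neg_mem (mul_mem (pow_mem (inv_mem hx) 2) h1)
  | mul x y hx hy h1 h2 =>
    rw [D_mul]
    exact add_mem (mul_mem h1 hy) (mul_mem hx h2)

/-- the relative algebraic closure -/
noncomputable def acl (F : Subfield K) : Subfield K := (algebraicClosure F K).toSubfield

theorem mem_acl {x : K} : x ∈ acl F ↔ IsAlgebraic F x := mem_algebraicClosure_iff

theorem le_acl : F ≤ acl F := fun x hx => mem_acl.2 (isAlgebraic_algebraMap (⟨x, hx⟩ : F))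

theorem acl_acl {x : K} (hx : IsAlgebraic (acl F) x) : x ∈ acl F := by
  have hx' : IsAlgebraic (algebraicClosure F K) x := hx
  have := (algebraicClosure F K).isScalarTower_mid'
  rw [mem_acl]
  exact hx'.restrictScalars F

theorem acl_stab [CharZero K] (h : ∀ x ∈ F, D x ∈ F) : ∀ x ∈ acl F, D x ∈ acl F := by
  let iK : Differential K := ⟨D⟩
  let iF : Differential F := ⟨resD D F h⟩
  let iA : DifferentialAlgebra F K := ⟨fun x => rfl⟩
  intro x hx
  rw [mem_acl] at hx
  have h1 := Differential.deriv_aeval_eq x (minpoly F x)
  rw [minpoly.aeval] at h1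
  have h2 : aeval x (derivative (minpoly F x)) ≠ 0 :=
    (minpoly.irreducible hx.isIntegral).separable.aeval_derivative_ne_zero (minpoly.aeval F x)
  have hxm : x ∈ algebraicClosure F K := mem_algebraicClosure_iff.2 hx
  have h3 : ∀ p : F[X], aeval x p ∈ algebraicClosure F K := by
    intro p
    have h6 := Polynomial.aeval_algHom_apply (algebraicClosure F K).val
      (⟨x, hxm⟩ : algebraicClosure F K) p
    have h7 : (algebraicClosure F K).val (⟨x, hxm⟩ : algebraicClosure F K) = x := rfl
    rw [h7] at h6
    rw [h6]
    exact (aeval (⟨x, hxm⟩ : algebraicClosure F K) p).2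
  have h4 : D x = - (aeval x (Differential.mapCoeffs (minpoly F x)) *
      (aeval x (derivative (minpoly F x)))⁻¹) := by
    have h5 : D 0 = aeval x (Differential.mapCoeffs (minpoly F x)) +
      aeval x (derivative (minpoly F x)) * D x := h1
    rw [map_zero] at h5
    field_simp
    linear_combination -h5
  rw [h4]
  exact neg_mem (mul_mem (h3 _) (inv_mem (h3 _)))

end Pool.Agent.K4H53.BC
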