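import Pool.Agent.K4H53.BC.Units

/-!
The case in which `a` lies in the small field.
-/

set_option autoImplicit false

namespace Pool.Agent.K4H53.BC

variable {K : Type*} [Field K] {D : Derivation ℤ K K} {F : Subfield K}
  {N : ℕ} {a c E : ℕ → K}

theorem indep2 {u x y : K} (hx : x ∈ F) (hy : y ∈ F) (hu : u ∉ F) (h : x + y * u = 0) :
    x = 0 ∧ y = 0 := by
  have hy0 : y = 0 := by
    by_contra hne
    apply hu
    have : u = - (x * y⁻¹) := by
      field_simp
      linear_combination h
    rw [this]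
    exact F.neg_mem (F.mul_mem hx (F.inv_mem hy))
  rw [hy0, zero_mul, add_zero] at h
  exact ⟨h, hy0⟩

theorem notMem_inv {u : K} (h : u ∉ F) : u⁻¹ ∉ F := fun hh => h (inv_mem' hh)

theorem indep3 (hst : ∀ x ∈ F, D x ∈ F) (hcst : ∀ x, D x = 0 → x ∈ F) {u v φ ψ : K}
    (hu : u ≠ 0) (hφ : φ ∈ F) (hDu : D u = φ * u) (hv : v ≠ 0) (hψ : ψ ∈ F)
    (hDv : D v = ψ * v) (huF : u ∉ F) (hvF : v ∉ F) (huv : u * v⁻¹ ∉ F) {x y z : K}
    (hx : x ∈ F) (hy : y ∈ F) (hz : z ∈ F) (h : x + y * u + z * v = 0) :
    x = 0 ∧ y = 0 ∧ z = 0 := by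
  have hvu : v * u⁻¹ ∉ F := by
    have := notMem_inv huv
    rwa [mul_inv, inv_inv, mul_comm] at this
  have key := units_indep (D := D) (F := F) hst hcst (u := ![1, u, v]) (φ := ![0, φ, ψ])
    (fun i => by fin_cases i <;> simp [hu, hv])
    (fun i => by fin_cases i <;> simp [hφ, hψ])
    (fun i => by fin_cases i <;> simp [hDu, hDv]) Finset.univ
    (fun i _ j _ hij => by
      fin_cases i <;> fin_cases j <;>
        first
          | exact absurd rfl hij
          | (simp only [Fin.zero_eta, Fin.mk_one, Fin.reduceFinMk, Matrix.cons_val_zero,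
              Matrix.cons_val_one, Matrix.cons_val, one_mul, inv_one, mul_one]
             first
              | exact huF | exact hvF | exact huv | exact hvu | exact notMem_inv huF
              | exact notMem_inv hvF)) ![x, y, z]
    (fun i _ => by fin_cases i <;> simp [hx, hy, hz])
    (by simpa [Fin.sum_univ_three] using h)
  exact ⟨key 0 (Finset.mem_univ _), key 1 (Finset.mem_univ _), key 2 (Finset.mem_univ _)⟩

theorem indep4 (hst : ∀ x ∈ F, D x ∈ F) (hcst : ∀ x, D x = 0 → x ∈ F) {u v φ ψ : K}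
    (hu : u ≠ 0) (hφ : φ ∈ F) (hDu : D u = φ * u) (hv : v ≠ 0) (hψ : ψ ∈ F)
    (hDv : D v = ψ * v) (huF : u ∉ F) (hvF : v ∉ F) (huv : u * v⁻¹ ∉ F) (huv' : u * v ∉ F)
    {x y z w : K}
    (hx : x ∈ F) (hy : y ∈ F) (hz : z ∈ F) (hw : w ∈ F)
    (h : x + y * u + z * v + w * (u * v) = 0) :
    x = 0 ∧ y = 0 ∧ z = 0 ∧ w = 0 := by
  have hvu : v * u⁻¹ ∉ F := by
    have := notMem_inv huv
    rwa [mul_inv, inv_inv, mul_comm] at this
  have h1 : u * (u * v)⁻¹ ∉ F := by
    rw [show u * (u * v)⁻¹ = v⁻¹ by field_simp]; exact notMem_inv hvF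
  have h2 : v * (u * v)⁻¹ ∉ F := by
    rw [show v * (u * v)⁻¹ = u⁻¹ by field_simp]; exact notMem_inv huF
  have h3 : (u * v) * u⁻¹ ∉ F := by
    rw [show (u * v) * u⁻¹ = v by field_simp]; exact hvF
  have h4 : (u * v) * v⁻¹ ∉ F := by
    rw [show (u * v) * v⁻¹ = u by field_simp]; exact huF
  have hD : D (u * v) = (φ + ψ) * (u * v) := by
    rw [D_mul, hDu, hDv]; ring
  have key := units_indep (D := D) (F := F) hst hcst (u := ![1, u, v, u * v])
    (φ := ![0, φ, ψ, φ + ψ])
    (fun i => by fin_cases i <;> simp [hu, hv])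
    (fun i => by
      fin_cases i
      · exact F.zero_mem
      · exact hφ
      · exact hψ
      · exact F.add_mem hφ hψ)
    (fun i => by
      fin_cases i
      · simp
      · exact hDu
      · exact hDv
      · exact hD) Finset.univ
    (fun i _ j _ hij => by
      fin_cases i <;> fin_cases j <;>
        first
          | exact absurd rfl hij
          | (simp only [Fin.zero_eta, Fin.mk_one, Fin.reduceFinMk, Matrix.cons_val_zero,
              Matrix.cons_val_one, Matrix.cons_val, one_mul, inv_one, mul_one]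
             first
              | exact huF | exact hvF | exact huv | exact hvu | exact notMem_inv huF
              | exact notMem_inv hvF | exact huv' | exact notMem_inv huv' | exact h1 | exact h2
              | exact h3 | exact h4)) ![x, y, z, w]
    (fun i _ => by
      fin_cases i
      · exact hx
      · exact hy
      · exact hz
      · exact hw)
    (by simpa [Fin.sum_univ_four] using h)
  exact ⟨key 0 (Finset.mem_univ _), key 1 (Finset.mem_univ _), key 2 (Finset.mem_univ _),
    key 3 (Finset.mem_univ _)⟩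

/-- all the `a n` lie in the field -/
theorem Sys.aF (h : Sys D N a c E) (hc : ∀ n, n < N → c n ∈ F) (ha : a 0 ∈ F) :
    ∀ n, n ≤ N → a n ∈ F := by
  intro n
  induction n with
  | zero => intro _; exact ha
  | succ n ih =>
    intro hn
    rw [h.as n (by omega)]
    exact F.add_mem (ih (by omega)) (hc n (by omega))

theorem caseA_succ [CharZero K] (h : Sys D N a c E) (hF : Good D F)
    (hc : ∀ n, n < N → c n ∈ F) {n : ℕ} (hn : n + 1 < N) (ha : a n ∈ F) : E (n + 1) ∈ F := by
  by_contra hv
  have hcn := hc n (by omega)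
  have hcn1 := hc (n + 1) hn
  have hDa := hF.stab _ ha
  have hu0 := h.E0 n (by omega)
  have hv0 := h.E0 (n + 1) hn
  have ha0 := h.a0 n (by omega)
  have ha1 := h.a0 (n + 1) hn
  have hE1 := h.E1 n (by omega)
  have be := h.be n hn
  have hdu := h.dE n (by omega)
  have hdv := h.dE (n + 1) hn
  have hsq := F.pow_mem ha 2
  have hca := F.mul_mem hcn ha
  by_cases hu : E n ∈ F
  · have h1 := indep2 (F := F) (x := (c n * a n + D (a n)) - (D (a n) + a n ^ 2) * E n)
      (y := (D (a n) - c n * a n) * E n + (a n ^ 2 - D (a n))) (u := E (n + 1))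
      (F.sub_mem (F.add_mem hca hDa) (F.mul_mem (F.add_mem hDa hsq) hu))
      (F.add_mem (F.mul_mem (F.sub_mem hDa hca) hu) (F.sub_mem hsq hDa)) hv
      (by linear_combination be)
    have h2 : a n * a (n + 1) * (1 - E n) = 0 := by
      rw [h.as n (by omega)]
      linear_combination h1.1 + h1.2
    rcases mul_eq_zero.1 h2 with h3 | h3
    · exact mul_ne_zero ha0 ha1 h3
    · exact hE1 (by linear_combination -h3)
  · by_cases hg : E n * E (n + 1) ∈ F
    · have hq : E n * (E (n + 1))⁻¹ ∉ F := by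
        intro hq
        have h1 := F.mul_mem hg hq
        have h2 : E n * E (n + 1) * (E n * (E (n + 1))⁻¹) = E n ^ 2 := by
          field_simp
        rw [h2] at h1
        apply hu
        apply hF.acl
        exact IsAlgebraic.of_pow (n := 2) (by norm_num) (isAlgebraic_algebraMap (⟨_, h1⟩ : F))
      have h1 := indep3 (D := D) hF.stab hF.cst hu0 hcn hdu hv0 hcn1 hdv hu hv hq
        (x := (D (a n) - c n * a n) * (E n * E (n + 1)) + (c n * a n + D (a n)))
        (y := -(D (a n) + a n ^ 2)) (z := a n ^ 2 - D (a n))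
        (F.add_mem (F.mul_mem (F.sub_mem hDa hca) hg) (F.add_mem hca hDa))
        (F.neg_mem (F.add_mem hDa hsq)) (F.sub_mem hsq hDa)
        (by linear_combination be)
      have h2 : (2 : K) * a n ^ 2 = 0 := by
        linear_combination h1.2.2 - h1.2.1
      rcases mul_eq_zero.1 h2 with h3 | h3
      · norm_num at h3
      · exact ha0 (pow_eq_zero_iff (by norm_num) |>.1 h3)
    · by_cases hq : E n * (E (n + 1))⁻¹ ∈ F
      · set g : K := E n * (E (n + 1))⁻¹ with hgdef
        have hEg : E n = g * E (n + 1) := by rw [hgdef]; field_simp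
        have hg0 : g ≠ 0 := by rw [hgdef]; exact mul_ne_zero hu0 (inv_ne_zero hv0)
        have hv2 : E (n + 1) ^ 2 ∉ F := by
          intro h1
          apply hv
          apply hF.acl
          exact IsAlgebraic.of_pow (n := 2) (by norm_num) (isAlgebraic_algebraMap (⟨_, h1⟩ : F))
        have hd2 : D (E (n + 1) ^ 2) = (c (n + 1) + c (n + 1)) * E (n + 1) ^ 2 := by
          rw [pow_two, D_mul, hdv]; ring
        have hq2 : E (n + 1) * (E (n + 1) ^ 2)⁻¹ ∉ F := by
          rw [show E (n + 1) * (E (n + 1) ^ 2)⁻¹ = (E (n + 1))⁻¹ by field_simp]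
          exact notMem_inv hv
        have h1 := indep3 (D := D) hF.stab hF.cst hv0 hcn1 hdv (pow_ne_zero 2 hv0)
          (F.add_mem hcn1 hcn1) hd2 hv hv2 hq2
          (x := c n * a n + D (a n)) (y := (a n ^ 2 - D (a n)) - (D (a n) + a n ^ 2) * g)
          (z := (D (a n) - c n * a n) * g)
          (F.add_mem hca hDa) (F.sub_mem (F.sub_mem hsq hDa) (F.mul_mem (F.add_mem hDa hsq) hq))
          (F.mul_mem (F.sub_mem hDa hca) hq)
          (by rw [hEg] at be; linear_combination be)
        have h2 : D (a n) - c n * a n = 0 := (mul_eq_zero.1 h1.2.2).resolve_right hg0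
        have h3 : (2 : K) * (c n * a n) = 0 := by linear_combination h1.1 - h2
        have h4 : c n = 0 := by
          rcases mul_eq_zero.1 h3 with h5 | h5
          · norm_num at h5
          · exact (mul_eq_zero.1 h5).resolve_right ha0
        apply hu
        apply hF.cst
        rw [hdu, h4, zero_mul]
      · have h1 := indep4 (D := D) hF.stab hF.cst hu0 hcn hdu hv0 hcn1 hdv hu hv hq hg
          (x := c n * a n + D (a n)) (y := -(D (a n) + a n ^ 2)) (z := a n ^ 2 - D (a n))
          (w := D (a n) - c n * a n)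
          (F.add_mem hca hDa) (F.neg_mem (F.add_mem hDa hsq)) (F.sub_mem hsq hDa)
          (F.sub_mem hDa hca)
          (by linear_combination be)
        have h2 : (2 : K) * a n ^ 2 = 0 := by
          linear_combination h1.2.2.1 - h1.2.1
        rcases mul_eq_zero.1 h2 with h3 | h3
        · norm_num at h3
        · exact ha0 (pow_eq_zero_iff (by norm_num) |>.1 h3)

theorem caseA_zero (h : Sys D N a c E) (hF : Good D F) (hc : ∀ n, n < N → c n ∈ F)
    (hN : 2 ≤ N) (ha : a 0 ∈ F) (h0 : E 0 ∉ F) (h1 : E 1 ∈ F) :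
    a 0 = c 0 ∧ (D (a 0) - a 0 ^ 2) * E 1 = D (a 0) + a 0 ^ 2 := by
  have hcn := hc 0 (by omega)
  have hDa := hF.stab _ ha
  have ha0 := h.a0 0 (by omega)
  have hE1 := h.E1 1 (by omega)
  have be : D (a 0) * (E 0 - 1) * (E 1 - 1) =
    a 0 ^ 2 * (E 0 - E 1) + c 0 * a 0 * (E 0 * E 1 - 1) := h.be 0 (by omega)
  have hsq := F.pow_mem ha 2
  have hca := F.mul_mem hcn ha
  have h2 := indep2 (F := F) (x := (a 0 ^ 2 - D (a 0)) * E 1 + (c 0 * a 0 + D (a 0)))
    (y := (D (a 0) - c 0 * a 0) * E 1 - (D (a 0) + a 0 ^ 2)) (u := E 0)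
    (F.add_mem (F.mul_mem (F.sub_mem hsq hDa) h1) (F.add_mem hca hDa))
    (F.sub_mem (F.mul_mem (F.sub_mem hDa hca) h1) (F.add_mem hDa hsq)) h0
    (by linear_combination be)
  have h3 : a 0 * (a 0 - c 0) * (E 1 - 1) = 0 := by
    linear_combination h2.1 + h2.2
  have h4 : a 0 = c 0 := by
    rcases mul_eq_zero.1 h3 with h5 | h5
    · rcases mul_eq_zero.1 h5 with h6 | h6
      · exact absurd h6 ha0
      · exact sub_eq_zero.1 h6
    · exact absurd (sub_eq_zero.1 h5) hE1
  refine ⟨h4, ?_⟩
  rw [← h4] at h2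
  linear_combination h2.2

end Pool.Agent.K4H53.BC
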