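import Pool.Agent.K4H53.BC.Dir

/-!
The combination of the two directions.
-/

set_option autoImplicit false

namespace Pool.Agent.K4H53.BC

/-- either everything is equal, or the exponents are large -/
theorem dichotomy {k : Type*} {N : ℕ} {s : ℕ → k} {M : ℕ → ℤ} {P : ℕ → Prop} {q : ℤ}
    (h : ∀ n, n + 1 < N → (M n < q ∧ M (n + 1) = M n ∧ s (n + 1) = s n) ∨
      (q ≤ M n ∧ q ≤ M (n + 1) ∧ P n)) :
    ((∀ n, n < N → M n = M 0 ∧ s n = s 0) ∨
      ((∀ n, n < N → q ≤ M n) ∨ N = 1) ∧ (∀ n, n + 1 < N → P n)) := by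
  rcases lt_or_ge (M 0) q with h0 | h0
  · left
    intro n
    induction n with
    | zero => intro _; exact ⟨rfl, rfl⟩
    | succ n ih =>
      intro hn
      obtain ⟨h1, h2⟩ := ih (by omega)
      rcases h n hn with h3 | h3
      · exact ⟨h3.2.1.trans h1, h3.2.2.trans h2⟩
      · omega
  · right
    have hall : ∀ n, n < N → q ≤ M n := by
      intro n
      induction n with
      | zero => intro _; exact h0
      | succ n ih =>
        intro hn
        have := ih (by omega)
        rcases h n hn with h3 | h3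
        · omega
        · exact h3.2.1
    refine ⟨Or.inl hall, fun n hn => ?_⟩
    rcases h n hn with h3 | h3
    · have := hall n (by omega); omega
    · exact h3.2.2

variable {k : Type*} [Field k] {δ : Derivation ℤ k k} {θ : k}
  {N : ℕ} {s γ : ℕ → k} {M : ℕ → ℤ}

/-- the basic identity of the endgame -/
theorem key_id {β B x ω dσ : k} (h1 : dσ = x * (β - B) + ω * B)
    (h2 : x * (β - B) = ω * β + ω * x - x ^ 2) :
    (dσ - ω * (β + B)) * (dσ + (β + B) ^ 2 - 4 * (β * B)) + β * B * ω ^ 2 = 0 := by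
  rw [h1]
  linear_combination (β - B) ^ 2 * h2

theorem endgame [CharZero k] (hθ : NoConst δ θ) (hN : 20 ≤ N) (hs : ∀ n, n < N → s n ≠ 0)
    (hγ : ∀ n, n < N → δ (s n) + M n * θ * s n = γ n * s n)
    {q q' : ℤ} {α α' : k} (hα : α ≠ 0) (hα' : α' ≠ 0)
    (h1 : ∀ n, n + 1 < N → (M n < q ∧ M (n + 1) = M n ∧ s (n + 1) = s n) ∨
      (q ≤ M n ∧ q ≤ M (n + 1) ∧
      (if M n = q then s n else 0) - (if M (n + 1) = q then s (n + 1) else 0) =
      (δ α * α⁻¹ - q * θ + γ n) * α⁻¹))
    (h2 : ∀ n, n + 1 < N → (M n < q' ∧ M (n + 1) = M n ∧ s (n + 1) = s n) ∨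
      (q' ≤ M n ∧ q' ≤ M (n + 1) ∧
      (if M n = q' then (s n)⁻¹ else 0) - (if M (n + 1) = q' then (s (n + 1))⁻¹ else 0) =
      (δ α' * α'⁻¹ + q' * θ - γ n) * α'⁻¹)) :
    ∃ j, j + 6 ≤ N ∧ ∀ n, n ≤ 3 → M (j + n + 2) = M (j + n) ∧ s (j + n + 2) = s (j + n) := by
  have triv : (∀ n, n < N → M n = M 0 ∧ s n = s 0) →
      ∃ j, j + 6 ≤ N ∧ ∀ n, n ≤ 3 → M (j + n + 2) = M (j + n) ∧ s (j + n + 2) = s (j + n) := by
    intro h
    refine ⟨0, by omega, fun n hn => ?_⟩
    obtain ⟨a1, a2⟩ := h (0 + n + 2) (by omega)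
    obtain ⟨b1, b2⟩ := h (0 + n) (by omega)
    exact ⟨a1.trans b1.symm, a2.trans b2.symm⟩
  rcases dichotomy h1 with h3 | ⟨h3, h3'⟩
  · exact triv h3
  rcases dichotomy h2 with h4 | ⟨h4, h4'⟩
  · exact triv h4
  have hq : ∀ n, n < N → q ≤ M n := h3.resolve_right (by omega)
  have hq' : ∀ n, n < N → q' ≤ M n := h4.resolve_right (by omega)
  clear h1 h2 h3 h4 triv
  obtain ⟨lam, hlam⟩ : ∃ l : k, l = δ α * α⁻¹ - q * θ := ⟨_, rfl⟩
  obtain ⟨lam', hlam'⟩ : ∃ l : k, l = δ α' * α'⁻¹ + q' * θ := ⟨_, rfl⟩
  rw [← hlam] at h3'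
  rw [← hlam'] at h4'
  -- no two consecutive zeros
  have hJ : ∀ n, n + 1 < N → M n = q ∨ M (n + 1) = q := by
    intro n hn
    by_contra hcon
    push Not at hcon
    have h5 := h3' n hn
    rw [if_neg hcon.1, if_neg hcon.2, sub_zero] at h5
    have h6 : lam + γ n = 0 := (mul_eq_zero.1 h5.symm).resolve_right (inv_ne_zero hα)
    have hsn := hs n (by omega)
    apply hθ (α * s n) (mul_ne_zero hα hsn) (M n - q) (sub_ne_zero.2 hcon.1)
    have h7 := hγ n (by omega)
    have h8 : δ α = (lam + q * θ) * α := by rw [hlam]; field_simp; ring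
    rw [D_mul, h8]
    push_cast
    linear_combination α * h7 + α * s n * h6
  have hJ' : ∀ n, n + 1 < N → M n = q' ∨ M (n + 1) = q' := by
    intro n hn
    by_contra hcon
    push Not at hcon
    have h5 := h4' n hn
    rw [if_neg hcon.1, if_neg hcon.2, sub_zero] at h5
    have h6 : lam' - γ n = 0 := (mul_eq_zero.1 h5.symm).resolve_right (inv_ne_zero hα')
    have hsn := hs n (by omega)
    apply hθ (α' * (s n)⁻¹) (mul_ne_zero hα' (inv_ne_zero hsn)) (q' - M n)
      (sub_ne_zero.2 (Ne.symm hcon.1))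
    have h7 := hγ n (by omega)
    have h8 : δ α' = (lam' - q' * θ) * α' := by rw [hlam']; field_simp; ring
    rw [D_mul, D_inv, h8]
    push_cast
    field_simp
    linear_combination α' * (-h7 + s n * h6)
  have hqq : q' = q := by
    rcases hJ 0 (by omega) with h5 | h5 <;> rcases hJ' 0 (by omega) with h6 | h6
    · omega
    · have e1 := hq 1 (by omega)
      have e2 := hq' 0 (by omega)
      simp only [zero_add] at h6
      omega
    · have e1 := hq 0 (by omega)
      have e2 := hq' 1 (by omega)
      simp only [zero_add] at h5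
      omega
    · omega
  subst hqq
  clear hJ' hq hq'
  obtain ⟨ω, hω⟩ : ∃ l : k, l = lam + lam' := ⟨_, rfl⟩
  obtain ⟨κ, hκ⟩ : ∃ l : k, l = α * α' := ⟨_, rfl⟩
  have hκ0 : κ ≠ 0 := hκ ▸ mul_ne_zero hα hα'
  have hdκ : δ κ = ω * κ := by
    rw [hκ, D_mul, hω, hlam, hlam']
    field_simp
    ring
  obtain ⟨β, hβ⟩ : ∃ β : ℕ → k, β = fun n => if M n = q' then -(α * s n) else 0 := ⟨_, rfl⟩
  obtain ⟨B, hB⟩ : ∃ B : ℕ → k, B = fun n => if M n = q' then -(α' * (s n)⁻¹) else 0 :=
    ⟨_, rfl⟩
  have eβ : ∀ n, n + 1 < N → β (n + 1) - β n = lam + γ n := by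
    intro n hn
    have h5 := h3' n hn
    have h6 : β (n + 1) - β n = α * ((if M n = q' then s n else 0) -
        (if M (n + 1) = q' then s (n + 1) else 0)) := by
      simp only [hβ]
      split_ifs <;> ring
    rw [h6, h5]
    field_simp
  have eB : ∀ n, n + 1 < N → B (n + 1) - B n = lam' - γ n := by
    intro n hn
    have h5 := h4' n hn
    have h6 : B (n + 1) - B n = α' * ((if M n = q' then (s n)⁻¹ else 0) -
        (if M (n + 1) = q' then (s (n + 1))⁻¹ else 0)) := by
      simp only [hB]
      split_ifs <;> ring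
    rw [h6, h5]
    field_simp
  have hσ : ∀ n, n < N → β n + B n = (β 0 + B 0) + n * ω := by
    intro n
    induction n with
    | zero => intro _; simp
    | succ n ih =>
      intro hn
      have e1 := eβ n hn
      have e2 := eB n hn
      have e3 := ih (by omega)
      push_cast
      linear_combination e1 + e2 + e3 - hω
  have hβ0 : ∀ n, n < N → M n = q' → β n ≠ 0 := by
    intro n hn hM
    simp only [hβ, if_pos hM]
    exact neg_ne_zero.2 (mul_ne_zero hα (hs n hn))
  have hβB : ∀ n, n < N → M n = q' → β n * B n = κ := by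
    intro n hn hM
    have := hs n hn
    simp only [hβ, hB, if_pos hM, hκ]
    field_simp
  have hβn : ∀ n, M n ≠ q' → β n + B n = 0 := by
    intro n hM
    simp only [hβ, hB, if_neg hM, add_zero]
  have hdβ : ∀ n, n + 1 < N → M n = q' → δ (β n) = β n * (β (n + 1) - β n) := by
    intro n hn hM
    rw [eβ n hn]
    have h7 := hγ n (by omega)
    have h8 : δ α = (lam + q' * θ) * α := by rw [hlam]; field_simp; ring
    rw [hM] at h7
    simp only [hβ, if_pos hM]
    rw [map_neg, D_mul, h8]
    linear_combination -α * h7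
  have hseq : ∀ n m, n < N → m < N → M n = q' → M m = q' → β n = β m → s n = s m := by
    intro n m hn hm h5 h6 h7
    simp only [hβ, if_pos h5, if_pos h6] at h7
    exact mul_left_cancel₀ hα (neg_injective h7)
  -- the two identities
  have id1 : ∀ n, n + 1 < N → M n = q' →
      δ (β n + B n) = (β (n + 1) - β n) * (β n - B n) + ω * B n := by
    intro n hn hM
    have e1 := hdβ n hn hM
    have e2 := hβB n (by omega) hM
    have e3 := hβ0 n (by omega) hM
    have e4 : B n = κ * (β n)⁻¹ := by
      rw [← e2]; field_simp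
    have e5 : δ (B n) = ω * B n - B n * (β (n + 1) - β n) := by
      rw [e4, D_mul, D_inv, hdκ, e1]
      field_simp
      ring
    rw [map_add, e1, e5]; ring
  have id2 : ∀ n, n + 1 < N → M n = q' → M (n + 1) = q' →
      (β (n + 1) - β n) * (β n - B n) = ω * β n + ω * (β (n + 1) - β n) -
        (β (n + 1) - β n) ^ 2 := by
    intro n hn hM hM'
    have e2 := hβB n (by omega) hM
    have e3 := hβB (n + 1) hn hM'
    have e4 := eβ n hn
    have e5 := eB n hn
    have e6 : B (n + 1) = B n + ω - (β (n + 1) - β n) := by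
      rw [hω]; linear_combination e5 + e4
    rw [e6] at e3
    linear_combination e2 - e3
  by_cases hω0 : ω = 0
  · -- the case ω = 0
    have hσc : ∀ n, n < N → β n + B n = β 0 + B 0 := by
      intro n hn
      rw [hσ n hn, hω0]; ring
    by_cases hex : ∃ n0, n0 ≤ 6 ∧ M n0 ≠ q'
    · obtain ⟨n0, hn0, hMn0⟩ := hex
      have hz : ∀ n, n < N → β n + B n = 0 := by
        intro n hn
        rw [hσc n hn, ← hσc n0 (by omega)]
        exact hβn n0 hMn0
      have hstep : ∀ n, n + 1 < N → M n = q' → β (n + 1) = β n := by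
        intro n hn hM
        have e1 := id1 n hn hM
        rw [hz n (by omega), map_zero, hω0] at e1
        have e2 := hz n (by omega)
        have e3 := hβ0 n (by omega) hM
        have e4 : (β (n + 1) - β n) * (2 * β n) = 0 := by
          linear_combination -e1 + (β (n + 1) - β n) * e2
        rcases mul_eq_zero.1 e4 with h | h
        · exact sub_eq_zero.1 h
        · rcases mul_eq_zero.1 h with h | h
          · norm_num at h
          · exact absurd h e3
      have hrun : ∀ i, n0 + 1 + i < N → M (n0 + 1 + i) = q' ∧ β (n0 + 1 + i) = β (n0 + 1) := by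
        intro i
        induction i with
        | zero =>
          intro h
          exact ⟨(hJ n0 (by omega)).resolve_left hMn0, rfl⟩
        | succ i ih =>
          intro h
          obtain ⟨a1, a2⟩ := ih (by omega)
          have a3 := hstep (n0 + 1 + i) (by omega) a1
          have a4 := hβ0 _ (by omega) a1
          rw [show n0 + 1 + (i + 1) = n0 + 1 + i + 1 by omega]
          refine ⟨?_, a3.trans a2⟩
          by_contra hcon
          apply a4
          rw [← a3]
          simp only [hβ, if_neg hcon]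
      refine ⟨n0 + 1, by omega, fun n hn => ?_⟩
      obtain ⟨a1, a2⟩ := hrun n (by omega)
      obtain ⟨b1, b2⟩ := hrun (n + 2) (by omega)
      rw [show n0 + 1 + n + 2 = n0 + 1 + (n + 2) by omega]
      exact ⟨b1.trans a1.symm, hseq _ _ (by omega) (by omega) b1 a1 (b2.trans a2.symm)⟩
    · push Not at hex
      refine ⟨0, by omega, fun n hn => ?_⟩
      rw [zero_add]
      have m0 := hex n (by omega)
      have m1 := hex (n + 1) (by omega)
      have m2 := hex (n + 2) (by omega)
      refine ⟨m2.trans m0.symm, hseq _ _ (by omega) (by omega) m2 m0 ?_⟩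
      have i1 := id1 n (by omega) m0
      have i2 := id2 n (by omega) m0 m1
      have j1 := id1 (n + 1) (by omega) m1
      have j2 := id2 (n + 1) (by omega) m1 m2
      rw [show n + 1 + 1 = n + 2 by omega] at j1 j2
      rw [hσc n (by omega), hω0] at i1
      rw [hσc (n + 1) (by omega), hω0] at j1
      rw [hω0] at i2 j2
      have hbb := hβB n (by omega) m0
      have hbb1 := hβB (n + 1) (by omega) m1
      have hb1 := hβ0 (n + 1) (by omega) m1
      have sq : (β (n + 2) - β (n + 1)) ^ 2 = (β (n + 1) - β n) ^ 2 := by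
        linear_combination j2 - i2 - i1 + j1
      by_cases hx : β (n + 1) - β n = 0
      · rw [hx] at sq
        have hx2 : β (n + 2) - β (n + 1) = 0 := by
          have : (β (n + 2) - β (n + 1)) ^ 2 = 0 := by rw [sq]; ring
          exact pow_eq_zero_iff (by norm_num) |>.1 this
        linear_combination hx + hx2
      · have hx2 : β (n + 2) - β (n + 1) ≠ 0 := by
          intro h0
          rw [h0] at sq
          apply hx
          have : (β (n + 1) - β n) ^ 2 = 0 := by rw [← sq]; ring
          exact pow_eq_zero_iff (by norm_num) |>.1 this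
        have e1 : β (n + 1) = B n := by
          have : (β (n + 1) - β n) * (β (n + 1) - B n) = 0 := by linear_combination i2
          exact sub_eq_zero.1 ((mul_eq_zero.1 this).resolve_left hx)
        have e2 : β (n + 2) = B (n + 1) := by
          have : (β (n + 2) - β (n + 1)) * (β (n + 2) - B (n + 1)) = 0 := by linear_combination j2
          exact sub_eq_zero.1 ((mul_eq_zero.1 this).resolve_left hx2)
        apply mul_left_cancel₀ hb1
        rw [e2, hbb1, ← hbb, e1]
        ring
  · -- the case ω ≠ 0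
    exfalso
    have huniq : ∀ n m, n < m → m < N → M n ≠ q' → M m ≠ q' → False := by
      intro n m hnm hm h5 h6
      have e1 := hσ n (by omega)
      have e2 := hσ m hm
      rw [hβn n h5] at e1
      rw [hβn m h6] at e2
      have e3 : ((m : k) - n) * ω = 0 := by linear_combination e1 - e2
      rcases mul_eq_zero.1 e3 with h | h
      · have : (m : k) = n := sub_eq_zero.1 h
        have : m = n := by exact_mod_cast this
        omega
      · exact hω0 h
    obtain ⟨j, hj, hjJ⟩ : ∃ j, j ≤ 5 ∧ ∀ i, i ≤ 4 → M (j + i) = q' := by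
      by_cases h5 : ∀ i, i ≤ 4 → M (0 + i) = q'
      · exact ⟨0, by omega, h5⟩
      · push Not at h5
        obtain ⟨i, hi, hi2⟩ := h5
        refine ⟨5, le_rfl, fun i' hi' => ?_⟩
        by_contra hcon
        exact huniq _ _ (by omega) (by omega) hi2 hcon
    obtain ⟨σ, hσj⟩ : ∃ l : k, l = β j + B j := ⟨_, rfl⟩
    have hσi : ∀ i : ℕ, i ≤ 4 → β (j + i) + B (j + i) = σ + i * ω := by
      intro i hi
      rw [hσj, hσ j (by omega), hσ (j + i) (by omega)]
      push_cast; ring
    have P : ∀ i : ℕ, i ≤ 3 → (δ σ + i * δ ω - ω * (σ + i * ω)) *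
        (δ σ + i * δ ω + (σ + i * ω) ^ 2 - 4 * κ) + κ * ω ^ 2 = 0 := by
      intro i hi
      have m0 := hjJ i (by omega)
      have m1 := hjJ (i + 1) (by omega)
      have i1 := id1 (j + i) (by omega) m0
      have i2 := id2 (j + i) (by omega) m0 m1
      have i3 := key_id i1 i2
      have hds : δ (β (j + i) + B (j + i)) = δ σ + i * δ ω := by
        rw [hσi i (by omega), map_add, D_mul, D_natCast]; ring
      rw [hds, hσi i (by omega), hβB (j + i) (by omega) m0] at i3
      exact i3
    have P0 := P 0 (by omega)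
    have P1 := P 1 (by omega)
    have P2 := P 2 (by omega)
    have P3 := P 3 (by omega)
    push_cast at P0 P1 P2 P3
    have d3 : (6 : k) * ((δ ω - ω ^ 2) * ω ^ 2) = 0 := by
      linear_combination P3 - 3 * P2 + 3 * P1 - P0
    have hω2 : ω ^ 2 ≠ 0 := pow_ne_zero 2 hω0
    have e1 : δ ω = ω ^ 2 := by
      rcases mul_eq_zero.1 d3 with h | h
      · norm_num at h
      · exact sub_eq_zero.1 ((mul_eq_zero.1 h).resolve_right hω2)
    rw [e1] at P0 P1 P2
    have d2 : (2 : k) * ((δ σ - ω * σ) * ω ^ 2) = 0 := by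
      linear_combination P2 - 2 * P1 + P0
    have e2 : δ σ - ω * σ = 0 := by
      rcases mul_eq_zero.1 d2 with h | h
      · norm_num at h
      · exact (mul_eq_zero.1 h).resolve_right hω2
    have d1 : κ * ω ^ 2 = 0 := by
      linear_combination P0 - (δ σ + σ ^ 2 - 4 * κ) * e2
    exact mul_ne_zero hκ0 hω2 d1

end Pool.Agent.K4H53.BC
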