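import Pool.Agent.K4H53.BC.Lem1

/-!
Runs on which the `E n` have period two.
-/

set_option autoImplicit false

namespace Pool.Agent.K4H53.BC

variable {K : Type*} [Field K] {D : Derivation ℤ K K} {N : ℕ} {a c E : ℕ → K} {F : Subfield K}

theorem periodic [CharZero K] (h : Sys D N a c E) (hN : 6 ≤ N) (hF : Good D F)
    (hc : c 0 ∈ F) (hE : ∀ n, n ≤ 3 → E (n + 2) = E n) (hne : c 0 + c 1 ≠ 0) : a 0 ∈ F := by
  have hcc : ∀ n, n ≤ 3 → c (n + 2) = c n := by
    intro n hn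
    have h1 := h.dE n (by omega)
    have h2 := h.dE (n + 2) (by omega)
    rw [hE n hn, h1] at h2
    exact (mul_right_cancel₀ (h.E0 n (by omega)) h2).symm
  have c2 : c 2 = c 0 := hcc 0 (by norm_num)
  have c3 : c 3 = c 1 := hcc 1 (by norm_num)
  have c4 : c 4 = c 0 := (hcc 2 (by norm_num)).trans c2
  have E2 : E 2 = E 0 := hE 0 (by norm_num)
  have E3 : E 3 = E 1 := hE 1 (by norm_num)
  have E4 : E 4 = E 0 := (hE 2 (by norm_num)).trans E2
  have E5 : E 5 = E 1 := (hE 3 (by norm_num)).trans E3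
  have e2 : ee E 2 = ee E 0 := by unfold ee; rw [E2]
  have e3 : ee E 3 = ee E 1 := by unfold ee; rw [E3]
  have e4 : ee E 4 = ee E 0 := by unfold ee; rw [E4]
  have e5 : ee E 5 = ee E 1 := by unfold ee; rw [E5]
  have a1 : a 1 = a 0 + c 0 := h.as 0 (by omega)
  have a2 : a 2 = a 1 + c 1 := h.as 1 (by omega)
  have a3 : a 3 = a 2 + c 2 := h.as 2 (by omega)
  have a4 : a 4 = a 3 + c 3 := h.as 3 (by omega)
  have r0 : D (a 0) = (ee E 1 - ee E 0) * a 0 ^ 2 + c 0 * (1 + ee E 0 + ee E 1) * a 0 :=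
    h.ric (n := 0) (by omega)
  have r2 : D (a 2) = (ee E 3 - ee E 2) * a 2 ^ 2 + c 2 * (1 + ee E 2 + ee E 3) * a 2 :=
    h.ric (n := 2) (by omega)
  have r4 : D (a 4) = (ee E 5 - ee E 4) * a 4 ^ 2 + c 4 * (1 + ee E 4 + ee E 5) * a 4 :=
    h.ric (n := 4) (by omega)
  rw [a4, a3, c2, c3, a2, a1, c4, e5, e4] at r4
  rw [a2, a1, c2, e2, e3] at r2
  simp only [map_add] at r2 r4
  have key : (ee E 1 - ee E 0) * (c 0 + c 1) ^ 2 = 0 := by
    have : (2 : K) * ((ee E 1 - ee E 0) * (c 0 + c 1) ^ 2) = 0 := by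
      linear_combination -r4 + 2 * r2 - r0
    exact (mul_eq_zero.1 this).resolve_left (by norm_num)
  have hA : ee E 1 = ee E 0 := by
    rcases mul_eq_zero.1 key with h1 | h1
    · exact sub_eq_zero.1 h1
    · exact absurd (pow_eq_zero_iff (by norm_num) |>.1 h1) hne
  have hE1 : E 1 = E 0 := by
    unfold ee at hA
    have := inv_injective hA
    linear_combination this
  have hc1 : c 1 = c 0 := by
    have h1 := h.dE 0 (by omega)
    have h2 := h.dE 1 (by omega)
    rw [hE1, h1] at h2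
    exact (mul_right_cancel₀ (h.E0 0 (by omega)) h2).symm
  rw [hA] at r0 r2
  rw [hc1] at r2
  refine lem1_gamma hF hc (b := c 0 * (1 + 2 * ee E 0)) ?_ ?_ (fun h => by rw [h, zero_mul])
  · rw [r0]; ring
  · have : (2 : K) * (D (c 0) - c 0 * (1 + 2 * ee E 0) * c 0) = 0 := by
      linear_combination r2 - r0
    exact sub_eq_zero.1 ((mul_eq_zero.1 this).resolve_left (by norm_num))

end Pool.Agent.K4H53.BC
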