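import Pool.Agent.K4H53.BC.Embed
import Pool.Agent.K4H53.BC.Endgame
import Pool.Agent.K4H53.BC.Period
import Pool.Agent.K4H53.BC.CaseA

/-!
The case in which `a` does not lie in the small field is impossible for long systems.
-/

set_option autoImplicit false

open HahnSeries

namespace Pool.Agent.K4H53.BC

theorem Sys.map_iff {K K' : Type*} [Field K] [Field K'] {D : Derivation ℤ K K}
    {D' : Derivation ℤ K' K'} (f : K →+* K') (hf : ∀ x, f (D x) = D' (f x)) {N : ℕ}
    {a c E : ℕ → K} {a' c' E' : ℕ → K'} (ha : ∀ n, n ≤ N → f (a n) = a' n)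
    (hc : ∀ n, n < N → f (c n) = c' n) (hE : ∀ n, n < N → f (E n) = E' n) :
    Sys D N a c E ↔ Sys D' N a' c' E' := by
  have hinj := f.injective
  constructor
  · intro h
    refine ⟨fun n hn => ?_, fun n hn => ?_, fun n hn => ?_, fun n hn => ?_, fun n hn => ?_,
      fun n hn => ?_⟩
    · rw [← hE n hn]; exact (map_ne_zero f).2 (h.E0 n hn)
    · rw [← hE n hn, ← map_one f]; exact fun hh => h.E1 n hn (hinj hh)
    · rw [← hE n hn, ← hf, h.dE n hn, map_mul, hc n hn]
    · rw [← ha n hn.le]; exact (map_ne_zero f).2 (h.a0 n hn)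
    · rw [← ha n hn.le, ← ha (n + 1) hn, ← hc n hn, h.as n hn, map_add]
    · have := congrArg f (h.be n hn)
      simp only [map_mul, map_sub, map_add, map_pow, map_one, hf] at this
      rw [ha n (by omega), hE n (by omega), hE (n + 1) hn, hc n (by omega)] at this
      exact this
  · intro h
    refine ⟨fun n hn => ?_, fun n hn => ?_, fun n hn => ?_, fun n hn => ?_, fun n hn => ?_,
      fun n hn => ?_⟩
    · intro h0
      apply h.E0 n hn
      rw [← hE n hn, h0, map_zero]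
    · intro h0
      apply h.E1 n hn
      rw [← hE n hn, h0, map_one]
    · apply hinj
      rw [hf, map_mul, hE n hn, hc n hn]
      exact h.dE n hn
    · intro h0
      apply h.a0 n hn
      rw [← ha n hn.le, h0, map_zero]
    · apply hinj
      rw [map_add, ha n hn.le, ha (n + 1) hn, hc n hn]
      exact h.as n hn
    · apply hinj
      simp only [map_mul, map_sub, map_add, map_pow, map_one, hf]
      rw [ha n (by omega), hE n (by omega), hE (n + 1) hn, hc n (by omega)]
      exact h.be n hn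

section main

universe u

variable {K : Type u} [Field K] [CharZero K] {D : Derivation ℤ K K} {F : Subfield K}
  {N : ℕ} {a c E : ℕ → K}

/-- a nontrivial quadratic equation for `a 0` -/
theorem exists_quad (h : Sys D N a c E) (hN : 6 ≤ N) (hF : Good D F)
    (hc : ∀ n, n < N → c n ∈ F) (ha : a 0 ∉ F) {G : Subfield K} (hFG : F ≤ G)
    (hEG : ∀ n, n < N → E n ∈ G) :
    ∃ u ∈ G, ∃ v ∈ G, ∃ w ∈ G, ¬ (u = 0 ∧ v = 0 ∧ w = 0) ∧ u * a 0 ^ 2 + v * a 0 + w = 0 := by
  have hex : ∃ n, n ≤ 4 ∧ ¬ (cA E n - cA E 0 = 0 ∧ cB a c E n - cB a c E 0 = 0 ∧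
      cD D a c E n - cD D a c E 0 = 0) := by
    by_contra hcon
    push Not at hcon
    exact ha (lem1 h hN hF (hc 0 (by omega)) (fun n hn => sub_eq_zero.1 (hcon n hn).1)
      (fun n hn => sub_eq_zero.1 (hcon n hn).2.1)
      (sub_eq_zero.1 (hcon 1 (by norm_num)).2.2))
  obtain ⟨n, hn, hne⟩ := hex
  have heG : ∀ n, n < N → ee E n ∈ G := fun n hn =>
    G.inv_mem (G.sub_mem (hEG n hn) G.one_mem)
  have hCF : ∀ n, n ≤ N → a n - a 0 ∈ F := by
    intro n
    induction n with
    | zero => intro _; rw [sub_self]; exact F.zero_mem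
    | succ n ih =>
      intro hn
      rw [h.as n (by omega), show a n + c n - a 0 = (a n - a 0) + c n by ring]
      exact F.add_mem (ih (by omega)) (hc n (by omega))
  have hAG : ∀ n, n + 1 < N → cA E n ∈ G := fun n hn =>
    G.sub_mem (heG _ hn) (heG n (by omega))
  have hbG : ∀ n, n + 1 < N → c n * (1 + ee E n + ee E (n + 1)) ∈ G := fun n hn =>
    G.mul_mem (hFG (hc n (by omega)))
      (G.add_mem (G.add_mem G.one_mem (heG n (by omega))) (heG _ hn))
  have hBG : ∀ n, n + 1 < N → cB a c E n ∈ G := fun n hn =>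
    G.add_mem (hbG n hn) (G.mul_mem (G.mul_mem (ofNat_mem G 2) (hFG (hCF n (by omega))))
      (hAG n hn))
  have hDG : ∀ n, n + 1 < N → cD D a c E n ∈ G := fun n hn =>
    G.sub_mem (G.add_mem (G.mul_mem (hFG (hCF n (by omega))) (hbG n hn))
      (G.mul_mem (G.pow_mem (hFG (hCF n (by omega))) 2) (hAG n hn)))
      (hFG (hF.stab _ (hCF n (by omega))))
  refine ⟨_, G.sub_mem (hAG n (by omega)) (hAG 0 (by omega)), _,
    G.sub_mem (hBG n (by omega)) (hBG 0 (by omega)), _,
    G.sub_mem (hDG n (by omega)) (hDG 0 (by omega)), hne, ?_⟩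
  have r1 := h.ric0 (show n + 1 < N by omega)
  have r2 := h.ric0 (show 0 + 1 < N by omega)
  linear_combination r2 - r1

omit [CharZero K] in
theorem quad_acl {G : Subfield K} {u v w x : K} (hu : u ∈ G) (hv : v ∈ G) (hw : w ∈ G)
    (hne : ¬ (u = 0 ∧ v = 0 ∧ w = 0)) (h : u * x ^ 2 + v * x + w = 0) : x ∈ acl G := by
  rw [mem_acl]
  refine ⟨Polynomial.C (⟨u, hu⟩ : G) * Polynomial.X ^ 2 + Polynomial.C (⟨v, hv⟩ : G) *
    Polynomial.X + Polynomial.C (⟨w, hw⟩ : G), ?_, ?_⟩
  · intro h0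
    apply hne
    have c2 := congrArg (fun p => Polynomial.coeff p 2) h0
    have c1 := congrArg (fun p => Polynomial.coeff p 1) h0
    have c0 := congrArg (fun p => Polynomial.coeff p 0) h0
    simp [Polynomial.coeff_X, Polynomial.coeff_C] at c2 c1 c0
    exact ⟨congrArg Subtype.val c2, congrArg Subtype.val c1, congrArg Subtype.val c0⟩
  · simp only [map_add, map_mul, map_pow, Polynomial.aeval_C, Polynomial.aeval_X]
    exact h

/-- a run on which all `E n` lie in the field -/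
theorem run_F (h : Sys D N a c E) (hN : 6 ≤ N) (hF : Good D F)
    (hc : ∀ n, n < N → c n ∈ F) (hE : ∀ n, n < N → E n ∈ F) : a 0 ∈ F := by
  by_contra ha
  obtain ⟨u, hu, v, hv, w, hw, hne, hq⟩ := exists_quad h hN hF hc ha le_rfl hE
  exact ha (hF.acl _ (mem_acl.1 (quad_acl hu hv hw hne hq)))

omit [CharZero K] in
theorem good_closed [IsAlgClosed K] (hF : Good D F) : IsAlgClosed F := by
  apply IsAlgClosed.of_exists_root
  intro p hp hirr
  have hdeg : (p.map (algebraMap F K)).degree ≠ 0 := by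
    rw [Polynomial.degree_map]
    exact (Polynomial.degree_pos_of_irreducible hirr).ne'
  obtain ⟨x, hx⟩ := IsAlgClosed.exists_root _ hdeg
  have hx' : Polynomial.aeval x p = 0 := by
    rw [Polynomial.IsRoot, Polynomial.eval_map] at hx
    exact hx
  have hxF : x ∈ F := hF.acl x ⟨p, hirr.ne_zero, hx'⟩
  refine ⟨⟨x, hxF⟩, Subtype.ext ?_⟩
  have h1 := Polynomial.aeval_algebraMap_apply K (⟨x, hxF⟩ : F) p
  rw [Polynomial.coe_aeval_eq_eval] at h1
  exact h1.symm.trans hx'

/-- the data for the endgame -/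
structure Dat (D : Derivation ℤ K K) (F : Subfield K) (N : ℕ) (a c E : ℕ → K) (Z φ : K)
    (s γ : ℕ → F) (m : ℕ → ℤ) : Prop where
  sys : Sys D N a c E
  good : Good D F
  Z0 : Z ≠ 0
  φF : φ ∈ F
  DZ : D Z = φ * Z
  ZF : ∀ j : ℤ, j ≠ 0 → Z ^ j ∉ F
  cF : ∀ n, n < N → (γ n : K) = c n
  s0 : ∀ n, n < N → s n ≠ 0
  EF : ∀ n, n < N → E n = s n * Z ^ m n
  aF : a 0 ∉ F

variable {Z φ : K} {s γ : ℕ → F} {m : ℕ → ℤ}

omit [CharZero K] in
theorem half_mem {x : K} (hx : x ∈ F) : x * 2⁻¹ ∈ F :=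
  F.mul_mem hx (F.inv_mem (ofNat_mem F 2))

theorem Dat.noConst (h : Dat D F N a c E Z φ s γ m) :
    NoConst (resD D F h.good.stab) ⟨φ * 2⁻¹, half_mem h.φF⟩ := by
  intro y hy j hj h0
  have h1 : D (y : K) + (j : K) * (φ * 2⁻¹) * y = 0 := by
    have := congrArg Subtype.val h0
    simpa using this
  have h2 : D ((y : K) ^ 2 * Z ^ j) = 0 := by
    rw [D_mul, pow_two, D_mul, D_zpow h.Z0 h.DZ]
    have h3 : D (y : K) = -((j : K) * (φ * 2⁻¹) * y) := by linear_combination h1
    rw [h3]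
    field_simp
    ring
  have hy' : (y : K) ≠ 0 := fun hh => hy (Subtype.ext hh)
  have h3 := F.mul_mem (h.good.cst _ h2) (F.inv_mem (F.pow_mem y.2 2))
  apply h.ZF j hj
  have h4 : (y : K) ^ 2 * Z ^ j * ((y : K) ^ 2)⁻¹ = Z ^ j := by field_simp
  rwa [h4] at h3

theorem Dat.embed [IsAlgClosed K] (h : Dat D F N a c E Z φ s γ m) (hN : 6 ≤ N) :
    ∃ a' : ℕ → LaurentSeries F, Sys (dH (resD D F h.good.stab) ⟨φ * 2⁻¹, half_mem h.φF⟩) N a'
      (fun n => HahnSeries.C (γ n)) (fun n => single (2 * m n) (s n)) := by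
  have hF := h.good
  have hcl : IsAlgClosed F := good_closed hF
  have hcF : ∀ n, n < N → c n ∈ F := fun n hn => by rw [← h.cF n hn]; exact (γ n).2
  have hst := acl_stab (D := D) (adj_stab hF.stab h.φF h.DZ)
  have hch : CharZero (LaurentSeries F) :=
    charZero_of_injective_algebraMap (algebraMap F (LaurentSeries F)).injective
  obtain ⟨Λ, iΛ, iC, iA, f, DΛ, hDΛ⟩ := exists_ac (LaurentSeries F)
    (dH (resD D F hF.stab) ⟨φ * 2⁻¹, half_mem h.φF⟩)
  obtain ⟨ψ, hψD, hψF, hψZ, hψG⟩ := exists_psi hF h.Z0 h.φF (half_mem h.φF) h.DZ h.ZF hst f DΛ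
    hDΛ
  have hEG : ∀ n, n < N → E n ∈ adj F Z := fun n hn => by
    rw [h.EF n hn]
    exact (adj F Z).mul_mem (le_adj (s n).2) ((adj F Z).zpow_mem mem_adj _)
  obtain ⟨u, hu, v, hv, w, hw, hne, hq⟩ := exists_quad h.sys hN hF hcF h.aF le_adj hEG
  have ha0 : a 0 ∈ acl (adj F Z) := quad_acl hu hv hw hne hq
  have hCF : ∀ n, n ≤ N → a n - a 0 ∈ F := by
    intro n
    induction n with
    | zero => intro _; rw [sub_self]; exact F.zero_mem
    | succ n ih =>
      intro hn
      rw [h.sys.as n (by omega), show a n + c n - a 0 = (a n - a 0) + c n by ring]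
      exact F.add_mem (ih (by omega)) (hcF n (by omega))
  have haL : ∀ n, n ≤ N → a n ∈ acl (adj F Z) := fun n hn => by
    have := (acl (adj F Z)).add_mem (le_acl (le_adj (hCF n hn))) ha0
    rwa [sub_add_cancel] at this
  -- sequences in `L`
  have hex : ∀ n, ∃ y : acl (adj F Z), n ≤ N → (y : K) = a n := fun n => by
    by_cases hn : n ≤ N
    · exact ⟨⟨a n, haL n hn⟩, fun _ => rfl⟩
    · exact ⟨0, fun h => absurd h hn⟩
  choose aL haL' using hex
  let cL : ℕ → acl (adj F Z) := fun n => ⟨γ n, le_acl (le_adj (γ n).2)⟩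
  let EL : ℕ → acl (adj F Z) := fun n => ⟨s n, le_acl (le_adj (s n).2)⟩ *
    (⟨Z, le_acl mem_adj⟩ : acl (adj F Z)) ^ m n
  have hELK : ∀ n, n < N → ((EL n : acl (adj F Z)) : K) = E n := fun n hn => by
    have hz : (((⟨Z, le_acl mem_adj⟩ : acl (adj F Z)) ^ m n : acl (adj F Z)) : K) = Z ^ m n :=
      map_zpow₀ (acl (adj F Z)).subtype _ _
    rw [h.EF n hn]
    change (s n : K) * (((⟨Z, le_acl mem_adj⟩ : acl (adj F Z)) ^ m n : acl (adj F Z)) : K) = _
    rw [hz]
  have hsysL : Sys (resD D (acl (adj F Z)) hst) N aL cL EL :=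
    (Sys.map_iff (D := resD D (acl (adj F Z)) hst) (D' := D) (acl (adj F Z)).subtype
      (a := aL) (a' := a) (c := cL) (c' := c) (E := EL) (E' := E) (fun x => rfl) (fun n hn => haL' n hn) (fun n hn => h.cF n hn) hELK).2 h.sys
  have hsysΛ : Sys DΛ N (fun n => ψ (aL n)) (fun n => ψ (cL n)) (fun n => ψ (EL n)) :=
    (Sys.map_iff (D := resD D (acl (adj F Z)) hst) (D' := DΛ) ψ hψD (fun n _ => rfl)
      (fun n _ => rfl) (fun n _ => rfl)).1 hsysL
  -- the root lies in the field of Laurent series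
  obtain ⟨u0, hu0⟩ := hψG u hu
  obtain ⟨v0, hv0⟩ := hψG v hv
  obtain ⟨w0, hw0⟩ := hψG w hw
  have hroot : ∃ y : LaurentSeries F, f y = ψ (aL 0) := by
    refine root_mem f (u := u0) (v := v0) (w := w0) ?_ ?_
    · rintro ⟨e1, e2, e3⟩
      apply hne
      have hz : ∀ (x : K) (hx : x ∈ adj F Z) (x0 : LaurentSeries F),
          ψ ⟨x, le_acl hx⟩ = f (dbl x0) → x0 = 0 → x = 0 := by
        intro x hx x0 h1 h2
        rw [h2, map_zero, map_zero] at h1
        have := (map_eq_zero ψ).1 h1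
        exact congrArg Subtype.val this
      exact ⟨hz u hu u0 hu0 e1, hz v hv v0 hv0 e2, hz w hw w0 hw0 e3⟩
    · rw [← hu0, ← hv0, ← hw0, ← map_pow, ← map_mul, ← map_mul, ← map_add, ← map_add]
      rw [map_eq_zero]
      apply Subtype.ext
      change u * (aL 0 : K) ^ 2 + v * (aL 0 : K) + w = 0
      rw [haL' 0 (by omega)]
      exact hq
  obtain ⟨y, hy⟩ := hroot
  have hCex : ∀ n, ∃ z : F, n ≤ N → (z : K) = a n - a 0 := fun n => by
    by_cases hn : n ≤ N
    · exact ⟨⟨_, hCF n hn⟩, fun _ => rfl⟩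
    · exact ⟨0, fun h => absurd h hn⟩
  choose zz hzz using hCex
  refine ⟨fun n => y + HahnSeries.C (zz n), ?_⟩
  refine (Sys.map_iff (D' := DΛ) f (fun x => (hDΛ x).symm) (fun n hn => ?_)
    (fun n hn => ?_) (fun n hn => ?_)).2 hsysΛ
  · rw [map_add, hy, ← hψF, ← map_add]
    congr 1
    apply Subtype.ext
    change (aL 0 : K) + (zz n : K) = aL n
    rw [haL' 0 (by omega), haL' n hn, hzz n hn]
    ring
  · exact (hψF (γ n)).symm
  · change f (single (2 * m n) (s n)) = ψ (EL n)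
    simp only [EL]
    rw [map_mul, map_zpow₀, hψF, hψZ, ← map_zpow₀, ← map_mul]
    congr 1
    have h2 : ∀ j : ℤ, (single 2 (1 : F) : LaurentSeries F) ^ j = single (2 * j) 1 := by
      intro j
      obtain ⟨i, rfl | rfl⟩ := j.eq_nat_or_neg
      · rw [zpow_natCast, HahnSeries.single_pow]
        simp [mul_comm]
      · rw [zpow_neg, zpow_natCast, HahnSeries.single_pow, one_pow, single_inv' one_ne_zero]
        simp [mul_comm]
    rw [h2]
    rw [HahnSeries.C_mul_eq_smul]
    ext i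
    rw [HahnSeries.coeff_smul, coeff_single, coeff_single]
    by_cases hi : i = 2 * m n
    · simp [hi]
    · simp [hi]

end main

end Pool.Agent.K4H53.BC
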