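import Pool.Agent.K4H53.BC.Core

/-!
The second case: `a` always lies in the small field.
-/

set_option autoImplicit false

namespace Pool.Agent.K4H53.BC

universe u

variable {K : Type u} [Field K] {D : Derivation ℤ K K} {S : Subfield K}
  {N : ℕ} {a c E : ℕ → K}

/-- the chain of fields -/
noncomputable def chain (S : Subfield K) (E : ℕ → K) : ℕ → Subfield K
  | 0 => S
  | n + 1 => acl (adj (chain S E n) (E n))

theorem chain_succ_le (n : ℕ) : chain S E n ≤ chain S E (n + 1) :=
  le_adj.trans le_acl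

theorem chain_mono {i j : ℕ} (h : i ≤ j) : chain S E i ≤ chain S E j :=
  monotone_nat_of_le_succ (fun n => chain_succ_le n) h

theorem mem_chain {i j : ℕ} (h : i < j) : E i ∈ chain S E j :=
  chain_mono (Nat.succ_le_of_lt h) (le_acl mem_adj)

theorem chain_good [CharZero K] (hS : Good D S) (h : Sys D N a c E) (hc : ∀ n, n < N → c n ∈ S) :
    ∀ n, n ≤ N → Good D (chain S E n) := by
  intro n
  induction n with
  | zero => intro _; exact hS
  | succ n ih =>
    intro hn
    exact good_adj (ih (by omega)) (chain_mono (Nat.zero_le n) (hc n (by omega)))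
      (h.dE n (by omega))

theorem Good.root (hF : Good D S) {x : K} {n : ℕ} (hn : 0 < n) (h : x ^ n ∈ S) : x ∈ S := by
  apply hF.acl
  exact IsAlgebraic.of_pow hn (isAlgebraic_algebraMap (⟨_, h⟩ : S))

theorem caseB [CharZero K] [IsAlgClosed K] (hS : Good D S) (h : Sys D N a c E) (hN : 21 ≤ N)
    (hc : ∀ n, n < N → c n ∈ S) : a 0 ∈ S := by
  by_contra ha
  have hgood := chain_good hS h hc
  have haN : a 0 ∈ chain S E N := by
    refine run_F h (by omega) (hgood N le_rfl)
      (fun n hn => chain_mono (Nat.zero_le N) (hc n hn)) (fun n hn => mem_chain hn)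
  -- the first field of the chain containing `a 0`
  classical
  have hex : ∃ j, a 0 ∈ chain S E j := ⟨N, haN⟩
  obtain ⟨j, hj⟩ : ∃ j, Nat.find hex = j + 1 := by
    apply Nat.exists_eq_succ_of_ne_zero
    intro h0
    have := Nat.find_spec hex
    rw [h0] at this
    exact ha this
  have haj1 : a 0 ∈ chain S E (j + 1) := hj ▸ Nat.find_spec hex
  have haj : a 0 ∉ chain S E j := Nat.find_min hex (by omega)
  have hjN : j < N := by
    have := Nat.find_min' hex haN
    omega
  clear hj
  set F := chain S E j with hFdef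
  have hF : Good D F := hgood j hjN.le
  have hcF : ∀ n, n < N → c n ∈ F := fun n hn => chain_mono (Nat.zero_le j) (hc n hn)
  set Y := E j with hY
  have hY0 : Y ≠ 0 := h.E0 j hjN
  have hDY : D Y = c j * Y := h.dE j hjN
  have hF1 : Good D (acl (adj F Y)) := hgood (j + 1) hjN
  have ha1 : a 0 ∈ acl (adj F Y) := haj1
  have hYF : Y ∉ F := by
    intro hh
    apply haj
    have h1 : adj F Y ≤ F := by
      unfold adj
      rw [Subfield.closure_le]
      rintro x (hx | hx)
      · exact hx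
      · rw [Set.mem_singleton_iff.1 hx]; exact hh
    rw [mem_acl] at ha1
    obtain ⟨p, hp, hpa⟩ := ha1
    apply hF.acl
    refine ⟨p.map (Subfield.inclusion h1),
      (Polynomial.map_ne_zero_iff (Subfield.inclusion h1).injective).2 hp, ?_⟩
    rw [← hpa, Polynomial.aeval_def, Polynomial.aeval_def, Polynomial.eval₂_map]
    rfl
  have hYm : ∀ m : ℤ, m ≠ 0 → Y ^ m ∉ F := by
    intro m hm hh
    apply hYF
    apply hF.root (n := m.natAbs) (by omega)
    rcases lt_or_gt_of_ne hm with h1 | h1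
    · have h2 := F.inv_mem hh
      rw [← zpow_neg] at h2
      rw [← zpow_natCast, show (m.natAbs : ℤ) = -m by omega]
      exact h2
    · rw [← zpow_natCast, show (m.natAbs : ℤ) = m by omega]
      exact hh
  have hcF1 : ∀ n, n < N → c n ∈ acl (adj F Y) := fun n hn => le_acl (le_adj (hcF n hn))
  have haF1 := h.aF hcF1 ha1
  have hEF1 : ∀ n, n + 1 < N → E (n + 1) ∈ acl (adj F Y) := fun n hn =>
    caseA_succ h hF1 hcF1 hn (haF1 n (by omega))
  have hkl : ∀ n, ∃ (k : ℕ) (l : ℤ), 0 < k ∧ (n + 1 < N → E (n + 1) ^ k * Y ^ l ∈ F) := by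
    intro n
    by_cases hn : n + 1 < N
    · obtain ⟨k, l, hk, hkl⟩ := unit_acl hF.stab hF.cst hY0 (hcF j hjN) hDY (h.E0 (n + 1) hn)
        (hcF (n + 1) hn) (h.dE (n + 1) hn) hYm (hEF1 n hn)
      exact ⟨k, l, hk, fun _ => hkl⟩
    · exact ⟨1, 0, one_pos, fun hh => absurd hh hn⟩
  choose k l hk hkl using hkl
  set M : ℕ := ∏ n ∈ Finset.range N, k n with hM
  have hM0 : 0 < M := Finset.prod_pos fun n _ => hk n
  obtain ⟨Z, hZ⟩ := IsAlgClosed.exists_pow_nat_eq Y hM0
  have hZ0 : Z ≠ 0 := by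
    rintro rfl
    rw [zero_pow hM0.ne'] at hZ
    exact hY0 hZ.symm
  have hMK : (M : K) ≠ 0 := Nat.cast_ne_zero.2 hM0.ne'
  have hDZ : D Z = (c j * (M : K)⁻¹) * Z := by
    have h1 := hDY
    rw [← hZ, D.leibniz_pow] at h1
    simp only [nsmul_eq_mul, smul_eq_mul] at h1
    have h2 : Z ^ M = Z ^ (M - 1) * Z := by
      rw [← pow_succ]; congr 1; omega
    have h3 : Z ^ (M - 1) ≠ 0 := pow_ne_zero _ hZ0
    rw [h2] at h1
    field_simp
    apply mul_left_cancel₀ h3
    linear_combination h1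
  have hZF : ∀ i : ℤ, i ≠ 0 → Z ^ i ∉ F := by
    intro i hi hh
    apply hYm i hi
    rw [← hZ, ← zpow_natCast, ← zpow_mul, mul_comm, zpow_mul, zpow_natCast]
    exact F.pow_mem hh M
  have hmem : ∀ n, n + 1 < N → ∃ r : ℤ, E (n + 1) * Z ^ r ∈ F := by
    intro n hn
    obtain ⟨r, hr⟩ : k n ∣ M := Finset.dvd_prod_of_mem k (Finset.mem_range.2 (by omega))
    refine ⟨r * l n, hF.root (hk n) ?_⟩
    have h1 : (E (n + 1) * Z ^ ((r : ℤ) * l n)) ^ k n = E (n + 1) ^ k n * Y ^ l n := by
      rw [mul_pow, ← hZ]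
      congr 1
      rw [← zpow_natCast, ← zpow_mul, ← zpow_natCast, ← zpow_mul]
      congr 1
      rw [hr]
      push_cast
      ring
    rw [h1]
    exact hkl n hn
  have hms : ∀ n, ∃ (s : F) (γ : F) (m : ℤ), n + 1 < N →
      (s ≠ 0 ∧ E (n + 1) = s * Z ^ m ∧ (γ : K) = c (n + 1)) := by
    intro n
    by_cases hn : n + 1 < N
    · obtain ⟨r, hr⟩ := hmem n hn
      refine ⟨⟨_, hr⟩, ⟨_, hcF (n + 1) hn⟩, -r, fun _ => ⟨?_, ?_, rfl⟩⟩
      · intro h0
        have := congrArg Subtype.val h0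
        exact mul_ne_zero (h.E0 _ hn) (zpow_ne_zero _ hZ0) this
      · change E (n + 1) = E (n + 1) * Z ^ r * Z ^ (-r)
        rw [mul_assoc, ← zpow_add₀ hZ0, add_neg_cancel, zpow_zero, mul_one]
    · exact ⟨0, 0, 0, fun hh => absurd hh hn⟩
  choose s γ m hms using hms
  have hdat : Dat D F (N - 1) (fun n => a (n + 1)) (fun n => c (n + 1)) (fun n => E (n + 1)) Z
      (c j * (M : K)⁻¹) s γ m :=
    { sys := (h.mono (show N - 1 + 1 ≤ N by omega)).shift
      good := hF
      Z0 := hZ0
      φF := F.mul_mem (hcF j hjN) (F.inv_mem (natCast_mem F M))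
      DZ := hDZ
      ZF := hZF
      cF := fun n hn => (hms n (by omega)).2.2
      s0 := fun n hn => (hms n (by omega)).1
      EF := fun n hn => (hms n (by omega)).2.1
      aF := fun hh => by
        apply haj
        have h1 : a (0 + 1) = a 0 + c 0 := h.as 0 (by omega)
        have h2 : a (0 + 1) ∈ F := hh
        rw [h1] at h2
        have h3 := F.sub_mem h2 (hcF 0 (by omega))
        rwa [add_sub_cancel_right] at h3 }
  exact core hdat (by omega)

end Pool.Agent.K4H53.BC
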