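import Pool.Agent.K4H53.BC.SmallF

/-!
If all the exponentials of a family are quotients of small functions, then the family consists of
constants.
-/

set_option autoImplicit false

open Complex Metric

namespace Pool.Agent.K4H53.BC

open Pool.Agent.TH242.MK

theorem all_const {ι : Type} [DecidableEq ι] {h : ι → ℂ → ℂ} {J0 : Finset ι} {i0 : ι}
    (hi0 : i0 ∉ J0) (hid : h i0 = id) (hd : ∀ i, Differentiable ℂ (h i))
    (hq : ∀ i ∈ J0, ∃ d w : Ent, d ≠ 0 ∧ Sm 0 (insert i0 J0) h (d : ℂ → ℂ) ∧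
      Sm 0 (insert i0 J0) h (w : ℂ → ℂ) ∧
      ∀ z, (d : ℂ → ℂ) z * cexp (h i z) = (w : ℂ → ℂ) z) :
    ∀ i ∈ J0, ∀ z, deriv (h i) z = 0 := by
  set J := insert i0 J0 with hJ
  have hq' : ∀ i, ∃ d w : Ent, d ≠ 0 ∧ Sm 0 J h (d : ℂ → ℂ) ∧ Sm 0 J h (w : ℂ → ℂ) ∧
      (i ∈ J0 → ∀ z, (d : ℂ → ℂ) z * cexp (h i z) = (w : ℂ → ℂ) z) := by
    intro i
    by_cases hi : i ∈ J0
    · obtain ⟨d, w, h1, h2, h3, h4⟩ := hq i hi
      exact ⟨d, w, h1, h2, h3, fun _ => h4⟩
    · exact ⟨1, 1, one_ne_zero, Sm.const 1, Sm.const 1, fun hh => absurd hh hi⟩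
  choose d w hd0 hdS hwS hdw using hq'
  set P : Ent := ∏ i ∈ J0, d i with hP
  have hPS : P ∈ smR J h := Subring.prod_mem _ fun i _ => hdS i
  have hP0 : P ≠ 0 := Finset.prod_ne_zero_iff.2 fun i _ => hd0 i
  obtain ⟨c, hc⟩ : ∃ z, (P : ℂ → ℂ) z ≠ 0 := by
    by_contra hcon
    push Not at hcon
    exact hP0 (Subtype.ext (funext hcon))
  have hrel : ∀ i ∈ J0, ∃ v : Ent, Sm 0 J h (v : ℂ → ℂ) ∧
      ∀ z, (P : ℂ → ℂ) z * cexp (h i z) = (v : ℂ → ℂ) z := by
    intro i hi
    refine ⟨(∏ j ∈ J0.erase i, d j) * w i, ?_, fun z => ?_⟩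
    · exact (smR J h).mul_mem (Subring.prod_mem _ fun j _ => hdS j) (hwS i)
    · have h1 : P = (∏ j ∈ J0.erase i, d j) * d i := by
        rw [hP, Finset.prod_erase_mul _ _ hi]
      rw [h1]
      change ((∏ j ∈ J0.erase i, d j : Ent) : ℂ → ℂ) z * (d i : ℂ → ℂ) z * cexp (h i z) =
        ((∏ j ∈ J0.erase i, d j : Ent) : ℂ → ℂ) z * (w i : ℂ → ℂ) z
      rw [← hdw i hi z]
      ring
  have hex : ∀ i, ∃ A : ℝ, 0 ≤ A ∧ (i ∈ J0 → ∀ r δ : ℝ, 1 ≤ r → 0 < δ → ∀ z ∈ closedBall c r,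
      ‖h i z‖ ≤ A * (1 + r / δ) ^ 2 *
        (1 + Real.log (Mx J h c (r + δ)) + max 0 (Real.log (1 / δ)) + 1)) := by
    intro i
    by_cases hi : i ∈ J0
    · obtain ⟨v, hv, hv2⟩ := hrel i hi
      obtain ⟨A, hA, hb⟩ := step1 (σ := 0) le_rfl hd hPS hv (hd i) hv2 hc
      refine ⟨A, hA, fun _ r δ hr hδ z hz => ?_⟩
      have := hb r δ hr hδ z hz
      rwa [zero_mul, Real.exp_zero] at this
    · exact ⟨0, le_rfl, fun hh => absurd hh hi⟩
  choose A hA hb using hex
  set S : ℝ := ∑ i ∈ J0, A i with hS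
  have hS0 : 0 ≤ S := Finset.sum_nonneg fun i _ => hA i
  have hMx : ∀ r, 0 ≤ r → Mx J h c r ≤ Mx J0 h c r + ‖c‖ + r := by
    intro r hr
    unfold Mx
    rw [hJ, Finset.sum_insert hi0]
    have h1 : sSup ((fun z => ‖h i0 z‖) '' closedBall c (max r 0)) ≤ ‖c‖ + r := by
      apply csSup_le
      · exact ⟨_, c, mem_closedBall_self (le_max_right _ _), rfl⟩
      · rintro _ ⟨z, hz, rfl⟩
        rw [max_eq_left hr, mem_closedBall, dist_eq_norm] at hz
        simp only [hid, id]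
        have := norm_add_le c (z - c)
        rw [add_sub_cancel] at this
        linarith
    linarith
  have hgrow := growth2 (M := Mx J0 h c) (Mx.mono hd c) (Mx.e_le c)
    (A := Real.exp 1 + J0.card * S) (c0 := ‖c‖) (by positivity) (norm_nonneg c) (by
      intro r δ hr hδ
      have hrδ : 0 ≤ r + δ := by linarith
      have hpos : 0 < Mx J h c (r + δ) := lt_of_lt_of_le (Real.exp_pos 1) (Mx.e_le c _)
      set E : ℝ := 1 + Real.log (Mx J0 h c (r + δ) + ‖c‖ + (r + δ)) +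
        max 0 (Real.log (1 / δ)) + 1 with hE
      have hlog : Real.log (Mx J h c (r + δ)) ≤
          Real.log (Mx J0 h c (r + δ) + ‖c‖ + (r + δ)) :=
        Real.log_le_log hpos (hMx _ hrδ)
      have hlog0 : 0 ≤ Real.log (Mx J h c (r + δ)) := by
        apply Real.log_nonneg
        have := Mx.e_le (J := J) (h := h) c (r + δ)
        have := Real.add_one_le_exp 1
        linarith
      have hE1 : 1 ≤ E := by
        have h2 := le_max_left 0 (Real.log (1 / δ))
        rw [hE]; linarith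
      have hX1 : 1 ≤ 1 + r / δ := by
        have : 0 ≤ r / δ := by positivity
        linarith
      have h3 : Mx J0 h c r ≤ Real.exp 1 + J0.card * (S * (1 + r / δ) ^ 2 * E) := by
        apply Mx.le c (by linarith)
        intro i hi z hz
        refine (hb i hi r δ hr hδ z hz).trans ?_
        have h4 : A i ≤ S := Finset.single_le_sum (fun j _ => hA j) hi
        have h5 : 1 + Real.log (Mx J h c (r + δ)) + max 0 (Real.log (1 / δ)) + 1 ≤ E := by
          rw [hE]; linarith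
        have h6 : 0 ≤ 1 + Real.log (Mx J h c (r + δ)) + max 0 (Real.log (1 / δ)) + 1 := by
          have h2 := le_max_left 0 (Real.log (1 / δ))
          linarith
        exact mul_le_mul (mul_le_mul_of_nonneg_right h4 (by positivity)) h5 h6 (by positivity)
      have h5 : Real.exp 1 ≤ Real.exp 1 * ((1 + r / δ) ^ 2 * E) := by
        apply le_mul_of_one_le_right (Real.exp_pos 1).le
        have := one_le_pow₀ (n := 2) hX1
        nlinarith
      calc Mx J0 h c r ≤ Real.exp 1 + J0.card * (S * (1 + r / δ) ^ 2 * E) := h3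
        _ ≤ Real.exp 1 * ((1 + r / δ) ^ 2 * E) + J0.card * (S * (1 + r / δ) ^ 2 * E) := by
            linarith
        _ = (Real.exp 1 + J0.card * S) * (1 + r / δ) ^ 2 * E := by ring)
  intro i hi z
  by_contra hne
  set ε : ℝ := ‖deriv (h i) z‖ with hε
  have hε0 : 0 < ε := norm_pos_iff.2 hne
  obtain ⟨r, hr0, hr1, hMr⟩ := hgrow (max (2 * ‖z - c‖ + 1) ((2 / ε) ^ 2 + 1))
  have hrz : 2 * ‖z - c‖ + 1 ≤ r := (le_max_left _ _).trans hr0
  have hrε : (2 / ε) ^ 2 + 1 ≤ r := (le_max_right _ _).trans hr0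
  have hR : 0 < r - ‖z - c‖ := by have := norm_nonneg (z - c); linarith
  have hb2 : ∀ x ∈ sphere z (r - ‖z - c‖), ‖h i x‖ ≤ Real.sqrt r := by
    intro x hx
    refine (Mx.ge hd (by linarith) hi ?_).trans hMr
    rw [mem_closedBall, dist_eq_norm]
    have hx' : ‖x - z‖ = r - ‖z - c‖ := by rw [← dist_eq_norm]; exact hx
    have := norm_add_le (x - z) (z - c)
    rw [sub_add_sub_cancel] at this
    linarith
  have h3 := norm_deriv_le_of_forall_mem_sphere_norm_le hR (hd i).diffContOnCl hb2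
  have h4 : Real.sqrt r / (r - ‖z - c‖) < ε := by
    rw [div_lt_iff₀ hR]
    have h5 : 2 / ε < Real.sqrt r := by
      apply Real.lt_sqrt_of_sq_lt
      linarith
    have h6 : 0 < Real.sqrt r := lt_trans (by positivity) h5
    have h7 : Real.sqrt r * Real.sqrt r = r := Real.mul_self_sqrt (by linarith)
    have h8 : 2 < ε * Real.sqrt r := by
      rw [div_lt_iff₀ hε0] at h5
      linarith
    have h9 : 2 * Real.sqrt r < ε * r := by
      nlinarith
    have h10 : r ≤ 2 * (r - ‖z - c‖) := by linarith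
    nlinarith
  linarith

end Pool.Agent.K4H53.BC
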