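import Pool.Agent.K4H53.BC.CaseB

/-!
The core of the second case.
-/

set_option autoImplicit false

open HahnSeries

namespace Pool.Agent.K4H53.BC

universe u

variable {K : Type u} [Field K] [CharZero K] {D : Derivation ℤ K K} {F : Subfield K}
  {N : ℕ} {a c E : ℕ → K} {Z φ : K} {s γ : ℕ → F} {m : ℕ → ℤ}

omit [CharZero K] in
theorem Dat.cF' (h : Dat D F N a c E Z φ s γ m) : ∀ n, n < N → c n ∈ F := fun n hn => by
  rw [← h.cF n hn]; exact (γ n).2

omit [CharZero K] in
/-- replace `Z` by its inverse -/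
theorem Dat.inv (h : Dat D F N a c E Z φ s γ m) :
    Dat D F N a c E Z⁻¹ (-φ) s γ (fun n => - m n) :=
  { sys := h.sys
    good := h.good
    Z0 := inv_ne_zero h.Z0
    φF := F.neg_mem h.φF
    DZ := by
      have := h.Z0
      rw [D_inv, h.DZ]
      field_simp
    ZF := fun j hj => by
      rw [inv_zpow']
      exact h.ZF (-j) (neg_ne_zero.2 hj)
    cF := h.cF
    s0 := h.s0
    EF := fun n hn => by rw [h.EF n hn, inv_zpow', neg_neg]
    aF := h.aF }

omit [CharZero K] in
/-- exchange the two functions -/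
theorem Dat.swap (h : Dat D F N a c E Z φ s γ m) :
    Dat D F N (fun n => - a n) (fun n => - c n) (fun n => (E n)⁻¹) Z⁻¹ (-φ)
      (fun n => (s n)⁻¹) (fun n => - γ n) m :=
  { sys := h.sys.swap
    good := h.good
    Z0 := inv_ne_zero h.Z0
    φF := F.neg_mem h.φF
    DZ := h.inv.DZ
    ZF := h.inv.ZF
    cF := fun n hn => by rw [← h.cF n hn]; rfl
    s0 := fun n hn => inv_ne_zero (h.s0 n hn)
    EF := fun n hn => by
      rw [h.EF n hn, mul_inv, inv_zpow]; rfl
    aF := fun hh => h.aF (by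
      have := F.neg_mem hh
      rwa [neg_neg] at this) }

omit [CharZero K] in
theorem Dat.aF' (h : Dat D F N a c E Z φ s γ m) {n : ℕ} (hn : n ≤ N) : a n ∉ F := by
  have : ∀ n, n ≤ N → a n ∉ F := by
    intro n
    induction n with
    | zero => intro _; exact h.aF
    | succ n ih =>
      intro hn hh
      apply ih (by omega)
      rw [h.sys.as n (by omega)] at hh
      have := F.sub_mem hh (h.cF' n (by omega))
      rwa [add_sub_cancel_right] at this
  exact this n hn

/-- in each direction there is a pole -/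
theorem Dat.pole (h : Dat D F N a c E Z φ s γ m) (hN : 20 ≤ N) {a' : ℕ → LaurentSeries F}
    (h' : Sys (dH (resD D F h.good.stab) ⟨φ * 2⁻¹, half_mem h.φF⟩) N a'
      (fun n => HahnSeries.C (γ n)) (fun n => single (2 * m n) (s n))) :
    ∃ (q : ℤ) (u : LaurentSeries F) (α : F), 0 < q ∧ α ≠ 0 ∧ Res u α ∧
      a' 0 = single (-q) 1 * u := by
  obtain ⟨j, u, r, hr, hu, hau⟩ := exists_form (h'.a0 0 (by omega))
  by_cases hj : j < 0
  · exact ⟨-j, u, r, by omega, hr, hu, by rw [neg_neg]; exact hau⟩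
  · exfalso
    push Not at hj
    have hreg : ∃ ρ, Res (a' 0) ρ := by
      rcases hj.lt_or_eq with h1 | h1
      · rw [hau]
        exact ⟨_, (Res.single_pos h1 1).mul hu⟩
      · rw [hau, ← h1]
        exact ⟨_, (Res.C 1).mul hu⟩
    obtain ⟨ρ, hρ⟩ := hreg
    have hneg : ∀ n n', n < n' → n' < N → m n < 0 → m n' < 0 → False := by
      intro n n' h1 h2 h3 h4
      exact once_neg h.noConst h' (γ := γ) (M := fun n => 2 * m n) (s := s) (fun n _ => rfl)
        (fun n _ => rfl) h.s0 hρ h1 h2 (by omega) (by omega)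
    have hpos : ∀ n n', n < n' → n' < N → 0 < m n → 0 < m n' → False := by
      intro n n' h1 h2 h3 h4
      exact once_pos h.noConst h' (γ := γ) (M := fun n => 2 * m n) (s := s) (fun n _ => rfl)
        (fun n _ => rfl) h.s0 hρ h1 h2 (by omega) (by omega)
    -- there is a run of length six with zero exponents
    have hrun : ∃ j, j ≤ 12 ∧ ∀ i, i < 6 → m (i + j) = 0 := by
      by_contra hcon
      push Not at hcon
      obtain ⟨i0, hi0, h0⟩ := hcon 0 (by omega)
      obtain ⟨i1, hi1, h1⟩ := hcon 6 (by omega)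
      obtain ⟨i2, hi2, h2⟩ := hcon 12 (by omega)
      rcases lt_or_gt_of_ne h0 with h0 | h0 <;> rcases lt_or_gt_of_ne h1 with h1 | h1 <;>
        rcases lt_or_gt_of_ne h2 with h2 | h2
      · exact hneg _ _ (by omega) (by omega) h0 h1
      · exact hneg _ _ (by omega) (by omega) h0 h1
      · exact hneg _ _ (by omega) (by omega) h0 h2
      · exact hpos _ _ (by omega) (by omega) h1 h2
      · exact hneg _ _ (by omega) (by omega) h1 h2
      · exact hpos _ _ (by omega) (by omega) h0 h2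
      · exact hpos _ _ (by omega) (by omega) h0 h1
      · exact hpos _ _ (by omega) (by omega) h0 h1
    obtain ⟨j, hj, hrun⟩ := hrun
    have hs : Sys D 6 (fun n => a (n + j)) (fun n => c (n + j)) (fun n => E (n + j)) :=
      (h.sys.mono (show 6 + j ≤ N by omega)).shift
    have := run_F hs le_rfl h.good (fun n hn => h.cF' _ (by omega)) (fun n hn => by
      rw [h.EF _ (by omega), hrun n hn, zpow_zero, mul_one]
      exact (s _).2)
    exact h.aF' (n := 0 + j) (by omega) this

theorem Dat.type [IsAlgClosed K] (h : Dat D F N a c E Z φ s γ m) (hN : 20 ≤ N) :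
    (∀ n, n < N → 0 < m n) ∨ (∀ n, n < N → m n < 0) := by
  obtain ⟨a', h'⟩ := h.embed (by omega)
  obtain ⟨q, u, α, hq, hα, hu, hau⟩ := h.pole hN h'
  rcases pole_type h' (γ := γ) (M := fun n => 2 * m n) (s := s) (fun n _ => rfl)
    (fun n _ => rfl) h.s0 hq hα hu hau with h1 | h1 | h1
  · left; intro n hn; have := h1 n hn; omega
  · right; intro n hn; have := h1 n hn; omega
  · exfalso
    apply h.aF
    refine run_F h.sys (by omega) h.good h.cF' (fun n hn => ?_)
    have : m n = 0 := by have := h1 n hn; omega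
    rw [h.EF n hn, this, zpow_zero, mul_one]
    exact (s n).2

theorem Dat.eqs [IsAlgClosed K] (h : Dat D F N a c E Z φ s γ m) (hN : 20 ≤ N)
    (hm : ∀ n, n < N → 0 < m n) :
    ∃ (q : ℤ) (α : F), α ≠ 0 ∧
      ∀ n, n + 1 < N → (2 * m n < q ∧ 2 * m (n + 1) = 2 * m n ∧ s (n + 1) = s n) ∨
      (q ≤ 2 * m n ∧ q ≤ 2 * m (n + 1) ∧
      (if 2 * m n = q then s n else 0) - (if 2 * m (n + 1) = q then s (n + 1) else 0) =
      (resD D F h.good.stab α * α⁻¹ - q * ⟨φ * 2⁻¹, half_mem h.φF⟩ + γ n) * α⁻¹) := by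
  obtain ⟨a', h'⟩ := h.embed (by omega)
  obtain ⟨q, u, α, hq, hα, hu, hau⟩ := h.pole hN h'
  exact ⟨q, α, hα, fun n hn => pole_pos h' (γ := γ) (M := fun n => 2 * m n) (s := s)
    (fun n _ => rfl) (fun n _ => rfl) h.s0 hq hα hu hau
    (fun n hn => by have := hm n hn; change 0 < 2 * m n; omega) hn⟩

theorem core_pos [IsAlgClosed K] (h : Dat D F N a c E Z φ s γ m) (hN : 20 ≤ N)
    (hm : ∀ n, n < N → 0 < m n) : False := by
  obtain ⟨q, α, hα, h1⟩ := h.eqs hN hm
  obtain ⟨q', α', hα', h2⟩ := h.swap.eqs hN hm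
  have hγ : ∀ n, n < N → resD D F h.good.stab (s n) +
      ((2 * m n : ℤ) : F) * ⟨φ * 2⁻¹, half_mem h.φF⟩ * s n = γ n * s n := by
    intro n hn
    apply Subtype.ext
    have e1 := h.sys.dE n hn
    rw [h.EF n hn, D_mul, D_zpow h.Z0 h.DZ, ← h.cF n hn] at e1
    have e2 : Z ^ m n ≠ 0 := zpow_ne_zero _ h.Z0
    have e3 : D (s n : K) + (m n : K) * φ * (s n : K) = (γ n : K) * (s n : K) := by
      apply mul_right_cancel₀ e2
      linear_combination e1
    change D (s n : K) + ((((2 * m n : ℤ) : F) : K)) * (φ * 2⁻¹) * (s n : K) =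
      (γ n : K) * (s n : K)
    rw [← e3]
    have e4 : ((((2 * m n : ℤ) : F) : K)) = 2 * (m n : K) := by push_cast; rfl
    rw [e4]
    ring
  obtain ⟨j, hj, hper⟩ := endgame (M := fun n => 2 * m n) h.noConst hN h.s0 hγ hα hα' h1
    (fun n hn => by
      rcases h2 n hn with h3 | h3
      · exact Or.inl ⟨h3.1, h3.2.1, inv_injective h3.2.2⟩
      · refine Or.inr ⟨h3.1, h3.2.1, h3.2.2.trans ?_⟩
        congr 1
        have e1 : (⟨-φ * 2⁻¹, half_mem h.swap.φF⟩ : F) = -⟨φ * 2⁻¹, half_mem h.φF⟩ :=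
          Subtype.ext (neg_mul _ _)
        rw [e1]
        ring)
  have hs : Sys D 6 (fun n => a (n + j)) (fun n => c (n + j)) (fun n => E (n + j)) :=
    (h.sys.mono (show 6 + j ≤ N by omega)).shift
  have hEper : ∀ n, n ≤ 3 → E (n + 2 + j) = E (n + j) := by
    intro n hn
    obtain ⟨e1, e2⟩ := hper n hn
    rw [h.EF _ (by omega), h.EF _ (by omega), show n + 2 + j = j + n + 2 by omega,
      show n + j = j + n by omega, e2, show m (j + n + 2) = m (j + n) by omega]
  refine h.aF' (n := 0 + j) (by omega) (periodic hs le_rfl h.good (h.cF' _ (by omega)) hEper ?_)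
  intro h0
  have e0 : c (0 + j) + c (1 + j) = 0 := h0
  have e1 : D (E (0 + j) * E (1 + j)) = 0 := by
    rw [D_mul, h.sys.dE _ (by omega), h.sys.dE _ (by omega)]
    linear_combination E (0 + j) * E (1 + j) * e0
  have e2 := h.good.cst _ e1
  rw [h.EF _ (by omega), h.EF _ (by omega)] at e2
  have s1 : (s (0 + j) : K) ≠ 0 := fun hh => h.s0 (0 + j) (by omega) (Subtype.ext hh)
  have s2 : (s (1 + j) : K) ≠ 0 := fun hh => h.s0 (1 + j) (by omega) (Subtype.ext hh)
  have e3 := F.mul_mem e2 (F.inv_mem (F.mul_mem (s (0 + j)).2 (s (1 + j)).2))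
  have e4 : (s (0 + j) : K) * Z ^ m (0 + j) * ((s (1 + j) : K) * Z ^ m (1 + j)) *
      ((s (0 + j) : K) * (s (1 + j) : K))⁻¹ = Z ^ (m (0 + j) + m (1 + j)) := by
    rw [zpow_add₀ h.Z0]
    field_simp
  rw [e4] at e3
  have m1 := hm (0 + j) (by omega)
  have m2 := hm (1 + j) (by omega)
  exact h.ZF _ (by omega) e3

theorem core [IsAlgClosed K] (h : Dat D F N a c E Z φ s γ m) (hN : 20 ≤ N) : False := by
  rcases h.type hN with h1 | h1
  · exact core_pos h hN h1
  · exact core_pos h.inv hN (fun n hn => by have := h1 n hn; omega)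

end Pool.Agent.K4H53.BC
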