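import Pool.Agent.K4H53.BC.LSer

/-!
Analysis of the system in a field of Laurent series.
-/

set_option autoImplicit false

open HahnSeries

namespace Pool.Agent.K4H53.BC

section gen

variable {K : Type*} [Field K] {D : Derivation ℤ K K} {N : ℕ} {a c E : ℕ → K}

theorem Sys.recR (h : Sys D N a c E) {n : ℕ} (hn : n + 1 < N) :
    a (n + 1) * ee E (n + 1) = a n * ee E n + D (a n * ee E n) * (a n * ee E n)⁻¹ := by
  have h1 := h.ric hn
  have h2 := h.de (show n < N by omega)
  have h3 := h.a0 n (by omega)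
  have h4 := h.e0 (show n < N by omega)
  rw [D_mul, h2, h1, h.as n (by omega)]
  field_simp
  ring

theorem Sys.ee_swap (h : Sys D N a c E) {n : ℕ} (hn : n < N) :
    ee (fun n => (E n)⁻¹) n = -(1 + ee E n) := by
  have h1 := h.E0 n hn
  have h2 := h.sub1 hn
  have h3 : (E n)⁻¹ - 1 ≠ 0 := h.swap.sub1 hn
  have h5 : 1 - E n ≠ 0 := fun h0 => h2 (by linear_combination -h0)
  rw [h.e1 hn]
  unfold ee
  field_simp
  ring

end gen

variable {k : Type*} [Field k] {δ : Derivation ℤ k k} {θ : k}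

/-- no monomial of nonzero order is a constant -/
def NoConst (δ : Derivation ℤ k k) (θ : k) : Prop :=
  ∀ s : k, s ≠ 0 → ∀ m : ℤ, m ≠ 0 → δ s + m * θ * s ≠ 0

/-- logarithmic derivatives of monomials of nonzero order -/
def GG (δ : Derivation ℤ k k) (θ : k) (r : k) : Prop :=
  ∃ y : k, y ≠ 0 ∧ ∃ j : ℤ, j ≠ 0 ∧ r = j * θ + δ y * y⁻¹

theorem GG.ne (hθ : NoConst δ θ) {r : k} (h : GG δ θ r) : r ≠ 0 := by
  obtain ⟨y, hy, j, hj, rfl⟩ := h
  intro h0
  apply hθ y hy j hj
  field_simp at h0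
  linear_combination h0

theorem GG.next (hθ : NoConst δ θ) {r : k} (h : GG δ θ r) : GG δ θ (r + δ r * r⁻¹) := by
  have hr := h.ne hθ
  obtain ⟨y, hy, j, hj, h1⟩ := h
  refine ⟨r * y, mul_ne_zero hr hy, j, hj, ?_⟩
  rw [D_mul]
  nth_rw 1 [h1]
  field_simp
  ring

theorem step_zero {x : LaurentSeries k} (hx : x ≠ 0) (h : Res x 0) :
    ∃ r, GG δ θ r ∧ Res (x + dH δ θ x * x⁻¹) r := by
  obtain ⟨m, u, ρ, hρ, hu, hxu⟩ := exists_form hx
  have hm : 0 < m := by
    by_contra hcon
    push Not at hcon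
    have h1 : u = single (-m) 1 * x := by
      rw [hxu, ← mul_assoc, single_mul_single', neg_add_cancel, one_mul]
      change u = 1 * u
      rw [one_mul]
    rcases hcon.lt_or_eq with h2 | h2
    · have h3 : Res u 0 := by
        rw [h1]
        have := (Res.single_pos (show 0 < -m by omega) (1 : k)).mul h
        rwa [mul_zero] at this
      exact hρ (hu.uniq h3)
    · rw [h2] at h1
      have h3 : u = x := by
        rw [h1]
        change (1 : LaurentSeries k) * x = x
        rw [one_mul]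
      rw [h3] at hu
      exact hρ (hu.uniq h)
  refine ⟨m * θ + δ ρ * ρ⁻¹, ⟨ρ, hρ, m, hm.ne', rfl⟩, ?_⟩
  have := h.add (Res.logD δ θ hu hρ hxu)
  rwa [zero_add] at this

theorem step_GG (hθ : NoConst δ θ) {x : LaurentSeries k} {r : k} (hr : GG δ θ r) (h : Res x r) :
    ∃ r', GG δ θ r' ∧ Res (x + dH δ θ x * x⁻¹) r' :=
  ⟨_, hr.next hθ, h.add ((h.D δ θ).mul (h.inv (hr.ne hθ)))⟩

theorem seq_once (hθ : NoConst δ θ) {N : ℕ} {x : ℕ → LaurentSeries k}
    (hx : ∀ n, n < N → x n ≠ 0)
    (hrec : ∀ n, n + 1 < N → x (n + 1) = x n + dH δ θ (x n) * (x n)⁻¹) {n m : ℕ} (hnm : n < m)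
    (hm : m < N) (hn0 : Res (x n) 0) (hm0 : Res (x m) 0) : False := by
  have key : ∀ j, n + 1 + j < N → ∃ r, GG δ θ r ∧ Res (x (n + 1 + j)) r := by
    intro j
    induction j with
    | zero =>
      intro hj
      rw [add_zero, hrec n (by omega)]
      exact step_zero (hx n (by omega)) hn0
    | succ j ih =>
      intro hj
      obtain ⟨r, hr, hr2⟩ := ih (by omega)
      rw [show n + 1 + (j + 1) = (n + 1 + j) + 1 by omega, hrec _ (by omega)]
      exact step_GG hθ hr hr2
  obtain ⟨r, hr, hr2⟩ := key (m - (n + 1)) (by omega)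
  rw [show n + 1 + (m - (n + 1)) = m by omega] at hr2
  exact hr.ne hθ (hr2.uniq hm0)

variable {N : ℕ} {a c : ℕ → LaurentSeries k} {s γ : ℕ → k} {M : ℕ → ℤ}

/-- the residues of `e` -/
theorem ee_res {E : ℕ → LaurentSeries k} {n : ℕ} (hE : E n = single (M n) (s n))
    (hs : s n ≠ 0) (hE1 : E n ≠ 1) :
    ∃ ε, Res (ee E n) ε ∧ (0 < M n → ε = -1) ∧ (M n < 0 → ε = 0) ∧
      (M n = 0 → ε ≠ 0 ∧ ε ≠ -1) := by
  rcases lt_trichotomy (M n) 0 with h | h | h
  · refine ⟨0, ?_, fun h' => by omega, fun _ => rfl, fun h' => by omega⟩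
    have h1 : (E n)⁻¹ = single (-(M n)) (s n)⁻¹ := by rw [hE, single_inv' hs]
    have h2 : Res (E n)⁻¹ 0 := by rw [h1]; exact Res.single_pos (by omega) _
    have h3 := h2.mul ((Res.one.sub h2).inv (by simp))
    have h4 : ee E n = (E n)⁻¹ * (1 - (E n)⁻¹)⁻¹ := by
      have hE0 : E n ≠ 0 := by rw [hE]; simpa using hs
      have hE1' : E n - 1 ≠ 0 := sub_ne_zero.2 hE1
      have h5 : 1 - (E n)⁻¹ ≠ 0 := by
        intro h0
        apply hE1'
        field_simp at h0
        rw [h0, mul_zero]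
      unfold ee
      rw [eq_comm, ← mul_inv, mul_sub, mul_one, mul_inv_cancel₀ hE0]
    rw [h4]
    simpa using h3
  · have hs1 : s n ≠ 1 := by
      intro h1
      apply hE1
      rw [hE, h, h1]
      rfl
    refine ⟨(s n - 1)⁻¹, ?_, fun h' => by omega, fun h' => by omega, fun _ => ⟨?_, ?_⟩⟩
    · have h1 : Res (E n) (s n) := by
        rw [hE, h]; exact Res.C _
      exact (h1.sub Res.one).inv (sub_ne_zero.2 hs1)
    · exact inv_ne_zero (sub_ne_zero.2 hs1)
    · intro h1
      rw [inv_eq_iff_eq_inv] at h1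
      apply hs
      rw [inv_neg, inv_one] at h1
      linear_combination h1
  · refine ⟨-1, ?_, fun _ => rfl, fun h' => by omega, fun h' => by omega⟩
    have h1 : Res (E n) 0 := by rw [hE]; exact Res.single_pos h _
    have h2 := (h1.sub Res.one).inv (by simp)
    unfold ee
    simpa using h2

theorem res_a {E : ℕ → LaurentSeries k} (h : Sys (dH δ θ) N a c E)
    (hc : ∀ n, n < N → c n = HahnSeries.C (γ n)) {r : k} (ha : Res (a 0) r) :
    ∀ n, n ≤ N → ∃ r, Res (a n) r := by
  intro n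
  induction n with
  | zero => intro _; exact ⟨r, ha⟩
  | succ n ih =>
    intro hn
    obtain ⟨r', hr'⟩ := ih (by omega)
    rw [h.as n (by omega), hc n (by omega)]
    exact ⟨_, hr'.add (Res.C _)⟩

/-- if `a` is regular then at most one `E n` has a pole -/
theorem once_neg (hθ : NoConst δ θ) {E : ℕ → LaurentSeries k} (h : Sys (dH δ θ) N a c E)
    (hc : ∀ n, n < N → c n = HahnSeries.C (γ n)) (hE : ∀ n, n < N → E n = single (M n) (s n))
    (hs : ∀ n, n < N → s n ≠ 0) {r : k} (ha : Res (a 0) r) {n m : ℕ} (hnm : n < m) (hm : m < N)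
    (hMn : M n < 0) (hMm : M m < 0) : False := by
  have key : ∀ n, n < N → M n < 0 → Res (a n * ee E n) 0 := by
    intro n hn hMn
    obtain ⟨r', hr'⟩ := res_a h hc ha n hn.le
    obtain ⟨ε, hε, _, h2, _⟩ := ee_res (hE n hn) (hs n hn) (h.E1 n hn)
    rw [h2 hMn] at hε
    simpa using hr'.mul hε
  exact seq_once hθ (x := fun n => a n * ee E n) (N := N)
    (fun n hn => mul_ne_zero (h.a0 n hn) (h.e0 hn)) (fun n hn => h.recR hn) hnm hm
    (key n (by omega) hMn) (key m hm hMm)

theorem once_pos (hθ : NoConst δ θ) {E : ℕ → LaurentSeries k} (h : Sys (dH δ θ) N a c E)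
    (hc : ∀ n, n < N → c n = HahnSeries.C (γ n)) (hE : ∀ n, n < N → E n = single (M n) (s n))
    (hs : ∀ n, n < N → s n ≠ 0) {r : k} (ha : Res (a 0) r) {n m : ℕ} (hnm : n < m) (hm : m < N)
    (hMn : 0 < M n) (hMm : 0 < M m) : False := by
  refine once_neg hθ h.swap (γ := fun n => - γ n) (M := fun n => - M n) (s := fun n => (s n)⁻¹)
    (fun n hn => by rw [hc n hn, map_neg]) (fun n hn => by rw [hE n hn, single_inv' (hs n hn)])
    (fun n hn => inv_ne_zero (hs n hn)) ha.neg hnm hm (by omega) (by omega)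

/-- the form of the `a n` at a pole -/
theorem pole_a {E : ℕ → LaurentSeries k} (h : Sys (dH δ θ) N a c E)
    (hc : ∀ n, n < N → c n = HahnSeries.C (γ n)) {q : ℤ} (hq : 0 < q) {u : LaurentSeries k}
    {α : k} (hu : Res u α) (ha : a 0 = single (-q) 1 * u) :
    ∀ n, n ≤ N → ∃ u, Res u α ∧ a n = single (-q) 1 * u := by
  intro n
  induction n with
  | zero => intro _; exact ⟨u, hu, ha⟩
  | succ n ih =>
    intro hn
    obtain ⟨v, hv, hv2⟩ := ih (by omega)
    refine ⟨v + single q (γ n), ?_, ?_⟩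
    · have := hv.add (Res.single_pos hq (γ n))
      rwa [add_zero] at this
    · rw [h.as n (by omega), hc n (by omega), hv2, mul_add, single_mul_single', neg_add_cancel,
        one_mul]
      rfl

theorem pole_A {E : ℕ → LaurentSeries k} (h : Sys (dH δ θ) N a c E)
    (hc : ∀ n, n < N → c n = HahnSeries.C (γ n)) {q : ℤ} (hq : 0 < q) {u : LaurentSeries k}
    {α : k} (hα : α ≠ 0) (hu : Res u α) (ha : a 0 = single (-q) 1 * u) {n : ℕ} (hn : n + 1 < N)
    {ε ε' : k} (hε : Res (ee E n) ε) (hε' : Res (ee E (n + 1)) ε') :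
    Res ((ee E (n + 1) - ee E n) * a n)
      (((-q : ℤ) : k) * θ + δ α * α⁻¹ - γ n * (1 + ε + ε')) := by
  obtain ⟨v, hv, hv2⟩ := pole_a h hc hq hu ha n (by omega)
  have h1 := Res.logD δ θ hv hα hv2
  have h2 := h.ric hn
  have h3 := h.a0 n (by omega)
  have h4 : (ee E (n + 1) - ee E n) * a n = dH δ θ (a n) * (a n)⁻¹ -
      c n * (1 + ee E n + ee E (n + 1)) := by
    rw [h2]; field_simp; ring
  rw [h4, hc n (by omega)]
  exact h1.sub ((Res.C _).mul ((Res.one.add hε).add hε'))

theorem pole_inv {q : ℤ} (hq : 0 < q) {u x : LaurentSeries k}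
    {α : k} (hα : α ≠ 0) (hu : Res u α) (hx : x = single (-q) 1 * u) : Res x⁻¹ 0 := by
  rw [hx, mul_inv, single_inv' one_ne_zero, inv_one, neg_neg]
  have := (Res.single_pos hq (1 : k)).mul (hu.inv hα)
  rwa [zero_mul] at this

theorem pole_type {E : ℕ → LaurentSeries k} (h : Sys (dH δ θ) N a c E)
    (hc : ∀ n, n < N → c n = HahnSeries.C (γ n)) (hE : ∀ n, n < N → E n = single (M n) (s n))
    (hs : ∀ n, n < N → s n ≠ 0) {q : ℤ} (hq : 0 < q) {u : LaurentSeries k}
    {α : k} (hα : α ≠ 0) (hu : Res u α) (ha : a 0 = single (-q) 1 * u) :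
    (∀ n, n < N → 0 < M n) ∨ (∀ n, n < N → M n < 0) ∨ (∀ n, n < N → M n = 0) := by
  have step : ∀ n, n + 1 < N → ((0 < M n → 0 < M (n + 1)) ∧ (M n < 0 → M (n + 1) < 0) ∧
      (M n = 0 → M (n + 1) = 0)) := by
    intro n hn
    obtain ⟨ε, hε, h1, h2, h3⟩ := ee_res (hE n (by omega)) (hs n (by omega)) (h.E1 n (by omega))
    obtain ⟨ε', hε', h1', h2', h3'⟩ := ee_res (hE (n + 1) hn) (hs (n + 1) hn) (h.E1 (n + 1) hn)
    have h4 := pole_A h hc hq hα hu ha hn hε hε'
    obtain ⟨v, hv, hv2⟩ := pole_a h hc hq hu ha n (by omega)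
    have h5 := h4.mul (pole_inv hq hα hv hv2)
    have h6 : (ee E (n + 1) - ee E n) * a n * (a n)⁻¹ = ee E (n + 1) - ee E n :=
      mul_inv_cancel_right₀ (h.a0 n (by omega)) _
    rw [h6, mul_zero] at h5
    have h7 : ε' = ε := sub_eq_zero.1 ((hε'.sub hε).uniq h5)
    have hn1 : (-1 : k) ≠ 0 := by simp
    rcases lt_trichotomy (M n) 0 with h8 | h8 | h8 <;>
      rcases lt_trichotomy (M (n + 1)) 0 with h9 | h9 | h9
    · exact ⟨fun h => by omega, fun _ => h9, fun h => by omega⟩
    · exact absurd (h7.trans (h2 h8)) (h3' h9).1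
    · rw [h1' h9, h2 h8] at h7; exact absurd h7 hn1
    · exact absurd (h7.symm.trans (h2' h9)) (h3 h8).1
    · exact ⟨fun h => by omega, fun h => by omega, fun _ => h9⟩
    · exact absurd (h7.symm.trans (h1' h9)) (h3 h8).2
    · rw [h2' h9, h1 h8] at h7; exact absurd h7.symm hn1
    · exact absurd (h7.trans (h1 h8)) (h3' h9).2
    · exact ⟨fun _ => h9, fun h => by omega, fun h => by omega⟩
  rcases lt_trichotomy (M 0) 0 with h0 | h0 | h0
  · right; left
    intro n
    induction n with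
    | zero => intro _; exact h0
    | succ n ih => intro hn; exact (step n hn).2.1 (ih (by omega))
  · right; right
    intro n
    induction n with
    | zero => intro _; exact h0
    | succ n ih => intro hn; exact (step n hn).2.2 (ih (by omega))
  · left
    intro n
    induction n with
    | zero => intro _; exact h0
    | succ n ih => intro hn; exact (step n hn).1 (ih (by omega))

theorem two_singles {m m' : ℤ} {r r' ρ : k} (hr : r ≠ 0) (hr' : r' ≠ 0)
    (h : Res (single m r - single m' r' : LaurentSeries k) ρ) :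
    (m < 0 ∧ m' = m ∧ r' = r) ∨ (0 ≤ m ∧ 0 ≤ m' ∧
      (if m = 0 then r else 0) - (if m' = 0 then r' else 0) = ρ) := by
  have h0 := h.coeff_zero
  rw [HahnSeries.coeff_sub, coeff_single, coeff_single] at h0
  by_cases hm : m < 0
  · left
    have h1 := h.coeff_neg hm
    rw [HahnSeries.coeff_sub, coeff_single, coeff_single, if_pos rfl] at h1
    by_cases hmm : m = m'
    · rw [if_pos hmm] at h1
      exact ⟨hm, hmm.symm, (sub_eq_zero.1 h1).symm⟩
    · rw [if_neg hmm, sub_zero] at h1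
      exact absurd h1 hr
  · right
    have hm' : 0 ≤ m' := by
      by_contra hcon
      push Not at hcon
      have h1 := h.coeff_neg hcon
      rw [HahnSeries.coeff_sub, coeff_single, coeff_single, if_pos rfl, if_neg (by omega),
        zero_sub, neg_eq_zero] at h1
      exact hr' h1
    refine ⟨by omega, hm', ?_⟩
    rw [← h0]
    congr 1
    · simp only [eq_comm]
    · simp only [eq_comm]

theorem pole_pos {E : ℕ → LaurentSeries k} (h : Sys (dH δ θ) N a c E)
    (hc : ∀ n, n < N → c n = HahnSeries.C (γ n)) (hE : ∀ n, n < N → E n = single (M n) (s n))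
    (hs : ∀ n, n < N → s n ≠ 0) {q : ℤ} (hq : 0 < q) {u : LaurentSeries k}
    {α : k} (hα : α ≠ 0) (hu : Res u α) (ha : a 0 = single (-q) 1 * u)
    (hM : ∀ n, n < N → 0 < M n) {n : ℕ} (hn : n + 1 < N) :
    (M n < q ∧ M (n + 1) = M n ∧ s (n + 1) = s n) ∨ (q ≤ M n ∧ q ≤ M (n + 1) ∧
      (if M n = q then s n else 0) - (if M (n + 1) = q then s (n + 1) else 0) =
      (δ α * α⁻¹ - q * θ + γ n) * α⁻¹) := by
  obtain ⟨ε, hε, h1, h2, h3⟩ := ee_res (hE n (by omega)) (hs n (by omega)) (h.E1 n (by omega))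
  obtain ⟨ε', hε', h1', h2', h3'⟩ := ee_res (hE (n + 1) hn) (hs (n + 1) hn) (h.E1 (n + 1) hn)
  have h4 := pole_A h hc hq hα hu ha hn hε hε'
  rw [h1 (hM n (by omega)), h1' (hM (n + 1) hn)] at h4
  obtain ⟨v, hv, hv2⟩ := pole_a h hc hq hu ha n (by omega)
  have hv0 : v ≠ 0 := by
    rintro rfl
    exact hα (hv.uniq ⟨0, by simp, by simp⟩)
  have r1 : Res (E n) 0 := by rw [hE n (by omega)]; exact Res.single_pos (hM n (by omega)) _
  have r2 : Res (E (n + 1)) 0 := by rw [hE (n + 1) hn]; exact Res.single_pos (hM _ hn) _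
  have h5 := ((h4.mul (r1.sub Res.one)).mul (r2.sub Res.one)).mul (hv.inv hα)
  have e1 := h.sub1 (show n < N by omega)
  have e2 := h.sub1 hn
  have h6 : (ee E (n + 1) - ee E n) * a n * (E n - 1) * (E (n + 1) - 1) * v⁻¹ =
      single (M n - q) (s n) - single (M (n + 1) - q) (s (n + 1)) := by
    have h7 : (single (M n - q) (s n) : LaurentSeries k) - single (M (n + 1) - q) (s (n + 1)) =
        (E n - E (n + 1)) * single (-q) 1 := by
      rw [sub_mul, hE n (by omega), hE (n + 1) hn, single_mul_single', single_mul_single',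
        mul_one, mul_one]
      rfl
    rw [h7, hv2]
    unfold ee
    field_simp
    ring
  rw [h6] at h5
  rcases two_singles (hs n (by omega)) (hs (n + 1) hn) h5 with h8 | h8
  · left
    exact ⟨by omega, by omega, h8.2.2⟩
  · right
    refine ⟨by omega, by omega, ?_⟩
    have h9 := h8.2.2
    have i1 : (M n - q = 0) = (M n = q) := propext ⟨fun h => by omega, fun h => by omega⟩
    have i2 : (M (n + 1) - q = 0) = (M (n + 1) = q) :=
      propext ⟨fun h => by omega, fun h => by omega⟩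
    simp only [i1, i2] at h9
    rw [h9]
    push_cast
    ring

end Pool.Agent.K4H53.BC
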