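import Pool.Agent.K4H53.BC.Alg

/-!
Exponential elements: independence, and algebraic dependence of two of them.
-/

set_option autoImplicit false

open Polynomial

namespace Pool.Agent.K4H53.BC

variable {K : Type*} [Field K] {D : Derivation ℤ K K} {F : Subfield K}

theorem units_indep {ι : Type*} [DecidableEq ι] (hst : ∀ x ∈ F, D x ∈ F)
    (hcst : ∀ x, D x = 0 → x ∈ F) {u φ : ι → K} (hu : ∀ i, u i ≠ 0) (hφ : ∀ i, φ i ∈ F)
    (hD : ∀ i, D (u i) = φ i * u i) :
    ∀ (s : Finset ι), (∀ i ∈ s, ∀ j ∈ s, i ≠ j → u i * (u j)⁻¹ ∉ F) → ∀ (p : ι → K),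
      (∀ i ∈ s, p i ∈ F) → ∑ i ∈ s, p i * u i = 0 → ∀ i ∈ s, p i = 0 := by
  intro s
  induction s using Finset.induction_on with
  | empty => intro _ p _ _ i hi; exact absurd hi (Finset.notMem_empty i)
  | insert j s hj ih =>
    intro hne p hp hsum
    have hne' : ∀ i ∈ s, ∀ k ∈ s, i ≠ k → u i * (u k)⁻¹ ∉ F := fun i hi k hk =>
      hne i (Finset.mem_insert_of_mem hi) k (Finset.mem_insert_of_mem hk)
    by_cases hpj : p j = 0
    · rw [Finset.sum_insert hj, hpj, zero_mul, zero_add] at hsum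
      have := ih hne' p (fun i hi => hp i (Finset.mem_insert_of_mem hi)) hsum
      intro i hi
      rcases Finset.mem_insert.1 hi with h | h
      · rw [h, hpj]
      · exact this i h
    · exfalso
      have hpjF := hp j (Finset.mem_insert_self _ _)
      set w : K := (D (p j) + p j * φ j) * (p j)⁻¹ with hw
      have hwF : w ∈ F := F.mul_mem (F.add_mem (hst _ hpjF) (F.mul_mem hpjF (hφ j)))
        (F.inv_mem hpjF)
      set q : ι → K := fun i => D (p i) + p i * φ i - p i * w with hq
      have hqF : ∀ i ∈ s, q i ∈ F := fun i hi => by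
        have := hp i (Finset.mem_insert_of_mem hi)
        exact F.sub_mem (F.add_mem (hst _ this) (F.mul_mem this (hφ i))) (F.mul_mem this hwF)
      have hd : ∀ t : Finset ι, D (∑ i ∈ t, p i * u i) = ∑ i ∈ t, (D (p i) + p i * φ i) * u i := by
        intro t
        rw [map_sum]
        refine Finset.sum_congr rfl fun i _ => ?_
        rw [D_mul, hD]; ring
      have h1 := hd (insert j s)
      rw [hsum, map_zero, Finset.sum_insert hj] at h1
      rw [Finset.sum_insert hj] at hsum
      have hqs : ∑ i ∈ s, q i * u i = 0 := by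
        have h2 : ∑ i ∈ s, q i * u i = ∑ i ∈ s, (D (p i) + p i * φ i) * u i -
            w * ∑ i ∈ s, p i * u i := by
          rw [Finset.mul_sum, ← Finset.sum_sub_distrib]
          exact Finset.sum_congr rfl fun i _ => by simp only [hq]; ring
        rw [h2]
        have h3 : w * p j = D (p j) + p j * φ j := by rw [hw]; field_simp
        linear_combination -h1 - w * hsum + u j * h3
      have hq0 := ih hne' q hqF hqs
      have hp0 : ∀ i ∈ s, p i = 0 := by
        intro i hi
        by_contra hpi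
        have hpiF := hp i (Finset.mem_insert_of_mem hi)
        have h4 : D (p i * u i * (p j * u j)⁻¹) = 0 := by
          have h5 := hq0 i hi
          simp only [hq, hw] at h5
          have h6 := hu j
          rw [D_mul, D_inv, D_mul, D_mul, hD, hD]
          field_simp
          field_simp at h5
          linear_combination u i * h5
        have h7 := hcst _ h4
        have h8 : u i * (u j)⁻¹ = (p i * u i * (p j * u j)⁻¹) * (p j * (p i)⁻¹) := by
          have h6 := hu j
          field_simp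
        refine hne i (Finset.mem_insert_of_mem hi) j (Finset.mem_insert_self _ _)
          (fun h => hj (h ▸ hi)) ?_
        rw [h8]
        exact F.mul_mem h7 (F.mul_mem hpjF (F.inv_mem hpiF))
      have h9 : ∑ i ∈ s, p i * u i = 0 := Finset.sum_eq_zero fun i hi => by
        rw [hp0 i hi, zero_mul]
      rw [h9, add_zero] at hsum
      exact mul_ne_zero hpj (hu j) hsum

/-- logarithmic derivative of a monomial -/
theorem D_zpow {u φ : K} (hu : u ≠ 0) (h : D u = φ * u) (n : ℤ) :
    D (u ^ n) = (n * φ) * u ^ n := by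
  have hnat : ∀ n : ℕ, D (u ^ n) = (n * φ) * u ^ n := by
    intro n
    induction n with
    | zero => simp
    | succ n ih => rw [pow_succ, D_mul, ih, h]; push_cast; ring
  obtain ⟨m, rfl | rfl⟩ := n.eq_nat_or_neg
  · rw [zpow_natCast, hnat]; push_cast; rfl
  · rw [zpow_neg, zpow_natCast, D_inv, hnat]
    have : u ^ m ≠ 0 := pow_ne_zero _ hu
    push_cast
    field_simp

/-- the field generated by one more element -/
def adj (F : Subfield K) (u : K) : Subfield K := Subfield.closure ((F : Set K) ∪ {u})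

theorem le_adj {u : K} : F ≤ adj F u := fun _ hx => Subfield.subset_closure (Or.inl hx)

theorem mem_adj {u : K} : u ∈ adj F u := Subfield.subset_closure (Or.inr rfl)

theorem adj_stab {u φ : K} (hst : ∀ x ∈ F, D x ∈ F) (hφ : φ ∈ F) (h : D u = φ * u) :
    ∀ x ∈ adj F u, D x ∈ adj F u := by
  apply closure_stab
  rintro x (hx | hx)
  · exact le_adj (hst x hx)
  · rw [Set.mem_singleton_iff.1 hx, h]
    exact mul_mem (le_adj hφ) mem_adj

theorem good_adj [CharZero K] {u φ : K} (hF : Good D F) (hφ : φ ∈ F) (h : D u = φ * u) :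
    Good D (acl (adj F u)) :=
  ⟨acl_stab (adj_stab hF.stab hφ h), fun x hx => le_acl (le_adj (hF.cst x hx)), by
    obtain ⟨z, hz, hz1⟩ := hF.var
    exact ⟨z, le_acl (le_adj hz), hz1⟩, fun x hx => acl_acl hx⟩

open scoped IntermediateField.algebraAdjoinAdjoin in
/-- an element algebraic over `F (u)` satisfies a polynomial relation -/
theorem exists_rel {u v : K} (hv : v ∈ acl (adj F u)) :
    ∃ (T : Finset (ℕ × ℕ)) (p : ℕ × ℕ → K), (∀ t ∈ T, p t ∈ F) ∧ (∃ t ∈ T, p t ≠ 0) ∧
      ∑ t ∈ T, p t * (u ^ t.1 * v ^ t.2) = 0 := by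
  classical
  let A := Algebra.adjoin F ({u} : Set K)
  let L := IntermediateField.adjoin F ({u} : Set K)
  have hL : adj F u ≤ L.toSubfield := by
    unfold adj
    rw [Subfield.closure_le]
    rintro x (hx | hx)
    · exact L.algebraMap_mem (⟨x, hx⟩ : F)
    · rw [Set.mem_singleton_iff.1 hx]
      exact IntermediateField.mem_adjoin_simple_self F u
  rw [mem_acl] at hv
  have hvL : IsAlgebraic L v := by
    obtain ⟨p, hp, hpv⟩ := hv
    let ι : adj F u →+* L := Subfield.inclusion hL
    refine ⟨p.map ι, (Polynomial.map_ne_zero_iff ι.injective).2 hp, ?_⟩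
    rw [← hpv]
    rw [aeval_def, aeval_def, eval₂_map]
    rfl
  have hvA : IsAlgebraic A v := (IsFractionRing.isAlgebraic_iff A L K).2 hvL
  obtain ⟨q0, hq0, hq0v⟩ := hvA
  have hmem : ∀ r : Polynomial F, aeval u r ∈ A := fun r => aeval_mem_adjoin_singleton F u
  let f : Polynomial F →ₐ[F] A := (aeval u : Polynomial F →ₐ[F] K).codRestrict A hmem
  have hf : Function.Surjective f := by
    rintro ⟨x, hx⟩
    have hx' : x ∈ (aeval u : Polynomial F →ₐ[F] K).range := by
      rw [← Algebra.adjoin_singleton_eq_range_aeval]; exact hx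
    obtain ⟨r, hr⟩ := hx'
    exact ⟨r, Subtype.ext hr⟩
  obtain ⟨q, hq⟩ := Polynomial.map_surjective f.toRingHom hf q0
  have hqne : q ≠ 0 := by
    intro h
    rw [h, Polynomial.map_zero] at hq
    exact hq0 hq.symm
  have hsum : ∑ i ∈ Finset.range (q.natDegree + 1), aeval u (q.coeff i) * v ^ i = 0 := by
    have h1 : q0.natDegree < q.natDegree + 1 := by
      rw [← hq]; exact Nat.lt_succ_of_le (Polynomial.natDegree_map_le)
    rw [Polynomial.aeval_eq_sum_range' h1] at hq0v
    rw [← hq0v]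
    refine Finset.sum_congr rfl fun i _ => ?_
    rw [← hq, Polynomial.coeff_map]
    rfl
  set M : ℕ := (Finset.range (q.natDegree + 1)).sup (fun i => (q.coeff i).natDegree) with hM
  refine ⟨Finset.range (M + 1) ×ˢ Finset.range (q.natDegree + 1),
    fun t => ((q.coeff t.2).coeff t.1 : F), fun t _ => ((q.coeff t.2).coeff t.1 : F).2, ?_, ?_⟩
  · obtain ⟨i, hi⟩ : ∃ i, q.coeff i ≠ 0 := by
      by_contra hcon
      push Not at hcon
      exact hqne (Polynomial.ext (by simpa using hcon))
    obtain ⟨j, hj⟩ : ∃ j, (q.coeff i).coeff j ≠ 0 := by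
      by_contra hcon
      push Not at hcon
      exact hi (Polynomial.ext (by simpa using hcon))
    have hi' : i < q.natDegree + 1 := Nat.lt_succ_of_le (Polynomial.le_natDegree_of_ne_zero hi)
    have hj' : j < M + 1 := by
      apply Nat.lt_succ_of_le
      refine (Polynomial.le_natDegree_of_ne_zero hj).trans ?_
      exact Finset.le_sup (f := fun i => (q.coeff i).natDegree) (Finset.mem_range.2 hi')
    refine ⟨(j, i), Finset.mem_product.2 ⟨Finset.mem_range.2 hj', Finset.mem_range.2 hi'⟩, ?_⟩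
    simpa using hj
  · rw [Finset.sum_product_right, ← hsum]
    refine Finset.sum_congr rfl fun i hi => ?_
    have h1 : (q.coeff i).natDegree < M + 1 := by
      apply Nat.lt_succ_of_le
      exact Finset.le_sup (f := fun i => (q.coeff i).natDegree) hi
    rw [Polynomial.aeval_eq_sum_range' h1, Finset.sum_mul]
    refine Finset.sum_congr rfl fun j _ => ?_
    rw [Algebra.smul_def]
    change _ = ((q.coeff i).coeff j : K) * u ^ j * v ^ i
    ring

/-- an exponential element algebraic over `F (u)` is a root of a monomial -/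
theorem unit_acl {u v φ ψ : K} (hst : ∀ x ∈ F, D x ∈ F) (hcst : ∀ x, D x = 0 → x ∈ F)
    (hu : u ≠ 0) (hφ : φ ∈ F) (hDu : D u = φ * u) (hv : v ≠ 0) (hψ : ψ ∈ F)
    (hDv : D v = ψ * v) (hm : ∀ m : ℤ, m ≠ 0 → u ^ m ∉ F) (hva : v ∈ acl (adj F u)) :
    ∃ (k : ℕ) (l : ℤ), 0 < k ∧ v ^ k * u ^ l ∈ F := by
  classical
  obtain ⟨T, p, hpF, ⟨t0, ht0, hpt0⟩, hsum⟩ := exists_rel hva
  have hex : ∃ t ∈ T, ∃ t' ∈ T, t ≠ t' ∧ (u ^ t.1 * v ^ t.2) * (u ^ t'.1 * v ^ t'.2)⁻¹ ∈ F := by
    by_contra hcon
    push Not at hcon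
    have := units_indep (D := D) (F := F) hst hcst (u := fun t : ℕ × ℕ => u ^ t.1 * v ^ t.2)
      (φ := fun t => ((t.1 : ℤ) * φ + (t.2 : ℤ) * ψ : K))
      (fun t => mul_ne_zero (pow_ne_zero _ hu) (pow_ne_zero _ hv))
      (fun t => F.add_mem (F.mul_mem (intCast_mem F _) hφ) (F.mul_mem (intCast_mem F _) hψ))
      (fun t => by
        have h1 := D_zpow hu hDu (t.1 : ℤ)
        have h2 := D_zpow hv hDv (t.2 : ℤ)
        rw [zpow_natCast] at h1 h2
        rw [D_mul, h1, h2]; ring) T (fun i hi j hj hij => hcon i hi j hj hij) p hpF hsum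
    exact hpt0 (this t0 ht0)
  obtain ⟨t, ht, t', ht', hne, hF⟩ := hex
  have hF2 : v ^ ((t.2 : ℤ) - t'.2) * u ^ ((t.1 : ℤ) - t'.1) ∈ F := by
    have : (u ^ t.1 * v ^ t.2) * (u ^ t'.1 * v ^ t'.2)⁻¹ =
        v ^ ((t.2 : ℤ) - t'.2) * u ^ ((t.1 : ℤ) - t'.1) := by
      rw [zpow_sub₀ hv, zpow_sub₀ hu, zpow_natCast, zpow_natCast, zpow_natCast, zpow_natCast]
      field_simp
    rwa [this] at hF
  set k : ℤ := (t.2 : ℤ) - t'.2 with hk
  set l : ℤ := (t.1 : ℤ) - t'.1 with hl
  have hk0 : k ≠ 0 := by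
    intro h0
    rw [h0, zpow_zero, one_mul] at hF2
    by_cases hl0 : l = 0
    · apply hne
      apply Prod.ext <;> omega
    · exact hm l hl0 hF2
  rcases lt_or_gt_of_ne hk0 with h | h
  · refine ⟨k.natAbs, -l, by omega, ?_⟩
    have h3 := F.inv_mem hF2
    have h4 : (v ^ k * u ^ l)⁻¹ = v ^ k.natAbs * u ^ (-l) := by
      rw [mul_inv, ← zpow_neg, ← zpow_neg, ← zpow_natCast v k.natAbs]
      congr 2
      omega
    rwa [h4] at h3
  · refine ⟨k.natAbs, l, by omega, ?_⟩
    have h4 : v ^ k = v ^ k.natAbs := by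
      rw [← zpow_natCast v k.natAbs]
      congr 1
      omega
    rwa [h4] at hF2

end Pool.Agent.K4H53.BC
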