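import Pool.Agent.K4H53.BC.Sqrt
import Pool.Agent.K4H53.BC.Units

/-!
Embedding of an algebraic extension of `F (Z)` into the algebraic closure of a field of Laurent
series.
-/

set_option autoImplicit false

open HahnSeries Polynomial

namespace Pool.Agent.K4H53.BC

section gen

variable {K : Type*} [Field K] {D : Derivation ℤ K K} {F : Subfield K} {Z φ : K}

theorem transc (hst : ∀ x ∈ F, D x ∈ F) (hcst : ∀ x, D x = 0 → x ∈ F)
    (hZ0 : Z ≠ 0) (hφ : φ ∈ F) (hDZ : D Z = φ * Z) (hZ : ∀ m : ℤ, m ≠ 0 → Z ^ m ∉ F) :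
    Function.Injective (aeval Z : F[X] →ₐ[F] K) := by
  classical
  rw [injective_iff_map_eq_zero]
  intro p hp
  have h1 := units_indep (D := D) (F := F) hst hcst (u := fun n : ℕ => Z ^ n)
    (φ := fun n : ℕ => ((n : ℤ) : K) * φ) (fun n => pow_ne_zero _ hZ0)
    (fun n => F.mul_mem (intCast_mem F _) hφ)
    (fun n => by
      have h1 := D_zpow hZ0 hDZ (n : ℤ)
      rwa [zpow_natCast] at h1)
    (Finset.range (p.natDegree + 1)) (fun i _ j _ hij => by
      rw [← zpow_natCast, ← zpow_natCast, ← zpow_neg, ← zpow_add₀ hZ0]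
      exact hZ _ (by omega)) (fun n => (p.coeff n : K)) (fun n _ => (p.coeff n).2) (by
      rw [aeval_eq_sum_range] at hp
      exact hp)
  ext n
  by_cases hn : n < p.natDegree + 1
  · have := h1 n (Finset.mem_range.2 hn)
    simpa using this
  · rw [coeff_eq_zero_of_natDegree_lt (by omega)]
    simp

theorem exists_g {Λ : Type*} [Field Λ] (hinj : Function.Injective (aeval Z : F[X] →ₐ[F] K))
    (f2 : F[X] →+* Λ) (hf2 : Function.Injective f2) :
    ∃ g : IntermediateField.adjoin F ({Z} : Set K) →+* Λ,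
      ∀ (p : F[X]) (hp : aeval Z p ∈ IntermediateField.adjoin F ({Z} : Set K)),
        g ⟨aeval Z p, hp⟩ = f2 p := by
  let R1 := IntermediateField.adjoin F ({Z} : Set K)
  let z : R1 := IntermediateField.AdjoinSimple.gen F Z
  let iAlg : Algebra F[X] R1 := (aeval z : F[X] →ₐ[F] R1).toRingHom.toAlgebra
  have hval : ∀ p : F[X], ((algebraMap F[X] R1 p : R1) : K) = aeval Z p := by
    intro p
    change ((aeval z p : R1) : K) = _
    have := aeval_algHom_apply R1.val z p
    exact this.symm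
  have hfaith : FaithfulSMul F[X] R1 := by
    rw [faithfulSMul_iff_algebraMap_injective]
    intro p q hpq
    apply hinj
    rw [← hval, ← hval, hpq]
  have hfrac : IsFractionRing F[X] R1 := by
    apply IsFractionRing.of_field
    rintro ⟨y, hy⟩
    obtain ⟨r, s, hrs⟩ := (IntermediateField.mem_adjoin_simple_iff F y).1 hy
    refine ⟨r, s, Subtype.ext ?_⟩
    change y = _
    rw [hrs, ← hval, ← hval]
    rfl
  refine ⟨IsFractionRing.lift hf2, fun p hp => ?_⟩
  have h1 : (⟨aeval Z p, hp⟩ : R1) = algebraMap F[X] R1 p := Subtype.ext (hval p).symm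
  rw [h1, IsFractionRing.lift_algebraMap]

theorem adj_le {L : IntermediateField F K} (hZ : Z ∈ L) : adj F Z ≤ L.toSubfield := by
  unfold adj
  rw [Subfield.closure_le]
  rintro x (hx | hx)
  · exact L.algebraMap_mem (⟨x, hx⟩ : F)
  · rw [Set.mem_singleton_iff.1 hx]
    exact hZ

end gen

section main

universe u

variable {K : Type u} [Field K] [CharZero K] {D : Derivation ℤ K K} {F : Subfield K} {Z φ : K}

/-- the map from polynomials to Laurent series in `t ^ 2` -/
noncomputable def pmap (F : Type*) [Field F] : F[X] →+* LaurentSeries F :=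
  dbl.comp ((HahnSeries.ofPowerSeries ℤ F).comp (Polynomial.coeToPowerSeries.ringHom))

theorem pmap_inj (F : Type*) [Field F] : Function.Injective (pmap F) := by
  unfold pmap
  rw [RingHom.coe_comp, RingHom.coe_comp]
  exact (RingHom.injective _).comp (HahnSeries.ofPowerSeries_injective.comp
    (Polynomial.coe_injective F))

theorem pmap_C (F : Type*) [Field F] (s : F) : pmap F (C s) = HahnSeries.C s := by
  change dbl (HahnSeries.ofPowerSeries ℤ F ((C s : F[X]) : PowerSeries F)) = _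
  rw [Polynomial.coe_C, HahnSeries.ofPowerSeries_C]
  exact (dbl_single 0 s).trans (by rw [mul_zero]; rfl)

theorem pmap_X (F : Type*) [Field F] : pmap F X = single 2 1 := by
  change dbl (HahnSeries.ofPowerSeries ℤ F ((X : F[X]) : PowerSeries F)) = _
  rw [Polynomial.coe_X, HahnSeries.ofPowerSeries_X, dbl_single]
  rfl

theorem exists_psi (hF : Good D F) (hZ0 : Z ≠ 0) (hφ : φ ∈ F) (hφ2 : φ * 2⁻¹ ∈ F)
    (hDZ : D Z = φ * Z)
    (hZ : ∀ m : ℤ, m ≠ 0 → Z ^ m ∉ F) (hst : ∀ x ∈ acl (adj F Z), D x ∈ acl (adj F Z))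
    {Λ : Type u} [Field Λ] [CharZero Λ] [IsAlgClosed Λ] (f : LaurentSeries F →+* Λ)
    (DΛ : Derivation ℤ Λ Λ)
    (hDΛ : ∀ x : LaurentSeries F, DΛ (f x) = f (dH (resD D F hF.stab) ⟨φ * 2⁻¹, hφ2⟩ x)) :
    ∃ (ψ : acl (adj F Z) →+* Λ),
      (∀ x, ψ (resD D (acl (adj F Z)) hst x) = DΛ (ψ x)) ∧
      (∀ (s : F), ψ ⟨s, le_acl (le_adj s.2)⟩ = f (HahnSeries.C s)) ∧
      ψ ⟨Z, le_acl mem_adj⟩ = f (single 2 1) ∧
      (∀ y (hy : y ∈ adj F Z), ∃ y0 : LaurentSeries F, ψ ⟨y, le_acl hy⟩ = f (dbl y0)) := by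
  let H := LaurentSeries F
  let δ := resD D F hF.stab
  let θ : F := ⟨φ * 2⁻¹, hφ2⟩
  have hinj := transc hF.stab hF.cst hZ0 hφ hDZ hZ
  let f2 : F[X] →+* Λ := f.comp (pmap F)
  have hf2 : Function.Injective f2 := f.injective.comp (pmap_inj F)
  obtain ⟨g', hg'⟩ := exists_g hinj f2 hf2
  have hL : adj F Z ≤ (IntermediateField.adjoin F ({Z} : Set K)).toSubfield :=
    adj_le (IntermediateField.mem_adjoin_simple_self F Z)
  let G := adj F Z
  let ι : G →+* IntermediateField.adjoin F ({Z} : Set K) := Subfield.inclusion hL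
  let g : G →+* Λ := g'.comp ι
  have hgF : ∀ s : F, g ⟨s, le_adj s.2⟩ = f (HahnSeries.C s) := by
    intro s
    have h1 : aeval Z (C s : F[X]) = (s : K) := by rw [aeval_C]; rfl
    have h2 := hg' (C s) (by rw [h1]; exact IntermediateField.algebraMap_mem _ s)
    have h3 : f2 (C s) = f (HahnSeries.C s) := by
      change f (pmap F (C s)) = _
      rw [pmap_C]
    rw [← h3, ← h2]
    change g' _ = g' _
    congr 1
    exact Subtype.ext h1.symm
  have hgZ : g ⟨Z, mem_adj⟩ = f (single 2 1) := by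
    have h1 : aeval Z (X : F[X]) = Z := aeval_X Z
    have h2 := hg' X (by rw [h1]; exact IntermediateField.mem_adjoin_simple_self F Z)
    have h3 : f2 X = f (single 2 1) := by
      change f (pmap F X) = _
      rw [pmap_X]
    rw [← h3, ← h2]
    change g' _ = g' _
    congr 1
    exact Subtype.ext h1.symm
  have hgdbl : ∀ y : G, ∃ y0 : H, g y = f (dbl y0) := by
    rintro ⟨y, hy⟩
    have hy' := hL hy
    obtain ⟨r, s, hrs⟩ := (IntermediateField.mem_adjoin_simple_iff F y).1 hy'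
    have hmem : ∀ p : F[X], aeval Z p ∈ IntermediateField.adjoin F ({Z} : Set K) := fun p =>
      (IntermediateField.mem_adjoin_simple_iff F _).2 ⟨p, 1, by simp⟩
    refine ⟨HahnSeries.ofPowerSeries ℤ F (r : PowerSeries F) *
      (HahnSeries.ofPowerSeries ℤ F (s : PowerSeries F))⁻¹, ?_⟩
    have h1 : g ⟨y, hy⟩ = f2 r * (f2 s)⁻¹ := by
      rw [← hg' r (hmem r), ← hg' s (hmem s), ← map_inv₀, ← map_mul]
      change g' _ = g' _
      congr 1
      have h0 : y = aeval Z r * (aeval Z s)⁻¹ := by rw [hrs, div_eq_mul_inv]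
      exact Subtype.ext h0
    rw [h1, map_mul, map_mul, map_inv₀, map_inv₀]
    rfl
  -- compatibility on `G`
  have hGst : ∀ x ∈ G, D x ∈ G := adj_stab hF.stab hφ hDZ
  have hcomp : ∀ (x : K) (hx : x ∈ G), g ⟨D x, hGst x hx⟩ = DΛ (g ⟨x, hx⟩) := by
    intro x hx
    have hx' : x ∈ Subfield.closure ((F : Set K) ∪ {Z}) := hx
    induction hx' using Subfield.closure_induction with
    | mem x hx1 =>
      rcases hx1 with hx1 | hx1
      · have e1 := hgF ⟨x, hx1⟩
        have e2 := hgF (δ ⟨x, hx1⟩)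
        rw [e1, hDΛ]
        have e3 : dH δ θ (HahnSeries.C (⟨x, hx1⟩ : F)) = HahnSeries.C (δ ⟨x, hx1⟩) := by
          have := dH_single δ θ 0 (⟨x, hx1⟩ : F)
          simpa using this
        rw [e3]
        exact e2
      · have hxZ : x = Z := Set.mem_singleton_iff.1 hx1
        subst hxZ
        rw [hgZ, hDΛ, dH_single]
        have e1 : (⟨D x, hGst x hx⟩ : G) = ⟨φ, le_adj hφ⟩ * ⟨x, mem_adj⟩ := Subtype.ext hDZ
        rw [e1, map_mul, hgZ, hgF ⟨φ, hφ⟩, ← map_mul]
        congr 1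
        rw [HahnSeries.C_mul_eq_smul]
        ext i
        rw [HahnSeries.coeff_smul, coeff_single, coeff_single]
        by_cases hi : i = 2
        · rw [if_pos hi, if_pos hi]
          have e2 : δ 1 = 0 := δ.map_one_eq_zero
          rw [e2, zero_add, mul_one]
          change φ * 1 = ((((2 : ℤ) : F) * θ : F) : K)
          rw [mul_one]
          change φ = (((2 : ℤ) : F) : K) * (φ * 2⁻¹)
          push_cast
          field_simp
          rfl
        · rw [if_neg hi, if_neg hi, smul_zero]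
    | one =>
      have e1 : (⟨D 1, hGst 1 hx⟩ : G) = 0 := Subtype.ext D.map_one_eq_zero
      have e2 : (⟨1, hx⟩ : G) = 1 := rfl
      rw [e1, e2, map_zero, map_one, DΛ.map_one_eq_zero]
    | add x y hx1 hy1 h1 h2 =>
      have e1 : (⟨D (x + y), hGst _ hx⟩ : G) = ⟨D x, hGst x hx1⟩ + ⟨D y, hGst y hy1⟩ :=
        Subtype.ext (map_add D x y)
      have e2 : (⟨x + y, hx⟩ : G) = ⟨x, hx1⟩ + ⟨y, hy1⟩ := rfl
      rw [e1, e2, map_add, map_add, map_add, h1 hx1, h2 hy1]
    | neg x hx1 h1 =>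
      have e1 : (⟨D (-x), hGst _ hx⟩ : G) = -⟨D x, hGst x hx1⟩ := Subtype.ext (map_neg D x)
      have e2 : (⟨-x, hx⟩ : G) = -⟨x, hx1⟩ := rfl
      rw [e1, e2, map_neg, map_neg, map_neg, h1 hx1]
    | inv x hx1 h1 =>
      have e1 : (⟨D x⁻¹, hGst _ hx⟩ : G) = -((⟨x, hx1⟩ : G)⁻¹ ^ 2 * ⟨D x, hGst x hx1⟩) :=
        Subtype.ext (D_inv D x)
      have e2 : (⟨x⁻¹, hx⟩ : G) = (⟨x, hx1⟩ : G)⁻¹ := rfl
      rw [e1, e2, map_inv₀, D_inv, map_neg, map_mul, map_pow, map_inv₀, h1 hx1]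
    | mul x y hx1 hy1 h1 h2 =>
      have e1 : (⟨D (x * y), hGst _ hx⟩ : G) =
          ⟨D x, hGst x hx1⟩ * ⟨y, hy1⟩ + ⟨x, hx1⟩ * ⟨D y, hGst y hy1⟩ :=
        Subtype.ext (D_mul D x y)
      have e2 : (⟨x * y, hx⟩ : G) = ⟨x, hx1⟩ * ⟨y, hy1⟩ := rfl
      rw [e1, e2, map_mul, D_mul, map_add, map_mul, map_mul, h1 hx1, h2 hy1]
  -- the extension
  let iG : Algebra G Λ := g.toAlgebra
  let L := algebraicClosure G K
  let ψ : L →ₐ[G] Λ := IsAlgClosed.lift
  let dG : Differential G := ⟨resD D G hGst⟩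
  have hstL : ∀ x ∈ acl G, D x ∈ acl G := acl_stab hGst
  let dL : Differential L := ⟨resD D (acl G) hst⟩
  let dΛ : Differential Λ := ⟨DΛ⟩
  have i1 : DifferentialAlgebra G L := ⟨fun x => Subtype.ext rfl⟩
  have i2 : DifferentialAlgebra G Λ := ⟨fun x => (hcomp x x.2).symm⟩
  have hsep : Algebra.IsSeparable G L := inferInstance
  have hψ := Differential.algHom_deriv' (A := G) (R := L) (R' := Λ) ψ ψ.toRingHom.injective
  refine ⟨ψ.toRingHom, fun x => hψ x, ?_, ?_, ?_⟩
  · intro s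
    exact (ψ.commutes ⟨s, le_adj s.2⟩).trans (hgF s)
  · exact (ψ.commutes ⟨Z, mem_adj⟩).trans hgZ
  · intro y hy
    obtain ⟨y0, hy0⟩ := hgdbl ⟨y, hy⟩
    exact ⟨y0, (ψ.commutes ⟨y, hy⟩).trans hy0⟩

theorem exists_ac (H : Type u) [Field H] [CharZero H] (d : Derivation ℤ H H) :
    ∃ (Λ : Type u) (_ : Field Λ) (_ : CharZero Λ) (_ : IsAlgClosed Λ) (f : H →+* Λ)
      (DΛ : Derivation ℤ Λ Λ), ∀ x, DΛ (f x) = f (d x) := by
  have het : Algebra.FormallyEtale H (AlgebraicClosure H) :=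
    Algebra.FormallyEtale.of_isSeparable H _
  obtain ⟨DΛ, hDΛ⟩ := exists_ext (A := H) (B := AlgebraicClosure H) d
  exact ⟨AlgebraicClosure H, inferInstance, inferInstance, inferInstance,
    algebraMap H (AlgebraicClosure H), DΛ, hDΛ⟩

end main

end Pool.Agent.K4H53.BC
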