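import Pool.Agent.K4H53.BC.Embed
import Pool.Agent.TH242.MK.Borel

/-!
The ring of entire functions and an algebraically closed differential field containing it.
-/

set_option autoImplicit false

open Complex

namespace Pool.Agent.K4H53.BC

open Pool.Agent.TH242.MK

/-- the ring of entire functions -/
def Ent : Subalgebra ℂ (ℂ → ℂ) where
  carrier := {f | Differentiable ℂ f}
  mul_mem' := fun {f _} hf hg => Differentiable.mul (show Differentiable ℂ f from hf) hg
  add_mem' := fun {f _} hf hg => Differentiable.add (show Differentiable ℂ f from hf) hg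
  algebraMap_mem' := fun c => differentiable_const c

theorem Ent.diff (f : Ent) : Differentiable ℂ (f : ℂ → ℂ) := f.2

instance : NoZeroDivisors Ent := ⟨fun {f g} h => by
  have h1 : ∀ z, (f : ℂ → ℂ) z * (g : ℂ → ℂ) z = 0 := fun z => congrFun (congrArg Subtype.val h) z
  rcases mul_zero_or (Ent.diff f) (Ent.diff g) h1 with h2 | h2
  · left; exact Subtype.ext (funext h2)
  · right; exact Subtype.ext (funext h2)⟩

instance : IsDomain Ent := NoZeroDivisors.to_isDomain _

/-- constructor for derivations of a commutative ring -/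
def mkDerR {A : Type*} [CommRing A] (f : A → A) (hadd : ∀ x y, f (x + y) = f x + f y)
    (hmul : ∀ x y, f (x * y) = x * f y + y * f x) : Derivation ℤ A A :=
  Derivation.mk' (AddMonoidHom.toIntLinearMap
    { toFun := f
      map_zero' := by
        have := hadd 0 0
        rw [add_zero] at this
        exact left_eq_add.1 this
      map_add' := hadd })
    (fun x y => by
      change f (x * y) = x • f y + y • f x
      rw [hmul]; rfl)

/-- differentiation of entire functions -/
noncomputable def dEnt := mkDerR (A := Ent)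
  (fun f => ⟨deriv (f : ℂ → ℂ), fun z => (((Ent.diff f).analyticAt z).deriv).differentiableAt⟩)
  (fun f g => Subtype.ext (funext fun z => deriv_add ((Ent.diff f) z) ((Ent.diff g) z)))
  (fun f g => Subtype.ext (funext fun z => by
    change deriv ((f : ℂ → ℂ) * (g : ℂ → ℂ)) z =
      (f : ℂ → ℂ) z * deriv (g : ℂ → ℂ) z + (g : ℂ → ℂ) z * deriv (f : ℂ → ℂ) z
    rw [deriv_mul ((Ent.diff f) z) ((Ent.diff g) z)]; ring))

theorem dEnt_coe (f : Ent) : ((dEnt f : Ent) : ℂ → ℂ) = deriv (f : ℂ → ℂ) := rfl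

/-- constants of the fraction field -/
theorem const_frac {Ω : Type*} [Field Ω] [Algebra Ent Ω] [IsFractionRing Ent Ω]
    {D : Derivation ℤ Ω Ω} (hD : ∀ f : Ent, D (algebraMap Ent Ω f) = algebraMap Ent Ω (dEnt f))
    {x : Ω} (hx : D x = 0) : ∃ c : ℂ, x = algebraMap Ent Ω (algebraMap ℂ Ent c) := by
  obtain ⟨f, g, hg, rfl⟩ := IsFractionRing.div_surjective (A := Ent) x
  have hinj : Function.Injective (algebraMap Ent Ω) := IsFractionRing.injective Ent Ω
  have hg0 : g ≠ 0 := nonZeroDivisors.ne_zero hg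
  have hg1 : algebraMap Ent Ω g ≠ 0 := (map_ne_zero_iff _ hinj).2 hg0
  have h1 : dEnt f * g = f * dEnt g := by
    apply hinj
    rw [div_eq_mul_inv, D_mul, D_inv, hD, hD] at hx
    rw [map_mul, map_mul]
    field_simp at hx
    linear_combination hx
  have h2 : ∃ z, (g : ℂ → ℂ) z ≠ 0 := by
    by_contra hcon
    push Not at hcon
    exact hg0 (Subtype.ext (funext hcon))
  obtain ⟨z0, hz0⟩ := h2
  obtain ⟨c, hc⟩ := prop_of_wr (Ent.diff f) (Ent.diff g) (fun z => congrFun (congrArg Subtype.val h1) z) hz0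
  refine ⟨c, ?_⟩
  have h3 : f = algebraMap ℂ Ent c * g := Subtype.ext (funext hc)
  rw [h3, map_mul, mul_div_assoc, div_self hg1, mul_one]

/-- constants in an algebraic extension -/
theorem const_alg {k Ω0 Ω : Type*} [Field k] [IsAlgClosed k] [Field Ω0] [Field Ω] [CharZero Ω0]
    [Algebra k Ω0] [Algebra Ω0 Ω] [Algebra k Ω] [IsScalarTower k Ω0 Ω]
    [Algebra.IsAlgebraic Ω0 Ω] {D0 : Derivation ℤ Ω0 Ω0} {D : Derivation ℤ Ω Ω}
    (hD : ∀ x, D (algebraMap Ω0 Ω x) = algebraMap Ω0 Ω (D0 x))
    (hc : ∀ x, D0 x = 0 → ∃ c : k, x = algebraMap k Ω0 c) {x : Ω} (hx : D x = 0) :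
    ∃ c : k, x = algebraMap k Ω c := by
  let i0 : Differential Ω0 := ⟨D0⟩
  let i1 : Differential Ω := ⟨D⟩
  have i2 : DifferentialAlgebra Ω0 Ω := ⟨hD⟩
  have hint : IsIntegral Ω0 x := (Algebra.IsAlgebraic.isAlgebraic x).isIntegral
  set P := minpoly Ω0 x with hP
  have hmon : P.Monic := minpoly.monic hint
  have h1 := Differential.deriv_aeval_eq x P
  have h0 : D 0 = Polynomial.aeval x (Differential.mapCoeffs P) +
      Polynomial.aeval x (Polynomial.derivative P) * D x := by
    rw [hP, minpoly.aeval] at h1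
    exact h1
  rw [map_zero, hx, mul_zero, add_zero] at h0
  have hz : Differential.mapCoeffs P = 0 := by
    by_contra hne
    have h2 := minpoly.degree_le_of_ne_zero Ω0 x hne h0.symm
    have h3 : (Differential.mapCoeffs P).degree < P.degree := by
      rw [Polynomial.degree_eq_natDegree hmon.ne_zero, Polynomial.degree_lt_iff_coeff_zero]
      intro m hm
      rw [Differential.coeff_mapCoeffs]
      rcases hm.lt_or_eq with h | h
      · rw [Polynomial.coeff_eq_zero_of_natDegree_lt h]
        exact map_zero D0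
      · rw [← h, hmon.coeff_natDegree]
        exact D0.map_one_eq_zero
    exact absurd h2 (not_le.2 h3)
  have hco : ∀ n, ∃ c : k, algebraMap k Ω0 c = P.coeff n := by
    intro n
    have h4 : D0 (P.coeff n) = 0 := by
      have := congrArg (fun q => Polynomial.coeff q n) hz
      simp only [Differential.coeff_mapCoeffs, Polynomial.coeff_zero] at this
      exact this
    obtain ⟨c, hc⟩ := hc _ h4
    exact ⟨c, hc.symm⟩
  have hlift : P ∈ Polynomial.lifts (algebraMap k Ω0) := by
    rw [Polynomial.lifts_iff_coeff_lifts]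
    intro n
    obtain ⟨c, hc⟩ := hco n
    exact ⟨c, hc⟩
  obtain ⟨Q, hQ, -, hQm⟩ := Polynomial.lifts_and_natDegree_eq_and_monic hlift hmon
  have hQx : Polynomial.aeval x Q = 0 := by
    have : Polynomial.aeval x P = 0 := minpoly.aeval Ω0 x
    rw [← hQ, Polynomial.aeval_map_algebraMap] at this
    exact this
  have hintk : IsIntegral k x := ⟨Q, hQm, hQx⟩
  have hdeg : (minpoly k x).degree = 1 :=
    IsAlgClosed.degree_eq_one_of_irreducible k (minpoly.irreducible hintk)
  obtain ⟨c, hc⟩ := minpoly.mem_range_of_degree_eq_one k x hdeg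
  exact ⟨c, hc.symm⟩

/-- the big field -/
theorem exists_big : ∃ (Ω : Type) (_ : Field Ω) (_ : CharZero Ω) (_ : IsAlgClosed Ω)
    (ι : Ent →+* Ω) (D : Derivation ℤ Ω Ω), Function.Injective ι ∧
    (∀ f, D (ι f) = ι (dEnt f)) ∧ (∀ x, D x = 0 → ∃ c : ℂ, x = ι (algebraMap ℂ Ent c)) := by
  let Ω0 := FractionRing Ent
  have hch : CharZero Ω0 := charZero_of_injective_algebraMap (algebraMap ℂ Ω0).injective
  have het : Algebra.FormallyEtale Ent Ω0 :=
    Algebra.FormallyEtale.of_isLocalization (nonZeroDivisors Ent)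
  obtain ⟨D0, hD0⟩ := exists_ext (A := Ent) (B := Ω0) dEnt
  let Ω := AlgebraicClosure Ω0
  have het2 : Algebra.FormallyEtale Ω0 Ω := Algebra.FormallyEtale.of_isSeparable Ω0 Ω
  obtain ⟨D, hD⟩ := exists_ext (A := Ω0) (B := Ω) D0
  refine ⟨Ω, inferInstance, inferInstance, inferInstance,
    (algebraMap Ω0 Ω).comp (algebraMap Ent Ω0), D, ?_, ?_, ?_⟩
  · exact (algebraMap Ω0 Ω).injective.comp (IsFractionRing.injective Ent Ω0)
  · intro f
    change D (algebraMap Ω0 Ω (algebraMap Ent Ω0 f)) = _
    rw [hD, hD0]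
    rfl
  · intro x hx
    obtain ⟨c, hc⟩ := const_alg (k := ℂ) (Ω0 := Ω0) (Ω := Ω) (D0 := D0) (D := D) hD
      (fun y hy => by
        obtain ⟨c, hc⟩ := const_frac hD0 hy
        exact ⟨c, by rw [hc]; rfl⟩) hx
    refine ⟨c, ?_⟩
    rw [hc, IsScalarTower.algebraMap_apply ℂ Ω0 Ω]
    rfl

end Pool.Agent.K4H53.BC
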