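import Pool.Agent.K4H53.BC.Main

/-!
The final form of the functions.
-/

set_option autoImplicit false

open Complex

namespace Pool.Agent.K4H53.BC

open Pool.Agent.TH242.MK

theorem ode {y : ℂ → ℂ} (hy : Differentiable ℂ y) {μ : ℂ} (h : ∀ z, deriv y z = μ * y z) :
    ∀ z, y z = y 0 * cexp (μ * z) := by
  have hD : ∀ z, HasDerivAt (fun z => y z * cexp (-(μ * z))) 0 z := by
    intro z
    have h1 : HasDerivAt (fun z : ℂ => -(μ * z)) (-μ) z := by
      simpa using (hasDerivAt_id z).const_mul (-μ)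
    refine (((hy z).hasDerivAt).mul h1.cexp).congr_deriv ?_
    rw [h z]; ring
  intro z
  have h2 := is_const_of_deriv_eq_zero (fun z => (hD z).differentiableAt)
    (fun z => (hD z).deriv) z 0
  simp only [mul_zero, neg_zero, Complex.exp_zero, mul_one] at h2
  rw [← h2, mul_assoc, ← Complex.exp_add, neg_add_cancel, Complex.exp_zero, mul_one]

/-- an entire function whose differential in the big field is a constant multiple -/
theorem PD.concl {k : ℕ} {f g : ℂ → ℂ} {h γ : ℕ → ℂ → ℂ} (p : PD k f g h γ) (hk : 22 ≤ k) :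
    (∃ a b c d : ℂ, ∀ z : ℂ, f z = cexp (a * z + b) ∧ g z = cexp (c * z + d)) ∨
    (∃ a b A B : ℂ, b ≠ 0 ∧ ∀ z : ℂ, f z = A * (cexp (a * z) - b) ∧
      g z = B * (cexp (-(a * z)) - b⁻¹)) := by
  obtain ⟨Ω, _, _, _, I, D, hI, hD, hc⟩ := exists_big
  have halt := p.alt hk hI hD hc
  have hDa : D (qa I D p.hd 0) = 0 := by rcases halt with h | h <;> exact h.1
  obtain ⟨μ, hμ⟩ := hc _ hDa
  have hH := p.Hne hI 0
  have hμ0 : μ ≠ 0 := by
    intro h0
    apply p.a0 (D := D) hI hD (Nat.zero_le k)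
    rw [hμ, h0, map_zero, map_zero]
  have e1 : dEnt ⟨h 0, p.hd 0⟩ = algebraMap ℂ Ent μ * ⟨h 0, p.hd 0⟩ := by
    apply hI
    rw [map_mul, ← hμ, ← hD]
    unfold qa
    field_simp
  have hh0 : ∀ z, deriv (h 0) z = μ * h 0 z := fun z => congrFun (congrArg Subtype.val e1) z
  have hh0' := ode (p.hd 0) hh0
  have hfg : ∀ z, f z = h 0 z * g z := by
    intro z
    have := p.hfg 0 (Nat.zero_le k) z
    rwa [iteratedDeriv_zero, iteratedDeriv_zero] at this
  have hrel : ∀ z, (h 1 z - h 0 z) * deriv g z = deriv (h 0) z * g z := by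
    intro z
    have h1 := congrFun (congrArg Subtype.val (p.rel (n := 0) (by omega))) z
    have h2 : (h 1 z - h 0 z) * iteratedDeriv 1 g z = deriv (h 0) z * iteratedDeriv 0 g z := h1
    rwa [iteratedDeriv_one, iteratedDeriv_zero] at h2
  have hge : ∀ z, cexp (γ 0 z) * h 0 z = h 1 z := fun z => p.ge 0 z
  have hrel2 : ∀ z, (cexp (γ 0 z) - 1) * deriv g z = μ * g z := by
    intro z
    have h1 := hrel z
    rw [← hge z, hh0 z] at h1
    apply mul_left_cancel₀ (p.h0 0 z)
    linear_combination h1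
  have hgne : ∃ z, g z ≠ 0 := by
    obtain ⟨z, hz⟩ := p.hgn 0 (Nat.zero_le k)
    exact ⟨z, by rwa [iteratedDeriv_zero] at hz⟩
  have hqE := p.qE_eq (I := I) hI 0
  have hexpd : ∀ z, deriv (fun z => cexp (γ 0 z)) z = deriv (γ 0) z * cexp (γ 0 z) := by
    intro z
    rw [((p.gd 0 z).hasDerivAt.cexp).deriv, mul_comm]
  rcases halt with ⟨_, hE⟩ | ⟨_, hE⟩
  · left
    obtain ⟨ε, hε⟩ := hc _ hE
    have hε2 : ∀ z, cexp (γ 0 z) = ε := by
      intro z
      rw [hqE] at hε
      exact congrFun (congrArg Subtype.val (hI hε)) z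
    have hε1 : ε - 1 ≠ 0 := by
      intro h0
      obtain ⟨z, hz⟩ := hgne
      have := hrel2 z
      rw [hε2 z, h0, zero_mul] at this
      exact mul_ne_zero hμ0 hz this.symm
    have hg : ∀ z, deriv g z = (μ / (ε - 1)) * g z := by
      intro z
      have := hrel2 z
      rw [hε2 z] at this
      field_simp
      linear_combination this
    have hg' := ode p.hg hg
    have hg0 : g 0 ≠ 0 := by
      intro h0
      obtain ⟨z, hz⟩ := hgne
      apply hz
      rw [hg' z, h0, zero_mul]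
    refine ⟨μ + μ / (ε - 1), Complex.log (h 0 0 * g 0), μ / (ε - 1), Complex.log (g 0),
      fun z => ⟨?_, ?_⟩⟩
    · rw [hfg z, hh0' z, hg' z, Complex.exp_add, Complex.exp_log (mul_ne_zero (p.h0 0 0) hg0),
        add_mul, Complex.exp_add]
      ring
    · rw [Complex.exp_add, Complex.exp_log hg0]
      rw [hg' z]; ring
  · right
    have e2 : dEnt (eexp (p.gd 0)) = algebraMap ℂ Ent μ * eexp (p.gd 0) := by
      apply hI
      rw [map_mul, ← hμ, ← hD, ← hqE, hE]
    have he0 : ∀ z, deriv (fun z => cexp (γ 0 z)) z = μ * cexp (γ 0 z) := fun z =>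
      congrFun (congrArg Subtype.val e2) z
    have he0' := ode (p.gd 0).cexp he0
    obtain ⟨C, hC⟩ : ∃ C, C = cexp (γ 0 0) := ⟨_, rfl⟩
    have hC0 : C ≠ 0 := hC ▸ Complex.exp_ne_zero _
    have he0'' : ∀ z, cexp (γ 0 z) = C * cexp (μ * z) := fun z => by rw [hC]; exact he0' z
    let w : ℂ → ℂ := fun z => cexp (-(μ * z)) - C
    have hwd : ∀ z, HasDerivAt w (-(μ * cexp (-(μ * z)))) z := by
      intro z
      have h1 : HasDerivAt (fun z : ℂ => -(μ * z)) (-μ) z := by
        simpa using (hasDerivAt_id z).const_mul (-μ)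
      refine (h1.cexp.sub_const C).congr_deriv ?_
      ring
    have hw : Differentiable ℂ w := fun z => (hwd z).differentiableAt
    have hwr : ∀ z, deriv g z * w z = g z * deriv w z := by
      intro z
      rw [(hwd z).deriv]
      have h1 := hrel2 z
      rw [he0'' z] at h1
      have h2 : cexp (-(μ * z)) * cexp (μ * z) = 1 := by
        rw [← Complex.exp_add, neg_add_cancel, Complex.exp_zero]
      change deriv g z * (cexp (-(μ * z)) - C) = g z * -(μ * cexp (-(μ * z)))
      linear_combination (-cexp (-(μ * z))) * h1 + (C * deriv g z) * h2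
    have hwne : ∃ z, w z ≠ 0 := by
      by_contra hcon
      push Not at hcon
      have h1 : w = fun _ => 0 := funext hcon
      have h2 := (hwd 0).deriv
      rw [h1, deriv_const] at h2
      simp at h2
      exact hμ0 h2
    obtain ⟨z0, hz0⟩ := hwne
    obtain ⟨B, hB⟩ := prop_of_wr p.hg hw hwr hz0
    refine ⟨μ, C⁻¹, -(h 0 0 * B * C), B, inv_ne_zero hC0, fun z => ⟨?_, ?_⟩⟩
    · rw [hfg z, hh0' z, hB z]
      have h2 : cexp (-(μ * z)) * cexp (μ * z) = 1 := by
        rw [← Complex.exp_add, neg_add_cancel, Complex.exp_zero]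
      change h 0 0 * cexp (μ * z) * (B * (cexp (-(μ * z)) - C)) = _
      field_simp
      linear_combination (h 0 0 * B) * h2
    · rw [hB z, inv_inv]

/-- the theorem -/
theorem main_thm (f g : ℂ → ℂ) (hf : Differentiable ℂ f) (hg : Differentiable ℂ g)
    (H : ∀ n : ℕ, n ≤ 22 →
      (∃ z : ℂ, iteratedDeriv n g z ≠ 0) ∧
      ∃ h : ℂ → ℂ, Differentiable ℂ h ∧ (∀ z : ℂ, h z ≠ 0) ∧
        ∀ z : ℂ, iteratedDeriv n f z = h z * iteratedDeriv n g z) :
    (∃ c : ℂ, ∀ z : ℂ, f z = c * g z) ∨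
    (∃ a b c d : ℂ, ∀ z : ℂ, f z = cexp (a * z + b) ∧ g z = cexp (c * z + d)) ∨
    (∃ a b A B : ℂ, b ≠ 0 ∧ ∀ z : ℂ, f z = A * (cexp (a * z) - b) ∧
      g z = B * (cexp (-(a * z)) - b⁻¹)) := by
  classical
  have H' : ∀ n, ∃ h : ℂ → ℂ, Differentiable ℂ h ∧ (∀ z : ℂ, h z ≠ 0) ∧
      (n ≤ 22 → ∀ z : ℂ, iteratedDeriv n f z = h z * iteratedDeriv n g z) := by
    intro n
    by_cases hn : n ≤ 22
    · obtain ⟨_, h, h1, h2, h3⟩ := H n hn
      exact ⟨h, h1, h2, fun _ => h3⟩
    · exact ⟨fun _ => 1, differentiable_const 1, fun _ => one_ne_zero, fun hh => absurd hh hn⟩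
  choose h hd h0 hfg using H'
  by_cases htriv : ∃ n, n ≤ 22 ∧ ∀ z, deriv (h n) z = 0
  · left
    have hmin := Nat.find_spec htriv
    have hmin2 : ∀ m, m < Nat.find htriv → ¬ (m ≤ 22 ∧ ∀ z, deriv (h m) z = 0) := fun m hm =>
      Nat.find_min htriv hm
    set n := Nat.find htriv with hn
    have hconst : ∀ z, h n z = h n 0 := fun z => is_const_of_deriv_eq_zero (hd n) hmin.2 z 0
    rcases Nat.eq_zero_or_pos n with hn0 | hn0
    · refine ⟨h n 0, fun z => ?_⟩
      have h1 := hfg n hmin.1 z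
      rw [hconst z, hn0, iteratedDeriv_zero, iteratedDeriv_zero] at h1
      rw [hn0]
      exact h1
    · exfalso
      obtain ⟨m, hm⟩ : ∃ m, n = m + 1 := ⟨n - 1, by omega⟩
      have hm22 : m ≤ 22 := by omega
      obtain ⟨C, hC⟩ : ∃ C, C = h n 0 := ⟨_, rfl⟩
      have hC0 : C ≠ 0 := hC ▸ h0 n 0
      have hF := diff_iter hf m
      have hG := diff_iter hg m
      have hderiv : ∀ z, deriv (fun z => iteratedDeriv m f z - C * iteratedDeriv m g z) z = 0 := by
        intro z
        have h1 := ((hF z).hasDerivAt.sub ((hG z).hasDerivAt.const_mul C)).deriv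
        have h2 := hfg n hmin.1 z
        rw [hconst z, ← hC, hm, iteratedDeriv_succ, iteratedDeriv_succ] at h2
        refine h1.trans ?_
        rw [h2, sub_self]
      have hc1 : ∀ z, iteratedDeriv m f z - C * iteratedDeriv m g z =
          iteratedDeriv m f 0 - C * iteratedDeriv m g 0 := fun z =>
        is_const_of_deriv_eq_zero (hF.sub (hG.const_mul C)) hderiv z 0
      obtain ⟨C1, hC1⟩ : ∃ C1, C1 = iteratedDeriv m f 0 - C * iteratedDeriv m g 0 := ⟨_, rfl⟩
      have hprod : ∀ z, (h m z - C) * iteratedDeriv m g z = C1 := by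
        intro z
        rw [hC1, ← hc1 z, hfg m hm22 z]
        ring
      have hnot := hmin2 m (by omega)
      apply hnot
      refine ⟨hm22, ?_⟩
      by_cases hz : C1 = 0
      · rw [hz] at hprod
        rcases mul_zero_or ((hd m).sub_const C) hG hprod with h1 | h1
        · intro z
          have h2 : h m = fun _ => C := funext fun z => sub_eq_zero.1 (h1 z)
          rw [h2, deriv_const]
        · obtain ⟨z, hz⟩ := (H m hm22).1
          exact absurd (h1 z) hz
      · obtain ⟨Ω, _, _, _, I, D, hI, hD, hc⟩ := exists_big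
        exact picard_lite hI hD hc (hd m) (h0 m) hC0 (fun z hh => hz (by
          rw [← hprod z, hh, sub_self, zero_mul]))
  · right
    push Not at htriv
    have hγ : ∀ n, ∃ γ : ℂ → ℂ, Differentiable ℂ γ ∧ ∀ z, cexp (γ z) * h n z = h (n + 1) z := by
      intro n
      have h1 : Differentiable ℂ (fun z => h (n + 1) z / h n z) := (hd (n + 1)).div (hd n) (h0 n)
      obtain ⟨γ, hγ1, hγ2⟩ := exists_log h1 (fun z => div_ne_zero (h0 (n + 1) z) (h0 n z))
      refine ⟨γ, hγ1, fun z => ?_⟩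
      rw [hγ2 z, div_mul_cancel₀ _ (h0 n z)]
    choose γ gd ge using hγ
    have p : PD 22 f g h γ :=
      { hf := hf
        hg := hg
        hd := hd
        h0 := h0
        hfg := hfg
        hgn := fun n hn => (H n hn).1
        hne := htriv
        gd := gd
        ge := ge }
    exact p.concl le_rfl

end Pool.Agent.K4H53.BC
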