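import Pool.Agent.TH242.MK.Growth

/-!
A growth lemma: a monotone function which is bounded by the logarithm of its values slightly
further out is, on a sequence of radii, smaller than the square root.
-/

set_option autoImplicit false

namespace Pool.Agent.K4H53.BC

open Pool.Agent.TH242.MK

theorem growth2 {M : ℝ → ℝ} (hmono : Monotone M) (h1 : ∀ r, Real.exp 1 ≤ M r) {A c0 : ℝ}
    (hA : 0 ≤ A) (hc : 0 ≤ c0)
    (hM : ∀ r δ : ℝ, 1 ≤ r → 0 < δ →
      M r ≤ A * (1 + r / δ) ^ 2 * (1 + Real.log (M (r + δ) + c0 + (r + δ)) +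
        max 0 (Real.log (1 / δ)) + 1)) (R0 : ℝ) : ∃ r, R0 ≤ r ∧ 1 ≤ r ∧ M r ≤ Real.sqrt r := by
  by_contra hcon
  push Not at hcon
  set u : ℝ → ℝ := fun r => Real.log (M r) with hu
  have hMpos : ∀ r, 0 < M r := fun r => lt_of_lt_of_le (Real.exp_pos 1) (h1 r)
  have hM1 : ∀ r, 1 ≤ M r := fun r => le_trans (by have := Real.add_one_le_exp 1; linarith) (h1 r)
  have hu1 : ∀ r, 1 ≤ u r := fun r => by
    rw [hu]; simp only; rw [Real.le_log_iff_exp_le (hMpos r)]; exact h1 r
  have humono : Monotone u := fun a b hab => Real.log_le_log (hMpos a) (hmono hab)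
  have hexp : ∀ r, Real.exp (u r) = M r := fun r => Real.exp_log (hMpos r)
  set r1 : ℝ := max R0 1 with hr1
  have hr11 : 1 ≤ r1 := le_max_right _ _
  have hlow : ∀ r, r1 ≤ r → r ≤ M r ^ 2 := by
    intro r hr
    have h2 := hcon r ((le_max_left _ _).trans hr) (hr11.trans hr)
    have h3 : 0 ≤ r := by linarith
    calc r = Real.sqrt r ^ 2 := (Real.sq_sqrt h3).symm
      _ ≤ M r ^ 2 := by
          have := Real.sqrt_nonneg r
          gcongr
  have hulow : ∀ r, r1 ≤ r → Real.log r ≤ 2 * u r := by
    intro r hr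
    have h3 : 0 < r := by linarith
    calc Real.log r ≤ Real.log (M r ^ 2) := Real.log_le_log h3 (hlow r hr)
      _ = 2 * u r := by rw [Real.log_pow]; push_cast; rfl
  set B : ℝ := 6 + Real.log (3 + c0) with hB
  have hlog3 : 0 ≤ Real.log (3 + c0) := Real.log_nonneg (by linarith)
  have hB0 : 0 < B := by rw [hB]; linarith
  obtain ⟨U, hU⟩ := exp_beats (A * 4 * B) 5
  -- good radii
  have good : ∀ r, r1 ≤ r → u (r + r / u r ^ 2) ≤ 2 * u r → u r ≤ U := by
    intro r hr1' hg
    have hr : 1 ≤ r := by linarith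
    by_contra hcon
    push Not at hcon
    have hur := hu1 r
    have hδ : 0 < r / u r ^ 2 := by positivity
    have hδr : r / u r ^ 2 ≤ r := by
      rw [div_le_iff₀ (by positivity)]
      have : 1 ≤ u r ^ 2 := by nlinarith
      nlinarith
    have h3 := hM r (r / u r ^ 2) hr hδ
    have e1 : r / (r / u r ^ 2) = u r ^ 2 := by field_simp
    rw [e1] at h3
    have e2 : max 0 (Real.log (1 / (r / u r ^ 2))) ≤ 2 * u r := by
      apply max_le (by linarith)
      have e3 : 1 / (r / u r ^ 2) ≤ u r ^ 2 := by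
        rw [one_div, inv_div, div_le_iff₀ (by linarith)]
        nlinarith [sq_nonneg (u r)]
      calc Real.log (1 / (r / u r ^ 2)) ≤ Real.log (u r ^ 2) :=
            Real.log_le_log (by positivity) e3
        _ = 2 * Real.log (u r) := by rw [Real.log_pow]; push_cast; ring
        _ ≤ 2 * u r := by
            have := Real.log_le_sub_one_of_pos (show 0 < u r by linarith)
            linarith
    have e3 : Real.log (M (r + r / u r ^ 2) + c0 + (r + r / u r ^ 2)) ≤
        Real.log (3 + c0) + 2 * u r := by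
      have h4 : M (r + r / u r ^ 2) ≤ M r ^ 2 := by
        rw [← hexp, ← hexp r, ← Real.exp_nat_mul]
        apply Real.exp_le_exp.2
        push_cast
        exact hg
      have h5 := hlow r hr1'
      have h6 : 1 ≤ M r ^ 2 := by have := hM1 r; nlinarith
      have h7 : M (r + r / u r ^ 2) + c0 + (r + r / u r ^ 2) ≤ (3 + c0) * M r ^ 2 := by
        nlinarith
      have h8 : 0 < M (r + r / u r ^ 2) + c0 + (r + r / u r ^ 2) := by
        have := hMpos (r + r / u r ^ 2)
        linarith
      calc Real.log (M (r + r / u r ^ 2) + c0 + (r + r / u r ^ 2)) ≤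
            Real.log ((3 + c0) * M r ^ 2) := Real.log_le_log h8 h7
        _ = Real.log (3 + c0) + 2 * u r := by
            rw [Real.log_mul (by linarith) (by positivity), Real.log_pow]; push_cast; rfl
    have e4 : 1 + Real.log (M (r + r / u r ^ 2) + c0 + (r + r / u r ^ 2)) +
        max 0 (Real.log (1 / (r / u r ^ 2))) + 1 ≤ B * u r := by
      rw [hB]
      nlinarith
    have e5 : (1 + u r ^ 2) ^ 2 ≤ 4 * u r ^ 4 := by
      have : 1 + u r ^ 2 ≤ 2 * u r ^ 2 := by nlinarith
      calc (1 + u r ^ 2) ^ 2 ≤ (2 * u r ^ 2) ^ 2 := by gcongr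
        _ = 4 * u r ^ 4 := by ring
    have e6 : M r ≤ A * 4 * B * u r ^ 5 := by
      calc M r ≤ A * (1 + u r ^ 2) ^ 2 *
            (1 + Real.log (M (r + r / u r ^ 2) + c0 + (r + r / u r ^ 2)) +
              max 0 (Real.log (1 / (r / u r ^ 2))) + 1) := h3
        _ ≤ A * (1 + u r ^ 2) ^ 2 * (B * u r) :=
            mul_le_mul_of_nonneg_left e4 (by positivity)
        _ ≤ A * (4 * u r ^ 4) * (B * u r) := by
            apply mul_le_mul_of_nonneg_right _ (by positivity)
            exact mul_le_mul_of_nonneg_left e5 hA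
        _ = A * 4 * B * u r ^ 5 := by ring
    have e7 := hU (u r) hcon.le
    rw [hexp r] at e7
    linarith
  set r0 : ℝ := max r1 (Real.exp (2 * |U| + 2)) with hr0'
  have hr01 : r1 ≤ r0 := le_max_left _ _
  have hr0 : 1 ≤ r0 := by linarith
  have hUr0 : U < u r0 := by
    have h2 := hulow r0 hr01
    have h3 : Real.exp (2 * |U| + 2) ≤ r0 := le_max_right _ _
    have h4 := le_abs_self U
    have h5 : 2 * |U| + 2 ≤ Real.log r0 := by
      rw [Real.le_log_iff_exp_le (by linarith)]; exact h3
    linarith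
  have bad : ∀ r, r0 ≤ r → 2 * u r < u (r + r / u r ^ 2) := by
    intro r hr
    by_contra hc
    push Not at hc
    have := good r (hr01.trans hr) hc
    have h5 : u r0 ≤ u r := humono hr
    linarith
  -- iterate
  let R : ℕ → ℝ := fun n => Nat.rec r0 (fun _ x => x + x / u x ^ 2) n
  have hR0 : R 0 = r0 := rfl
  have hRs : ∀ n, R (n + 1) = R n + R n / u (R n) ^ 2 := fun n => rfl
  have hRge : ∀ n, r0 ≤ R n := by
    intro n
    induction n with
    | zero => exact le_rfl
    | succ n ih =>
      rw [hRs]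
      have : 0 ≤ R n / u (R n) ^ 2 := by
        apply div_nonneg (by linarith) (by positivity)
      linarith
  have huR : ∀ n, (2 : ℝ) ^ n ≤ u (R n) := by
    intro n
    induction n with
    | zero => simpa using hu1 _
    | succ n ih =>
      have := bad (R n) (hRge n)
      rw [hRs, pow_succ]
      linarith
  have hRle : ∀ n, R n ≤ r0 * Real.exp (∑ k ∈ Finset.range n, (1 / 4 : ℝ) ^ k) := by
    intro n
    induction n with
    | zero => simp [hR0]
    | succ n ih =>
      have hRn : 0 < R n := by linarith [hRge n]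
      have e1 : 1 / u (R n) ^ 2 ≤ (1 / 4 : ℝ) ^ n := by
        have h6 : (4 : ℝ) ^ n ≤ u (R n) ^ 2 := by
          calc (4 : ℝ) ^ n = ((2 : ℝ) ^ n) ^ 2 := by rw [← pow_mul, mul_comm, pow_mul]; norm_num
            _ ≤ u (R n) ^ 2 := by gcongr; exact huR n
        rw [one_div_pow]
        exact one_div_le_one_div_of_le (by positivity) h6
      rw [hRs, Finset.sum_range_succ, Real.exp_add, ← mul_assoc]
      calc R n + R n / u (R n) ^ 2 = R n * (1 + 1 / u (R n) ^ 2) := by ring
        _ ≤ R n * Real.exp ((1 / 4 : ℝ) ^ n) := by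
            apply mul_le_mul_of_nonneg_left _ hRn.le
            have := Real.add_one_le_exp ((1 / 4 : ℝ) ^ n)
            linarith
        _ ≤ (r0 * Real.exp (∑ k ∈ Finset.range n, (1 / 4 : ℝ) ^ k)) *
              Real.exp ((1 / 4 : ℝ) ^ n) := by
            apply mul_le_mul_of_nonneg_right ih (Real.exp_pos _).le
  have hRb : ∀ n, R n ≤ r0 * Real.exp 2 := by
    intro n
    refine (hRle n).trans ?_
    apply mul_le_mul_of_nonneg_left _ (by linarith)
    apply Real.exp_le_exp.2
    have := Summable.sum_le_tsum (Finset.range n) (fun k _ => by positivity)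
      (summable_geometric_of_lt_one (r := (1 / 4 : ℝ)) (by norm_num) (by norm_num))
    rw [tsum_geometric_of_lt_one (by norm_num) (by norm_num)] at this
    linarith
  obtain ⟨n, hn⟩ := pow_unbounded_of_one_lt (u (r0 * Real.exp 2)) (one_lt_two)
  have h7 := huR n
  have h8 := humono (hRb n)
  linarith

end Pool.Agent.K4H53.BC
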