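import Pool.Agent.K4H53.BC.Sys

/-!
Laurent series with a derivation acting on the coefficients and on the variable, and the residue
relation.
-/

set_option autoImplicit false

open HahnSeries

namespace Pool.Agent.K4H53.BC

variable {k : Type*} [Field k]

/-- the derivation `Σ s_i t^i ↦ Σ (δ s_i + i θ s_i) t^i` -/
noncomputable def dHfun (δ : Derivation ℤ k k) (θ : k) (x : LaurentSeries k) :
    LaurentSeries k where
  coeff := fun i => δ (x.coeff i) + (i : k) * θ * x.coeff i
  isPWO_support' := x.isPWO_support.mono (by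
    intro i hi
    simp only [Function.mem_support, ne_eq] at hi ⊢
    intro h0
    apply hi
    change x.coeff i = 0 at h0
    rw [h0]; simp)

theorem dHfun_coeff (δ : Derivation ℤ k k) (θ : k) (x : LaurentSeries k) (i : ℤ) :
    (dHfun δ θ x).coeff i = δ (x.coeff i) + (i : k) * θ * x.coeff i := rfl

theorem dHfun_support (δ : Derivation ℤ k k) (θ : k) (x : LaurentSeries k) :
    (dHfun δ θ x).support ⊆ x.support := by
  intro i hi
  simp only [HahnSeries.mem_support, dHfun_coeff] at hi ⊢
  intro h0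
  apply hi
  rw [h0]; simp

/-- constructor for derivations of a field -/
def mkDer {K : Type*} [Field K] (f : K → K) (hadd : ∀ x y, f (x + y) = f x + f y)
    (hmul : ∀ x y, f (x * y) = x * f y + y * f x) : Derivation ℤ K K :=
  Derivation.mk' (AddMonoidHom.toIntLinearMap
    { toFun := f
      map_zero' := by
        have := hadd 0 0
        rw [add_zero] at this
        exact left_eq_add.1 this
      map_add' := hadd })
    (fun x y => by
      change f (x * y) = x • f y + y • f x
      rw [hmul]; rfl)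

@[simp]
theorem mkDer_apply {K : Type*} [Field K] (f : K → K) (hadd : ∀ x y, f (x + y) = f x + f y)
    (hmul : ∀ x y, f (x * y) = x * f y + y * f x) (x : K) : mkDer f hadd hmul x = f x := rfl

noncomputable def dH (δ : Derivation ℤ k k) (θ : k) :=
  mkDer (K := LaurentSeries k) (dHfun δ θ)
    (fun x y => by ext i; simp [dHfun_coeff]; ring)
    (fun x y => by
      ext i
      rw [mul_comm y, HahnSeries.coeff_add, HahnSeries.coeff_mul_right' y.isPWO_support
        (dHfun_support δ θ y), HahnSeries.coeff_mul_left' x.isPWO_support (dHfun_support δ θ x),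
        dHfun_coeff, HahnSeries.coeff_mul, map_sum, Finset.mul_sum, ← Finset.sum_add_distrib,
        ← Finset.sum_add_distrib]
      refine Finset.sum_congr rfl fun ij hij => ?_
      have h1 : ij.1 + ij.2 = i := by
        simp at hij
        exact hij.2.2
      rw [dHfun_coeff, dHfun_coeff, D_mul, ← h1]
      push_cast
      ring)

theorem dH_coeff (δ : Derivation ℤ k k) (θ : k) (x : LaurentSeries k) (i : ℤ) :
    (dH δ θ x).coeff i = δ (x.coeff i) + (i : k) * θ * x.coeff i := rfl

theorem dH_single (δ : Derivation ℤ k k) (θ : k) (m : ℤ) (s : k) :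
    dH δ θ (single m s) = single m (δ s + m * θ * s) := by
  ext i
  rw [dH_coeff, coeff_single, coeff_single]
  by_cases h : i = m
  · simp [h]
  · simp [h]

/-- `x` is a power series with constant coefficient `r` -/
def Res (x : LaurentSeries k) (r : k) : Prop :=
  ∃ p : PowerSeries k, (p : LaurentSeries k) = x ∧ PowerSeries.constantCoeff p = r

variable {x y : LaurentSeries k} {r s : k}

theorem Res.add (hx : Res x r) (hy : Res y s) : Res (x + y) (r + s) := by
  obtain ⟨p, rfl, rfl⟩ := hx
  obtain ⟨q, rfl, rfl⟩ := hy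
  exact ⟨p + q, by push_cast; rfl, by simp⟩

theorem Res.mul (hx : Res x r) (hy : Res y s) : Res (x * y) (r * s) := by
  obtain ⟨p, rfl, rfl⟩ := hx
  obtain ⟨q, rfl, rfl⟩ := hy
  exact ⟨p * q, by push_cast; rfl, by simp⟩

theorem Res.neg (hx : Res x r) : Res (-x) (-r) := by
  obtain ⟨p, rfl, rfl⟩ := hx
  exact ⟨-p, by push_cast; rfl, by simp⟩

theorem Res.sub (hx : Res x r) (hy : Res y s) : Res (x - y) (r - s) := by
  rw [sub_eq_add_neg, sub_eq_add_neg]
  exact hx.add hy.neg

theorem Res.C (r : k) : Res (HahnSeries.C r : LaurentSeries k) r :=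
  ⟨PowerSeries.C r, by simp, by simp⟩

theorem Res.one : Res (1 : LaurentSeries k) 1 := ⟨1, by simp, by simp⟩

theorem Res.pow (hx : Res x r) (n : ℕ) : Res (x ^ n) (r ^ n) := by
  induction n with
  | zero => simpa using Res.one
  | succ n ih => rw [pow_succ, pow_succ]; exact ih.mul hx

theorem Res.inv (hx : Res x r) (hr : r ≠ 0) : Res x⁻¹ r⁻¹ := by
  obtain ⟨p, rfl, rfl⟩ := hx
  refine ⟨p⁻¹, ?_, by simp⟩
  have h1 : p * p⁻¹ = 1 := PowerSeries.mul_inv_cancel p hr
  have h2 : (p : LaurentSeries k) * ((p⁻¹ : PowerSeries k) : LaurentSeries k) = 1 := by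
    rw [← PowerSeries.coe_mul, h1, PowerSeries.coe_one]
  exact eq_inv_of_mul_eq_one_right h2

theorem Res.uniq (hx : Res x r) (hx' : Res x s) : r = s := by
  obtain ⟨p, hp, rfl⟩ := hx
  obtain ⟨q, hq, rfl⟩ := hx'
  have : p = q := HahnSeries.ofPowerSeries_injective (hp.trans hq.symm)
  rw [this]

theorem Res.coeff_neg (hx : Res x r) {i : ℤ} (hi : i < 0) : x.coeff i = 0 := by
  obtain ⟨p, rfl, rfl⟩ := hx
  rw [PowerSeries.coeff_coe, if_pos hi]

theorem Res.coeff_zero (hx : Res x r) : x.coeff 0 = r := by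
  obtain ⟨p, rfl, rfl⟩ := hx
  rw [PowerSeries.coeff_coe]
  simp

theorem Res.D (δ : Derivation ℤ k k) (θ : k) (hx : Res x r) : Res (dH δ θ x) (δ r) := by
  obtain ⟨p, rfl, rfl⟩ := hx
  refine ⟨PowerSeries.mk fun n => δ (PowerSeries.coeff n p) + (n : k) * θ * PowerSeries.coeff n p,
    ?_, by simp⟩
  ext i
  rw [dH_coeff, PowerSeries.coeff_coe, PowerSeries.coeff_coe]
  by_cases hi : i < 0
  · simp [hi]
  · have h1 : ((i.natAbs : ℕ) : k) = (i : k) := by
      have : (i.natAbs : ℤ) = i := Int.natAbs_of_nonneg (by omega)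
      rw [← Int.cast_natCast, this]
    simp [hi, h1]

theorem Res.single_pos {m : ℤ} (hm : 0 < m) (s : k) : Res (single m s : LaurentSeries k) 0 := by
  refine ⟨PowerSeries.monomial m.toNat s, ?_, ?_⟩
  · ext i
    rw [PowerSeries.coeff_coe, coeff_single]
    by_cases hi : i < 0
    · rw [if_pos hi, if_neg (by omega)]
    · rw [if_neg hi, PowerSeries.coeff_monomial]
      by_cases h : i = m
      · rw [if_pos h, if_pos (by omega)]
      · rw [if_neg h, if_neg (by omega)]
  · rw [← PowerSeries.coeff_zero_eq_constantCoeff_apply, PowerSeries.coeff_monomial,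
      if_neg (by omega)]

theorem single_mul_single' (m n : ℤ) (r s : k) :
    (single m r : LaurentSeries k) * single n s = single (m + n) (r * s) :=
  HahnSeries.single_mul_single

theorem single_inv' {m : ℤ} {r : k} (hr : r ≠ 0) :
    (single m r : LaurentSeries k)⁻¹ = single (-m) r⁻¹ := by
  apply inv_eq_of_mul_eq_one_right
  rw [single_mul_single', add_neg_cancel, mul_inv_cancel₀ hr]
  rfl

theorem exists_form (hx : x ≠ 0) : ∃ (m : ℤ) (u : LaurentSeries k) (r : k), r ≠ 0 ∧ Res u r ∧
    x = single m 1 * u := by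
  refine ⟨x.order, x.powerSeriesPart, x.leadingCoeff, ?_, ⟨_, rfl, ?_⟩, ?_⟩
  · exact leadingCoeff_ne_zero.2 hx
  · rw [← PowerSeries.coeff_zero_eq_constantCoeff_apply, LaurentSeries.powerSeriesPart_coeff,
      leadingCoeff_eq]
    simp
  · exact (LaurentSeries.single_order_mul_powerSeriesPart x).symm

theorem Res.logD (δ : Derivation ℤ k k) (θ : k) {u : LaurentSeries k} (hu : Res u r) (hr : r ≠ 0)
    {m : ℤ} (hx : x = single m 1 * u) :
    Res (dH δ θ x * x⁻¹) (m * θ + δ r * r⁻¹) := by
  have hu0 : u ≠ 0 := by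
    rintro rfl
    exact hr (hu.uniq ⟨0, by simp, by simp⟩)
  have h1 : (single m (1 : k) : LaurentSeries k) ≠ 0 := by simp
  have h2 : dH δ θ (single m (1 : k)) = HahnSeries.C (m * θ) * single m 1 := by
    rw [dH_single]
    ext i
    rw [HahnSeries.C_mul_eq_smul, HahnSeries.coeff_smul, coeff_single, coeff_single]
    by_cases h : i = m
    · simp [h]
    · simp [h]
  have h3 : dH δ θ x * x⁻¹ = HahnSeries.C (m * θ) + dH δ θ u * u⁻¹ := by
    rw [hx, D_mul, h2]
    field_simp
  rw [h3]
  exact (Res.C _).add ((hu.D δ θ).mul (hu.inv hr))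

end Pool.Agent.K4H53.BC
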