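import Pool.Agent.K4H53.BC.Sys

/-!
If all the Riccati equations on a run of length six coincide, then the solution lies in the base
field.
-/

set_option autoImplicit false

namespace Pool.Agent.K4H53.BC

variable {K : Type*} [Field K]

/-- a differential subfield which contains the constants and a primitive of one, and is
relatively algebraically closed -/
structure Good (D : Derivation ℤ K K) (F : Subfield K) : Prop where
  stab : ∀ x ∈ F, D x ∈ F
  cst : ∀ x, D x = 0 → x ∈ F
  var : ∃ z ∈ F, D z = 1
  acl : ∀ x, IsAlgebraic F x → x ∈ F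

variable {D : Derivation ℤ K K} {N : ℕ} {a c E : ℕ → K} {F : Subfield K}

theorem inv_mem' {x : K} (h : x⁻¹ ∈ F) : x ∈ F := by
  have := F.inv_mem h
  rwa [inv_inv] at this

theorem lem1_gamma (hF : Good D F) {a0 b c0 : K} (hc : c0 ∈ F) (h1 : D a0 = b * a0)
    (h2 : D c0 = b * c0) (h3 : c0 = 0 → b = 0) : a0 ∈ F := by
  by_cases h0 : c0 = 0
  · apply hF.cst
    rw [h1, h3 h0, zero_mul]
  · have h4 : D (a0 * c0⁻¹) = 0 := by
      rw [D_mul, D_inv, h1, h2]
      field_simp
      ring
    have h5 := F.mul_mem (hF.cst _ h4) hc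
    rwa [mul_assoc, inv_mul_cancel₀ h0, mul_one] at h5

/-- the main computation -/
theorem lem1 [CharZero K] (h : Sys D N a c E) (hN : 6 ≤ N) (hF : Good D F)
    (hc : c 0 ∈ F)
    (hA : ∀ n, n ≤ 4 → cA E n = cA E 0) (hB : ∀ n, n ≤ 4 → cB a c E n = cB a c E 0)
    (hD : cD D a c E 1 = cD D a c E 0) : a 0 ∈ F := by
  set A : K := cA E 0 with hAdef
  set e : K := ee E 0 with he
  have e1 : ee E 1 = e + A := by rw [hAdef, he]; unfold cA; ring
  have e2 : ee E 2 = e + 2 * A := by
    have := hA 1 (by norm_num)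
    unfold cA at this
    have h2 : ee E (1 + 1) = ee E 2 := rfl
    rw [h2] at this
    linear_combination this + e1
  have e3 : ee E 3 = e + 3 * A := by
    have := hA 2 (by norm_num)
    unfold cA at this
    have h2 : ee E (2 + 1) = ee E 3 := rfl
    rw [h2] at this
    linear_combination this + e2
  have e4 : ee E 4 = e + 4 * A := by
    have := hA 3 (by norm_num)
    unfold cA at this
    have h2 : ee E (3 + 1) = ee E 4 := rfl
    rw [h2] at this
    linear_combination this + e3
  have e5 : ee E 5 = e + 5 * A := by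
    have := hA 4 (by norm_num)
    unfold cA at this
    have h2 : ee E (4 + 1) = ee E 5 := rfl
    rw [h2] at this
    linear_combination this + e4
  have a1 : a 1 = a 0 + c 0 := h.as 0 (by omega)
  have a2 : a 2 = a 1 + c 1 := h.as 1 (by omega)
  have a3 : a 3 = a 2 + c 2 := h.as 2 (by omega)
  have a4 : a 4 = a 3 + c 3 := h.as 3 (by omega)
  have n0 := h.e0 (show 0 < N by omega)
  have n0' := h.e10 (show 0 < N by omega)
  have n1 := h.e0 (show 1 < N by omega)
  have n1' := h.e10 (show 1 < N by omega)
  have n2 := h.e0 (show 2 < N by omega)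
  have n2' := h.e10 (show 2 < N by omega)
  have n3 := h.e0 (show 3 < N by omega)
  have n3' := h.e10 (show 3 < N by omega)
  have n4 := h.e0 (show 4 < N by omega)
  have n4' := h.e10 (show 4 < N by omega)
  have d0 := h.de (show 0 < N by omega)
  have d1 := h.de (show 1 < N by omega)
  have d2 := h.de (show 2 < N by omega)
  have d3 := h.de (show 3 < N by omega)
  have d4 := h.de (show 4 < N by omega)
  have m2 : D 2 = 0 := D.map_natCast 2
  have m3 : D 3 = 0 := D.map_natCast 3
  have m4 : D 4 = 0 := D.map_natCast 4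
  rw [← he] at n0 n0' d0
  rw [e1] at n1 n1' d1
  rw [e2] at n2 n2' d2
  rw [e3] at n3 n3' d3
  rw [e4] at n4 n4' d4
  rw [map_add] at d1
  rw [map_add, D_mul, m2] at d2
  rw [map_add, D_mul, m3] at d3
  rw [map_add, D_mul, m4] at d4
  have hc1 : ee E (0 + 1) = e + A := e1
  have hc2 : ee E (1 + 1) = e + 2 * A := e2
  have hc3 : ee E (2 + 1) = e + 3 * A := e3
  have hc4 : ee E (3 + 1) = e + 4 * A := e4
  have hc5 : ee E (4 + 1) = e + 5 * A := e5
  have hB0 : cB a c E 0 = c 0 * (1 + e + (e + A)) := by
    unfold cB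
    rw [hc1, ← he]; ring
  rw [hB0] at hB
  have b1 : c 1 * (1 + 2 * e + 3 * A) = c 0 * (1 + 2 * e - A) := by
    have := hB 1 (by norm_num)
    unfold cB at this
    rw [hA 1 (by norm_num), hc2, e1, a1] at this
    linear_combination this
  have b2 : c 2 * (1 + 2 * e + 5 * A) = c 1 * (1 + 2 * e + A) := by
    have h1 := hB 1 (by norm_num)
    have h2 := hB 2 (by norm_num)
    unfold cB at h1 h2
    rw [hA 1 (by norm_num), hc2, e1] at h1
    rw [hA 2 (by norm_num), hc3, e2] at h2
    linear_combination h2 - h1 + 2 * A * (-a2)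
  have b3 : c 3 * (1 + 2 * e + 7 * A) = c 2 * (1 + 2 * e + 3 * A) := by
    have h1 := hB 2 (by norm_num)
    have h2 := hB 3 (by norm_num)
    unfold cB at h1 h2
    rw [hA 2 (by norm_num), hc3, e2] at h1
    rw [hA 3 (by norm_num), hc4, e3] at h2
    linear_combination h2 - h1 + 2 * A * (-a3)
  have b4 : c 4 * (1 + 2 * e + 9 * A) = c 3 * (1 + 2 * e + 5 * A) := by
    have h1 := hB 3 (by norm_num)
    have h2 := hB 4 (by norm_num)
    unfold cB at h1 h2
    rw [hA 3 (by norm_num), hc4, e3] at h1
    rw [hA 4 (by norm_num), hc5, e4] at h2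
    linear_combination h2 - h1 + 2 * A * (-a4)
  -- the four identities
  set e' : K := D e with he'
  set A' : K := D A with hA'
  have p0 : (e' + A') * (e * (1 + e)) * (1 + 2 * e + 3 * A) =
      e' * ((e + A) * (1 + (e + A))) * (1 + 2 * e - A) := by
    linear_combination (1 + 2 * e + 3 * A) * (e * (1 + e)) * d1 -
      (1 + 2 * e - A) * ((e + A) * (1 + (e + A))) * d0 -
      (e * (1 + e)) * ((e + A) * (1 + (e + A))) * b1
  have p1 : (e' + 2 * A') * ((e + A) * (1 + (e + A))) * (1 + 2 * e + 5 * A) =
      (e' + A') * ((e + 2 * A) * (1 + (e + 2 * A))) * (1 + 2 * e + A) := by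
    linear_combination (1 + 2 * e + 5 * A) * ((e + A) * (1 + (e + A))) * d2 -
      (1 + 2 * e + A) * ((e + 2 * A) * (1 + (e + 2 * A))) * d1 -
      ((e + A) * (1 + (e + A))) * ((e + 2 * A) * (1 + (e + 2 * A))) * b2
  have p2 : (e' + 3 * A') * ((e + 2 * A) * (1 + (e + 2 * A))) * (1 + 2 * e + 7 * A) =
      (e' + 2 * A') * ((e + 3 * A) * (1 + (e + 3 * A))) * (1 + 2 * e + 3 * A) := by
    linear_combination (1 + 2 * e + 7 * A) * ((e + 2 * A) * (1 + (e + 2 * A))) * d3 -
      (1 + 2 * e + 3 * A) * ((e + 3 * A) * (1 + (e + 3 * A))) * d2 -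
      ((e + 2 * A) * (1 + (e + 2 * A))) * ((e + 3 * A) * (1 + (e + 3 * A))) * b3
  have p3 : (e' + 4 * A') * ((e + 3 * A) * (1 + (e + 3 * A))) * (1 + 2 * e + 9 * A) =
      (e' + 3 * A') * ((e + 4 * A) * (1 + (e + 4 * A))) * (1 + 2 * e + 5 * A) := by
    linear_combination (1 + 2 * e + 9 * A) * ((e + 3 * A) * (1 + (e + 3 * A))) * d4 -
      (1 + 2 * e + 5 * A) * ((e + 4 * A) * (1 + (e + 4 * A))) * d3 -
      ((e + 3 * A) * (1 + (e + 3 * A))) * ((e + 4 * A) * (1 + (e + 4 * A))) * b4
  have q0 : A' * A ^ 3 = 0 := by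
    have : (12 : K) * (A' * A ^ 3) = 0 := by
      linear_combination p3 - 3 * p2 + 3 * p1 - p0
    rcases mul_eq_zero.1 this with h | h
    · norm_num at h
    · exact h
  have ric := h.ric (show 0 + 1 < N by omega)
  rw [hc1, ← he] at ric
  by_cases hA0 : A = 0
  · -- case gamma
    have hcc : c 1 = c 0 := by
      have hz : A' = 0 := by rw [hA', hA0, map_zero]
      have : (c 1 - c 0) * (e * (1 + e)) = 0 := by
        rw [hA0, hz] at d1
        linear_combination d1 - d0
      rcases mul_eq_zero.1 this with h | h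
      · exact sub_eq_zero.1 h
      · exact absurd h (mul_ne_zero n0 n0')
    refine lem1_gamma hF hc (b := c 0 * (1 + 2 * e)) ?_ ?_ (fun h => by rw [h, zero_mul])
    · rw [ric, hA0]; ring
    · have hD' := hD
      unfold cD at hD'
      rw [hA 1 (by norm_num), hc2, e1, hA0, a1, hcc] at hD'
      simp only [sub_self, map_zero, add_sub_cancel_left] at hD'
      linear_combination -hD'
  · have hA'0 : A' = 0 := by
      rcases mul_eq_zero.1 q0 with h | h
      · exact h
      · exact absurd (pow_eq_zero_iff (by norm_num) |>.1 h) hA0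
    have hAF : A ∈ F := hF.cst _ hA'0
    rw [hA'0] at p0
    have q1 : e' * A * ((1 - A) * (1 + A)) = 0 := by
      linear_combination -p0
    by_cases he'0 : e' = 0
    · -- case alpha
      have hc0 : c 0 = 0 := by
        rw [he'0] at d0
        have : c 0 * (e * (1 + e)) = 0 := by linear_combination d0
        exact (mul_eq_zero.1 this).resolve_right (mul_ne_zero n0 n0')
      rw [hc0] at ric
      obtain ⟨z, hz, hz1⟩ := hF.var
      have ha0 := h.a0 0 (by omega)
      have h1 : D ((a 0)⁻¹ + A * z) = 0 := by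
        rw [map_add, D_mul, D_inv, ric, hz1, ← hA', hA'0]
        field_simp
        ring
      have h2 := F.sub_mem (hF.cst _ h1) (F.mul_mem hAF hz)
      rw [add_sub_cancel_right] at h2
      exact inv_mem' h2
    · -- case beta
      have ha0 := h.a0 0 (by omega)
      have hD' := hD
      unfold cD at hD'
      rw [hA 1 (by norm_num), hc2, e1, a1] at hD'
      simp only [sub_self, map_zero, add_sub_cancel_left] at hD'
      have hdc : D (c 0) = c 0 * (c 1 * (1 + (e + A) + (e + 2 * A))) + c 0 ^ 2 * A := by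
        linear_combination -hD'
      have hdd : D e' = -(D (c 0) * (e * (1 + e)) + c 0 * (e' * (1 + 2 * e))) := by
        have : D e' = D (- (c 0 * (e * (1 + e)))) := by rw [← d0]
        rw [this, map_neg, D_mul, D_mul, map_add, D.map_one_eq_zero]
        ring
      have hpm : A = 1 ∨ A = -1 := by
        rcases mul_eq_zero.1 q1 with h | h
        · exact absurd h (mul_ne_zero he'0 hA0)
        · rcases mul_eq_zero.1 h with h | h
          · left; linear_combination -h
          · right; linear_combination h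
      obtain ⟨z, hz, hz1⟩ := hF.var
      have hde : D e' = 0 := by
        rw [hdd, hdc]
        rcases hpm with h | h
        · rw [h] at b1 ⊢
          linear_combination (-(c 0) * (e * (1 + e))) * b1 - (c 0 * (1 + 2 * e)) * d0
        · rw [h] at b1 ⊢
          linear_combination (-(c 0) * (e * (1 + e))) * b1 - (c 0 * (1 + 2 * e)) * d0
      have hpF : e' ∈ F := hF.cst _ hde
      have heF : e ∈ F := by
        have h1 : D (e - e' * z) = 0 := by
          rw [map_sub, D_mul, hde, hz1, ← he']; ring
        have h2 := F.add_mem (hF.cst _ h1) (F.mul_mem hpF hz)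
        rwa [sub_add_cancel] at h2
      rcases hpm with h | h
      · have hb : c 0 * (1 + e) = -(e' * e⁻¹) := by
          field_simp
          linear_combination d0
        have h1 : D ((a 0)⁻¹ * e⁻¹ ^ 2 - e'⁻¹ * e⁻¹) = 0 := by
          rw [h] at ric
          have hr : D (a 0) = a 0 ^ 2 - 2 * (e' * e⁻¹) * a 0 := by
            rw [ric]
            linear_combination 2 * a 0 * hb
          rw [map_sub, D_mul, D_mul, pow_two, D_mul, D_inv, D_inv, D_inv, hr, hde, ← he']
          field_simp
          ring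
        have h2 : (a 0)⁻¹ * e⁻¹ ^ 2 ∈ F := by
          have := F.add_mem (hF.cst _ h1) (F.mul_mem (F.inv_mem hpF) (F.inv_mem heF))
          rwa [sub_add_cancel] at this
        have h3 := F.mul_mem h2 (F.pow_mem heF 2)
        have h4 : (a 0)⁻¹ * e⁻¹ ^ 2 * e ^ 2 = (a 0)⁻¹ := by field_simp
        rw [h4] at h3
        exact inv_mem' h3
      · have hb : c 0 * e = -(e' * (1 + e)⁻¹) := by
          field_simp
          linear_combination d0
        have h1 : D ((a 0)⁻¹ * (1 + e)⁻¹ ^ 2 + e'⁻¹ * (1 + e)⁻¹) = 0 := by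
          rw [h] at ric
          have hr : D (a 0) = - a 0 ^ 2 - 2 * (e' * (1 + e)⁻¹) * a 0 := by
            rw [ric]
            linear_combination 2 * a 0 * hb
          rw [map_add, D_mul, D_mul, pow_two, D_mul, D_inv, D_inv, D_inv, hr, hde, map_add,
            D.map_one_eq_zero, ← he']
          field_simp
          ring
        have h1F : 1 + e ∈ F := F.add_mem F.one_mem heF
        have h2 : (a 0)⁻¹ * (1 + e)⁻¹ ^ 2 ∈ F := by
          have := F.sub_mem (hF.cst _ h1) (F.mul_mem (F.inv_mem hpF) (F.inv_mem h1F))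
          rwa [add_sub_cancel_right] at this
        have h3 := F.mul_mem h2 (F.pow_mem h1F 2)
        have h4 : (a 0)⁻¹ * (1 + e)⁻¹ ^ 2 * (1 + e) ^ 2 = (a 0)⁻¹ := by field_simp
        rw [h4] at h3
        exact inv_mem' h3

end Pool.Agent.K4H53.BC
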