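import Pool.Agent.K4H53.BC.Setup

/-!
The main theorem.
-/

set_option autoImplicit false

open Complex

namespace Pool.Agent.K4H53.BC

open Pool.Agent.TH242.MK

/-- pair data -/
structure PD (k : ℕ) (f g : ℂ → ℂ) (h γ : ℕ → ℂ → ℂ) : Prop where
  hf : Differentiable ℂ f
  hg : Differentiable ℂ g
  hd : ∀ n, Differentiable ℂ (h n)
  h0 : ∀ n z, h n z ≠ 0
  hfg : ∀ n, n ≤ k → ∀ z, iteratedDeriv n f z = h n z * iteratedDeriv n g z
  hgn : ∀ n, n ≤ k → ∃ z, iteratedDeriv n g z ≠ 0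
  hne : ∀ n, n ≤ k → ∃ z, deriv (h n) z ≠ 0
  gd : ∀ n, Differentiable ℂ (γ n)
  ge : ∀ n z, cexp (γ n z) * h n z = h (n + 1) z

section

variable {Ω : Type} [Field Ω] {I : Ent →+* Ω} {D : Derivation ℤ Ω Ω}
  {k : ℕ} {f g : ℂ → ℂ} {h γ : ℕ → ℂ → ℂ}

/-- logarithmic derivatives -/
noncomputable def qa (I : Ent →+* Ω) (D : Derivation ℤ Ω Ω) (hd : ∀ n, Differentiable ℂ (h n))
    (n : ℕ) : Ω := D (I ⟨h n, hd n⟩) * (I ⟨h n, hd n⟩)⁻¹

noncomputable def qE (I : Ent →+* Ω) (hd : ∀ n, Differentiable ℂ (h n)) (n : ℕ) : Ω :=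
  I ⟨h (n + 1), hd (n + 1)⟩ * (I ⟨h n, hd n⟩)⁻¹

noncomputable def qc (I : Ent →+* Ω) (D : Derivation ℤ Ω Ω) (hd : ∀ n, Differentiable ℂ (h n))
    (n : ℕ) : Ω := qa I D hd (n + 1) - qa I D hd n

theorem PD.Hne (p : PD k f g h γ) (hI : Function.Injective I) (n : ℕ) :
    I ⟨h n, p.hd n⟩ ≠ 0 := by
  rw [map_ne_zero_iff _ hI]
  intro hh
  exact p.h0 n 0 (congrFun (congrArg Subtype.val hh) 0)

theorem PD.Gne (p : PD k f g h γ) (hI : Function.Injective I) {n : ℕ} (hn : n ≤ k) :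
    I (iter p.hg n) ≠ 0 := by
  rw [map_ne_zero_iff _ hI]
  intro hh
  obtain ⟨z, hz⟩ := p.hgn n hn
  exact hz (congrFun (congrArg Subtype.val hh) z)

theorem PD.rel (p : PD k f g h γ) {n : ℕ} (hn : n + 1 ≤ k) :
    ((⟨h (n + 1), p.hd (n + 1)⟩ : Ent) - ⟨h n, p.hd n⟩) * iter p.hg (n + 1) =
      dEnt ⟨h n, p.hd n⟩ * iter p.hg n := by
  have h1 : iter p.hf n = (⟨h n, p.hd n⟩ : Ent) * iter p.hg n :=
    Subtype.ext (funext fun z => p.hfg n (by omega) z)
  have h2 : iter p.hf (n + 1) = (⟨h (n + 1), p.hd (n + 1)⟩ : Ent) * iter p.hg (n + 1) :=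
    Subtype.ext (funext fun z => p.hfg (n + 1) hn z)
  have h3 := dEnt_iter p.hf n
  rw [h1, h2, dEnt.leibniz, dEnt_iter, smul_eq_mul, smul_eq_mul] at h3
  linear_combination -h3

theorem PD.EG (p : PD k f g h γ) (hI : Function.Injective I) (hD : ∀ f, D (I f) = I (dEnt f))
    {n : ℕ} (hn : n + 1 ≤ k) :
    (qE I p.hd n - 1) * I (iter p.hg (n + 1)) = qa I D p.hd n * I (iter p.hg n) := by
  have h1 := congrArg I (p.rel hn)
  rw [map_mul, map_mul, map_sub, ← hD] at h1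
  have h2 := p.Hne hI n
  unfold qE qa
  field_simp
  linear_combination h1

theorem PD.dE (p : PD k f g h γ) (hI : Function.Injective I) (n : ℕ) :
    D (qE I p.hd n) = qc I D p.hd n * qE I p.hd n := by
  have h2 := p.Hne hI n
  have h3 := p.Hne hI (n + 1)
  unfold qc qE qa
  rw [D_mul, D_inv]
  field_simp
  ring

theorem PD.a0 (p : PD k f g h γ) (hI : Function.Injective I) (hD : ∀ f, D (I f) = I (dEnt f))
    {n : ℕ} (hn : n ≤ k) : qa I D p.hd n ≠ 0 := by
  unfold qa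
  refine mul_ne_zero ?_ (inv_ne_zero (p.Hne hI n))
  rw [hD, map_ne_zero_iff _ hI]
  intro hh
  obtain ⟨z, hz⟩ := p.hne n hn
  exact hz (congrFun (congrArg Subtype.val hh) z)

theorem PD.sys (p : PD k f g h γ) (hI : Function.Injective I)
    (hD : ∀ f, D (I f) = I (dEnt f)) :
    Sys D k (qa I D p.hd) (qc I D p.hd) (qE I p.hd) where
  E0 n _ := mul_ne_zero (p.Hne hI _) (inv_ne_zero (p.Hne hI _))
  E1 n hn h1 := by
    have h2 := p.EG (D := D) hI hD (n := n) hn
    rw [h1, sub_self, zero_mul] at h2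
    exact mul_ne_zero (p.a0 hI hD hn.le) (p.Gne hI hn.le) h2.symm
  dE n _ := p.dE hI n
  a0 n hn := p.a0 hI hD hn.le
  as n _ := by unfold qc; ring
  be n hn := by
    have r0 := p.EG (D := D) hI hD (n := n) (by omega)
    have r1 := p.EG (D := D) hI hD (n := n + 1) (by omega)
    have hG1 := p.Gne (I := I) hI (n := n + 1) (by omega)
    have dG0 : D (I (iter p.hg n)) = I (iter p.hg (n + 1)) := by rw [hD, dEnt_iter]
    have dG1 : D (I (iter p.hg (n + 1))) = I (iter p.hg (n + 1 + 1)) := by rw [hD, dEnt_iter]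
    have d0 := congrArg D r0
    rw [D_mul, D_mul, map_sub, D.map_one_eq_zero, p.dE (D := D) hI, dG0, dG1] at d0
    have has : qa I D p.hd (n + 1) = qa I D p.hd n + qc I D p.hd n := by unfold qc; ring
    rw [has] at r1
    generalize qa I D p.hd n = a at *
    generalize qc I D p.hd n = c at *
    generalize qE I p.hd n = x at *
    generalize qE I p.hd (n + 1) = y at *
    generalize I (iter p.hg n) = G0 at *
    generalize I (iter p.hg (n + 1)) = G1 at *
    generalize I (iter p.hg (n + 1 + 1)) = G2 at *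
    apply mul_right_cancel₀ hG1
    linear_combination (-(a * (y - 1))) * d0 + a * (x - 1) * r1 +
      (D a * (y - 1)) * r0

theorem PD.qE_eq (p : PD k f g h γ) (hI : Function.Injective I) (n : ℕ) :
    qE I p.hd n = I (eexp (p.gd n)) := by
  have h2 := p.Hne hI n
  have h3 : eexp (p.gd n) * (⟨h n, p.hd n⟩ : Ent) = ⟨h (n + 1), p.hd (n + 1)⟩ :=
    Subtype.ext (funext fun z => p.ge n z)
  unfold qE
  rw [← h3, map_mul]
  field_simp

theorem PD.qc_eq (p : PD k f g h γ) (hI : Function.Injective I)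
    (hD : ∀ f, D (I f) = I (dEnt f)) (n : ℕ) :
    qc I D p.hd n = I (dEnt ⟨γ n, p.gd n⟩) := by
  have h1 := p.dE (D := D) hI n
  rw [p.qE_eq hI, hD, dEnt_eexp, map_mul] at h1
  have h2 : I (eexp (p.gd n)) ≠ 0 := (map_ne_zero_iff _ hI).2 (eexp_ne _)
  exact (mul_right_cancel₀ h2 h1).symm

/-- the family: the identity and the exponents -/
def fam (γ : ℕ → ℂ → ℂ) : ℕ → ℂ → ℂ
  | 0 => id
  | n + 1 => γ n

theorem fam_diff (gd : ∀ n, Differentiable ℂ (γ n)) : ∀ n, Differentiable ℂ (fam γ n)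
  | 0 => differentiable_id
  | n + 1 => gd n

/-- the small field of the tail -/
noncomputable def SS (I : Ent →+* Ω) (γ : ℕ → ℂ → ℂ) (k j : ℕ) : Subfield Ω :=
  smF I (insert 0 (Finset.Ico (j + 1) (k + 1))) (fam γ)

theorem SS_good [CharZero Ω] (hD : ∀ f, D (I f) = I (dEnt f))
    (hc : ∀ x, D x = 0 → ∃ c : ℂ, x = I (algebraMap ℂ Ent c)) (j : ℕ) :
    Good D (SS I γ k j) :=
  good_smF hD hc (Finset.mem_insert_self 0 _) rfl

theorem PD.qc_mem (p : PD k f g h γ) (hI : Function.Injective I)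
    (hD : ∀ f, D (I f) = I (dEnt f)) {j n : ℕ} (hj : j ≤ n) (hn : n < k) :
    qc I D p.hd n ∈ SS I γ k j := by
  rw [p.qc_eq hI hD]
  have h1 : n + 1 ∈ insert 0 (Finset.Ico (j + 1) (k + 1)) := by
    rw [Finset.mem_insert, Finset.mem_Ico]; right; omega
  have h2 : Sm 0 (insert 0 (Finset.Ico (j + 1) (k + 1))) (fam γ) (γ n) :=
    Sm.base (i := n + 1) (h := fam γ) h1 (p.gd n)
  exact mem_smF (Sm.deriv le_rfl h2)

/-- if all the quotients of the tail are small then they are constant -/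
theorem PD.allc (p : PD k f g h γ) (hI : Function.Injective I)
    (hD : ∀ f, D (I f) = I (dEnt f)) {j : ℕ}
    (hE : ∀ n, j ≤ n → n < k → qE I p.hd n ∈ SS I γ k j) :
    ∀ n, j ≤ n → n < k → qc I D p.hd n = 0 := by
  have hfin := all_const (ι := ℕ) (h := fam γ) (J0 := Finset.Ico (j + 1) (k + 1)) (i0 := 0)
    (by simp) rfl (fam_diff p.gd) (by
      intro i hi
      rw [Finset.mem_Ico] at hi
      obtain ⟨n, rfl⟩ : ∃ n, i = n + 1 := ⟨i - 1, by omega⟩
      have h1 := hE n (by omega) (by omega)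
      rw [p.qE_eq hI] at h1
      obtain ⟨d, w, hd, hdS, hwS, hdw⟩ := smF_quot hI h1
      exact ⟨d, w, hd, hdS, hwS, fun z => congrFun (congrArg Subtype.val hdw) z⟩)
  intro n hj hn
  rw [p.qc_eq hI hD]
  have h1 : dEnt ⟨γ n, p.gd n⟩ = 0 := by
    apply Subtype.ext
    rw [dEnt_coe]
    funext z
    exact hfin (n + 1) (by rw [Finset.mem_Ico]; omega) z
  rw [h1, map_zero]

/-- `a` is entire -/
theorem PD.qa_ent (p : PD k f g h γ) (hI : Function.Injective I)
    (hD : ∀ f, D (I f) = I (dEnt f)) (n : ℕ) : ∃ y : Ent, qa I D p.hd n = I y := by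
  have h1 := p.hd n
  have h0 := p.h0 n
  refine ⟨⟨fun z => deriv (h n) z / h n z, fun z =>
    (((h1.analyticAt z).deriv).differentiableAt).div (h1 z) (h0 z)⟩, ?_⟩
  have h2 : dEnt ⟨h n, p.hd n⟩ = (⟨fun z => deriv (h n) z / h n z, fun z =>
    (((h1.analyticAt z).deriv).differentiableAt).div (h1 z) (h0 z)⟩ : Ent) * ⟨h n, p.hd n⟩ := by
    apply Subtype.ext
    rw [dEnt_coe]
    funext z
    change deriv (h n) z = deriv (h n) z / h n z * h n z
    rw [div_mul_cancel₀ _ (h0 z)]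
  unfold qa
  rw [hD, h2, map_mul]
  have h3 := p.Hne hI n
  field_simp

/-- if two consecutive quotients are constant then `a` is constant -/
theorem PD.a_const (p : PD k f g h γ) (hI : Function.Injective I)
    (hD : ∀ f, D (I f) = I (dEnt f))
    (hc : ∀ x, D x = 0 → ∃ c : ℂ, x = I (algebraMap ℂ Ent c)) {n : ℕ} (hn : n + 1 < k)
    (h1 : qc I D p.hd n = 0) (h2 : qc I D p.hd (n + 1) = 0) : D (qa I D p.hd n) = 0 := by
  obtain ⟨y, hy⟩ := p.qa_ent (D := D) hI hD n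
  have hsys := p.sys hI hD
  have h3 := hsys.ric hn
  rw [h1, zero_mul, zero_mul, add_zero, hy] at h3
  rw [hy]
  refine ric_const hI hD hc ?_ h3
  rw [map_sub, hsys.de hn, hsys.de (show n < k by omega), h1, h2]
  ring

/-- the two possibilities -/
theorem PD.alt [CharZero Ω] [IsAlgClosed Ω] (p : PD k f g h γ) (hk : 22 ≤ k)
    (hI : Function.Injective I) (hD : ∀ f, D (I f) = I (dEnt f))
    (hc : ∀ x, D x = 0 → ∃ c : ℂ, x = I (algebraMap ℂ Ent c)) :
    (D (qa I D p.hd 0) = 0 ∧ D (qE I p.hd 0) = 0) ∨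
    (D (qa I D p.hd 0) = 0 ∧ D (qE I p.hd 0) = qa I D p.hd 0 * qE I p.hd 0) := by
  have hsys := p.sys hI hD
  have hG0 : Good D (SS I γ k 0) := SS_good hD hc 0
  have hG1 : Good D (SS I γ k 1) := SS_good hD hc 1
  have hcS0 : ∀ n, n < k → qc I D p.hd n ∈ SS I γ k 0 := fun n hn =>
    p.qc_mem hI hD (Nat.zero_le n) hn
  have ha0 : qa I D p.hd 0 ∈ SS I γ k 0 := caseB hG0 hsys (by omega) hcS0
  have haS := hsys.aF hcS0 ha0
  have hE1 : ∀ n, n + 1 < k → qE I p.hd (n + 1) ∈ SS I γ k 0 := fun n hn =>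
    caseA_succ hsys hG0 hcS0 hn (haS n (by omega))
  by_cases hE0 : qE I p.hd 0 ∈ SS I γ k 0
  · -- everything is constant
    left
    have hall : ∀ n, 0 ≤ n → n < k → qc I D p.hd n = 0 := p.allc hI hD (fun n _ hn => by
      rcases Nat.eq_zero_or_pos n with h0 | h0
      · rw [h0]; exact hE0
      · obtain ⟨m, rfl⟩ : ∃ m, n = m + 1 := ⟨n - 1, by omega⟩
        exact hE1 m hn)
    refine ⟨p.a_const hI hD hc (by omega) (hall 0 le_rfl (by omega))
      (hall 1 (by omega) (by omega)), ?_⟩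
    rw [p.dE hI, hall 0 le_rfl (by omega), zero_mul]
  · right
    obtain ⟨e1, e2⟩ := caseA_zero hsys hG0 hcS0 (by omega) ha0 hE0 (hE1 0 (by omega))
    -- the tail
    have hsys1 : Sys D (k - 1) (fun n => qa I D p.hd (n + 1)) (fun n => qc I D p.hd (n + 1))
        (fun n => qE I p.hd (n + 1)) :=
      (hsys.mono (show k - 1 + 1 ≤ k by omega)).shift
    have hcS1 : ∀ n, n < k - 1 → qc I D p.hd (n + 1) ∈ SS I γ k 1 := fun n hn =>
      p.qc_mem hI hD (by omega) (by omega)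
    have ha1 : qa I D p.hd 1 ∈ SS I γ k 1 := caseB hG1 hsys1 (by omega) hcS1
    have ha1' : qa I D p.hd 1 = 2 * qa I D p.hd 0 := by
      have : qa I D p.hd (0 + 1) = qa I D p.hd 0 + qc I D p.hd 0 := hsys.as 0 (by omega)
      rw [← e1] at this
      rw [zero_add] at this
      rw [this]; ring
    have ha0S1 : qa I D p.hd 0 ∈ SS I γ k 1 := by
      rw [ha1'] at ha1
      have h2 := (SS I γ k 1).mul_mem ((SS I γ k 1).inv_mem (ofNat_mem (SS I γ k 1) 2)) ha1
      have h3 : ((2 : Ω))⁻¹ * (2 * qa I D p.hd 0) = qa I D p.hd 0 := by field_simp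
      rwa [show (OfNat.ofNat 2 : Ω)⁻¹ = (2 : Ω)⁻¹ from rfl, h3] at h2
    have ha0ne : qa I D p.hd 0 ≠ 0 := hsys.a0 0 (by omega)
    have hden : D (qa I D p.hd 0) - qa I D p.hd 0 ^ 2 ≠ 0 := by
      intro h0
      rw [h0, zero_mul] at e2
      have : (2 : Ω) * qa I D p.hd 0 ^ 2 = 0 := by linear_combination -e2 - h0
      rcases mul_eq_zero.1 this with h | h
      · norm_num at h
      · exact ha0ne (pow_eq_zero_iff (by norm_num) |>.1 h)
    have hE1S1 : qE I p.hd 1 ∈ SS I γ k 1 := by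
      have h3 : qE I p.hd 1 = (D (qa I D p.hd 0) + qa I D p.hd 0 ^ 2) *
          (D (qa I D p.hd 0) - qa I D p.hd 0 ^ 2)⁻¹ := by
        rw [← e2]; field_simp
      rw [h3]
      have h4 := hG1.stab _ ha0S1
      have h5 := (SS I γ k 1).pow_mem ha0S1 2
      exact (SS I γ k 1).mul_mem ((SS I γ k 1).add_mem h4 h5)
        ((SS I γ k 1).inv_mem ((SS I γ k 1).sub_mem h4 h5))
    have haS1 := hsys1.aF hcS1 ha1
    have hEall : ∀ n, 1 ≤ n → n < k → qE I p.hd n ∈ SS I γ k 1 := by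
      intro n h1 hn
      rcases Nat.lt_or_ge 1 n with h2 | h2
      · obtain ⟨m, rfl⟩ : ∃ m, n = m + 1 + 1 := ⟨n - 2, by omega⟩
        exact caseA_succ hsys1 hG1 hcS1 (n := m) (by omega) (haS1 m (by omega))
      · have : n = 1 := by omega
        rw [this]; exact hE1S1
    have hall := p.allc hI hD hEall
    have hDa1 := p.a_const hI hD hc (n := 1) (by omega) (hall 1 le_rfl (by omega))
      (hall 2 (by omega) (by omega))
    have hDa0 : D (qa I D p.hd 0) = 0 := by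
      rw [ha1', D_mul, show D (2 : Ω) = 0 from D.map_natCast 2, zero_mul, zero_add] at hDa1
      rcases mul_eq_zero.1 hDa1 with h | h
      · norm_num at h
      · exact h
    refine ⟨hDa0, ?_⟩
    rw [p.dE hI, ← e1]

end

end Pool.Agent.K4H53.BC
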