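import Pool.Agent.K4H53.BC.Const
import Pool.Agent.K4H53.BC.CaseB2
import Pool.Agent.TH242.MK.BorelFin

/-!
The system attached to a pair of entire functions.
-/

set_option autoImplicit false

open Complex

namespace Pool.Agent.K4H53.BC

open Pool.Agent.TH242.MK

theorem diff_iter {g : ℂ → ℂ} (hg : Differentiable ℂ g) (n : ℕ) :
    Differentiable ℂ (iteratedDeriv n g) := by
  induction n with
  | zero => rw [iteratedDeriv_zero]; exact hg
  | succ n ih =>
    rw [iteratedDeriv_succ]
    exact fun z => ((ih.analyticAt z).deriv).differentiableAt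

/-- the derivatives of an entire function -/
noncomputable def iter {g : ℂ → ℂ} (hg : Differentiable ℂ g) (n : ℕ) : Ent :=
  ⟨iteratedDeriv n g, diff_iter hg n⟩

theorem dEnt_iter {g : ℂ → ℂ} (hg : Differentiable ℂ g) (n : ℕ) :
    dEnt (iter hg n) = iter hg (n + 1) := Subtype.ext (by
  rw [dEnt_coe]
  change deriv (iteratedDeriv n g) = iteratedDeriv (n + 1) g
  rw [iteratedDeriv_succ])

/-- the exponential of an entire function -/
noncomputable def eexp {u : ℂ → ℂ} (hu : Differentiable ℂ u) : Ent :=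
  ⟨fun z => cexp (u z), hu.cexp⟩

theorem dEnt_eexp {u : ℂ → ℂ} (hu : Differentiable ℂ u) :
    dEnt (eexp hu) = dEnt ⟨u, hu⟩ * eexp hu := Subtype.ext (by
  rw [dEnt_coe]
  funext z
  change deriv (fun z => cexp (u z)) z = deriv u z * cexp (u z)
  rw [((hu z).hasDerivAt.cexp).deriv, mul_comm])

theorem eexp_ne {u : ℂ → ℂ} (hu : Differentiable ℂ u) : eexp hu ≠ 0 := by
  intro h
  have := congrFun (congrArg Subtype.val h) 0
  exact Complex.exp_ne_zero _ this

section

variable {Ω : Type} [Field Ω] [CharZero Ω] {I : Ent →+* Ω} {D : Derivation ℤ Ω Ω}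

omit [CharZero Ω] in
/-- an entire solution of `y' = α y ^ 2` is constant -/
theorem ric_const (hI : Function.Injective I) (hD : ∀ f, D (I f) = I (dEnt f))
    (hc : ∀ x, D x = 0 → ∃ c : ℂ, x = I (algebraMap ℂ Ent c)) {y : Ent} {A : Ω} (hA : D A = 0)
    (h : D (I y) = A * I y ^ 2) : D (I y) = 0 := by
  by_cases hy : I y = 0
  · rw [hy, map_zero]
  obtain ⟨α, rfl⟩ := hc A hA
  by_cases hα : α = 0
  · rw [h, hα, map_zero, map_zero, zero_mul]
  exfalso
  let X : Ent := ⟨id, differentiable_id⟩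
  have hX : D (I X) = 1 := by
    rw [hD]
    have : dEnt X = 1 := Subtype.ext (by
      rw [dEnt_coe]
      funext z
      exact deriv_id z)
    rw [this, map_one]
  have h1 : D ((I y)⁻¹ + I (algebraMap ℂ Ent α) * I X) = 0 := by
    rw [map_add, D_mul, D_inv, h, hA, hX]
    field_simp
    ring
  obtain ⟨β, hβ⟩ := hc _ h1
  have h2 : I (y * (algebraMap ℂ Ent β - algebraMap ℂ Ent α * X)) = I 1 := by
    rw [map_mul, map_sub, map_mul, ← hβ, map_one]
    field_simp
    ring
  have h3 := congrFun (congrArg Subtype.val (hI h2)) (β / α)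
  have h4 : (y : ℂ → ℂ) (β / α) * (β - α * (β / α)) = 1 := h3
  rw [mul_div_cancel₀ β hα, sub_self, mul_zero] at h4
  exact zero_ne_one h4

/-- a zero-free entire function which omits one more value is constant -/
theorem picard_lite (hI : Function.Injective I) (hD : ∀ f, D (I f) = I (dEnt f))
    (hc : ∀ x, D x = 0 → ∃ c : ℂ, x = I (algebraMap ℂ Ent c)) {h : ℂ → ℂ}
    (hh : Differentiable ℂ h) (h0 : ∀ z, h z ≠ 0) {C : ℂ} (hC : C ≠ 0) (h1 : ∀ z, h z ≠ C) :
    ∀ z, deriv h z = 0 := by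
  obtain ⟨u, hu, hu2⟩ := exists_log hh h0
  obtain ⟨v, hv, hv2⟩ := exists_log (hh.sub_const C) (fun z => sub_ne_zero.2 (h1 z))
  let fam : ℕ → ℂ → ℂ := fun n => if n = 0 then id else if n = 1 then u else v
  have hfam : ∀ n, Differentiable ℂ (fam n) := by
    intro n
    simp only [fam]
    split_ifs
    · exact differentiable_id
    · exact hu
    · exact hv
  have hF := good_smF (J := ({0, 1, 2} : Finset ℕ)) (h := fam) (i0 := 0) hD hc (by simp) (by simp [fam])
  set F := smF I ({0, 1, 2} : Finset ℕ) fam with hFdef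
  have hmem : ∀ i ∈ ({0, 1, 2} : Finset ℕ), Sm 0 ({0, 1, 2} : Finset ℕ) fam (fam i) :=
    fun i hi => Sm.base hi (hfam i)
  have hum : I (dEnt ⟨u, hu⟩) ∈ F := by
    have h2 := hmem 1 (by simp)
    exact mem_smF (Sm.deriv le_rfl h2)
  have hvm : I (dEnt ⟨v, hv⟩) ∈ F := by
    have h2 := hmem 2 (by simp)
    exact mem_smF (Sm.deriv le_rfl h2)
  have hU0 : I (eexp hu) ≠ 0 := (map_ne_zero_iff _ hI).2 (eexp_ne hu)
  have hV0 : I (eexp hv) ≠ 0 := (map_ne_zero_iff _ hI).2 (eexp_ne hv)
  have hDU : D (I (eexp hu)) = I (dEnt ⟨u, hu⟩) * I (eexp hu) := by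
    rw [hD, dEnt_eexp, map_mul]
  have hDV : D (I (eexp hv)) = I (dEnt ⟨v, hv⟩) * I (eexp hv) := by
    rw [hD, dEnt_eexp, map_mul]
  have hrel : I (eexp hu) = I (eexp hv) + I (algebraMap ℂ Ent C) := by
    rw [← map_add]
    congr 1
    apply Subtype.ext
    funext z
    change cexp (u z) = cexp (v z) + C
    rw [hu2, hv2]; ring
  have hCF : I (algebraMap ℂ Ent C) ∈ F := mem_smF (Sm.const C)
  have hC0 : I (algebraMap ℂ Ent C) ≠ 0 := by
    rw [map_ne_zero_iff _ hI]
    intro hh
    exact hC (congrFun (congrArg Subtype.val hh) 0)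
  have key : I (eexp hu) ∈ F ∧ I (eexp hv) ∈ F := by
    by_cases c1 : I (eexp hu) ∈ F
    · refine ⟨c1, ?_⟩
      have := F.sub_mem c1 hCF
      rwa [hrel, add_sub_cancel_right] at this
    by_cases c2 : I (eexp hv) ∈ F
    · exact ⟨by rw [hrel]; exact F.add_mem c2 hCF, c2⟩
    by_cases c3 : I (eexp hu) * (I (eexp hv))⁻¹ ∈ F
    · exfalso
      apply c2
      set ρ := I (eexp hu) * (I (eexp hv))⁻¹ with hρ
      have e1 : I (eexp hu) = ρ * I (eexp hv) := by rw [hρ]; field_simp
      have e2 : (ρ - 1) * I (eexp hv) = I (algebraMap ℂ Ent C) := by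
        rw [e1] at hrel
        linear_combination hrel
      have e3 : ρ - 1 ≠ 0 := by
        intro h0
        rw [h0, zero_mul] at e2
        exact hC0 e2.symm
      have e4 : I (eexp hv) = I (algebraMap ℂ Ent C) * (ρ - 1)⁻¹ := by
        rw [← e2]; field_simp
      rw [e4]
      exact F.mul_mem hCF (F.inv_mem (F.sub_mem c3 F.one_mem))
    · exfalso
      have h2 := indep3 (D := D) hF.stab hF.cst hU0 hum hDU hV0 hvm hDV c1 c2 c3
        hCF (F.neg_mem F.one_mem) F.one_mem (by rw [hrel]; ring)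
      exact hC0 h2.1
  have hfin := all_const (ι := ℕ) (h := fam) (J0 := ({1, 2} : Finset ℕ)) (i0 := 0) (by simp)
    (by simp [fam]) hfam (by
      have hJ : insert 0 ({1, 2} : Finset ℕ) = {0, 1, 2} := rfl
      rw [hJ]
      intro i hi
      have hi' : i = 1 ∨ i = 2 := by simpa using hi
      rcases hi' with rfl | rfl
      · obtain ⟨d, w, hd, hdS, hwS, hdw⟩ := smF_quot hI key.1
        exact ⟨d, w, hd, hdS, hwS, fun z => congrFun (congrArg Subtype.val hdw) z⟩
      · obtain ⟨d, w, hd, hdS, hwS, hdw⟩ := smF_quot hI key.2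
        exact ⟨d, w, hd, hdS, hwS, fun z => congrFun (congrArg Subtype.val hdw) z⟩)
  intro z
  have h3 : deriv u z = 0 := hfin 1 (by simp) z
  have h4 : h = fun z => cexp (u z) := funext fun z => (hu2 z).symm
  rw [h4, ((hu z).hasDerivAt.cexp).deriv, h3, mul_zero]

end

end Pool.Agent.K4H53.BC
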