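import Pool.Agent.K4H53.BC.Ent
import Pool.Agent.K4H53.BC.Growth2

/-!
The field of small functions and the growth lemma.
-/

set_option autoImplicit false

open Complex Metric

namespace Pool.Agent.K4H53.BC

open Pool.Agent.TH242.MK

theorem alg_frac {Ω : Type*} [Field Ω] (R : Subring Ω) {x : Ω}
    (hx : IsAlgebraic (Subfield.closure (R : Set Ω)) x) :
    ∃ y : R, y ≠ 0 ∧ IsIntegral R ((y : Ω) * x) := by
  let L := Subfield.closure (R : Set Ω)
  have hRL : R ≤ L.toSubring := fun y hy => Subfield.subset_closure hy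
  let inc : R →+* L := Subring.inclusion hRL
  let iA : Algebra R L := inc.toAlgebra
  have ht : IsScalarTower R L Ω := IsScalarTower.of_algebraMap_eq (fun y => rfl)
  have hf : FaithfulSMul R L := by
    rw [faithfulSMul_iff_algebraMap_injective]
    exact Subring.inclusion_injective hRL
  have hfr : IsFractionRing R L := by
    apply IsFractionRing.of_field
    rintro ⟨z, hz⟩
    obtain ⟨p, hp, q, hq, hpq⟩ := Subfield.mem_closure_iff.1 hz
    rw [Subring.closure_eq] at hp hq
    exact ⟨⟨p, hp⟩, ⟨q, hq⟩, Subtype.ext hpq.symm⟩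
  have h1 : IsAlgebraic R x := (IsFractionRing.isAlgebraic_iff R L Ω).2 hx
  obtain ⟨y, hy, hint⟩ := h1.exists_integral_multiple
  exact ⟨y, hy, hint⟩

section

variable {ι : Type} {J : Finset ι} {h : ι → ℂ → ℂ}

/-- a root of a monic polynomial is bounded by the coefficients -/
theorem root_bound {w : ℂ} {d : ℕ} {q : ℕ → ℂ} (h : w ^ d + ∑ i ∈ Finset.range d, q i * w ^ i = 0) :
    ‖w‖ ≤ 1 + ∑ i ∈ Finset.range d, ‖q i‖ := by
  have hnn : 0 ≤ ∑ i ∈ Finset.range d, ‖q i‖ := Finset.sum_nonneg fun i _ => norm_nonneg _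
  by_contra hcon
  push Not at hcon
  have hw1 : 1 < ‖w‖ := by linarith
  rcases Nat.eq_zero_or_pos d with hd | hd
  · subst hd
    simp at h
  · have h1 : ‖w‖ ^ d ≤ (∑ i ∈ Finset.range d, ‖q i‖) * ‖w‖ ^ (d - 1) := by
      have h2 : w ^ d = -∑ i ∈ Finset.range d, q i * w ^ i := by linear_combination h
      calc ‖w‖ ^ d = ‖w ^ d‖ := (norm_pow _ _).symm
        _ = ‖∑ i ∈ Finset.range d, q i * w ^ i‖ := by rw [h2, norm_neg]
        _ ≤ ∑ i ∈ Finset.range d, ‖q i * w ^ i‖ := norm_sum_le _ _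
        _ ≤ ∑ i ∈ Finset.range d, ‖q i‖ * ‖w‖ ^ (d - 1) := by
            apply Finset.sum_le_sum
            intro i hi
            rw [norm_mul, norm_pow]
            have : i ≤ d - 1 := by have := Finset.mem_range.1 hi; omega
            exact mul_le_mul_of_nonneg_left (pow_le_pow_right₀ hw1.le this) (norm_nonneg _)
        _ = _ := by rw [Finset.sum_mul]
    have h3 : ‖w‖ ^ d = ‖w‖ * ‖w‖ ^ (d - 1) := by
      rw [← pow_succ']; congr 1; omega
    rw [h3] at h1
    have h4 : 0 < ‖w‖ ^ (d - 1) := by positivity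
    have := le_of_mul_le_mul_right h1 h4
    linarith

theorem Sm.bound {w : ℂ → ℂ} (hw : Differentiable ℂ w) {d : ℕ} {q : ℕ → ℂ → ℂ}
    (hq : ∀ i, Sm 0 J h (q i)) (hb : ∀ z, ‖w z‖ ≤ 1 + ∑ i ∈ Finset.range d, ‖q i z‖) :
    Sm 0 J h w := by
  choose hqd C A N hC hA hbd using hq
  refine ⟨hw, 1 + ∑ i ∈ Finset.range d, C i, ∑ i ∈ Finset.range d, A i,
    ∑ i ∈ Finset.range d, N i, ?_, ?_, ?_⟩
  · have := Finset.sum_nonneg fun i (_ : i ∈ Finset.range d) => hC i
    linarith
  · exact Finset.sum_nonneg fun i _ => hA i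
  · intro z δ b hδ hδ1 hb1 hh
    have hq1 := one_le_q hδ hδ1 hb1
    have hAnn : 0 ≤ ∑ i ∈ Finset.range d, A i := Finset.sum_nonneg fun i _ => hA i
    set X : ℝ := (b / δ) ^ (∑ i ∈ Finset.range d, N i) *
      Real.exp ((∑ i ∈ Finset.range d, A i) * Real.exp (0 * ‖z‖)) with hX
    have hX1 : 1 ≤ X := by
      apply one_le_mul_of_one_le_of_one_le (one_le_pow₀ hq1)
      exact Real.one_le_exp (by positivity)
    have hterm : ∀ i ∈ Finset.range d, ‖q i z‖ ≤ C i * X := by
      intro i hi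
      refine (hbd i z δ b hδ hδ1 hb1 hh).trans ?_
      have e1 : (b / δ) ^ N i ≤ (b / δ) ^ (∑ i ∈ Finset.range d, N i) :=
        pow_le_pow_right₀ hq1 (Finset.single_le_sum (f := N) (fun _ _ => Nat.zero_le _) hi)
      have e2 : A i ≤ ∑ i ∈ Finset.range d, A i :=
        Finset.single_le_sum (f := A) (fun _ _ => hA _) hi
      have e3 : Real.exp (A i * Real.exp (0 * ‖z‖)) ≤
          Real.exp ((∑ i ∈ Finset.range d, A i) * Real.exp (0 * ‖z‖)) := by
        apply Real.exp_le_exp.2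
        exact mul_le_mul_of_nonneg_right e2 (Real.exp_pos _).le
      rw [hX, ← mul_assoc]
      exact mul_le_mul (mul_le_mul_of_nonneg_left e1 (hC i)) e3 (Real.exp_pos _).le
        (mul_nonneg (hC i) (by positivity))
    calc ‖w z‖ ≤ 1 + ∑ i ∈ Finset.range d, ‖q i z‖ := hb z
      _ ≤ X + ∑ i ∈ Finset.range d, C i * X := add_le_add hX1 (Finset.sum_le_sum hterm)
      _ = (1 + ∑ i ∈ Finset.range d, C i) * X := by rw [add_mul, one_mul, Finset.sum_mul]
      _ = _ := by rw [hX]; ring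

/-- the ring of small functions -/
def smR (J : Finset ι) (h : ι → ℂ → ℂ) : Subring Ent where
  carrier := {f | Sm 0 J h (f : ℂ → ℂ)}
  mul_mem' := fun {f g} hf hg => Sm.mul (show Sm 0 J h (f : ℂ → ℂ) from hf) hg
  add_mem' := fun {f g} hf hg => Sm.add (show Sm 0 J h (f : ℂ → ℂ) from hf) hg
  one_mem' := Sm.const 1
  zero_mem' := Sm.const 0
  neg_mem' := fun {f} hf => by
    have := Sm.mul (Sm.const (-1 : ℂ)) (show Sm 0 J h (f : ℂ → ℂ) from hf)
    refine (congrArg (Sm 0 J h) ?_).mp this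
    funext z
    change (-1 : ℂ) * (f : ℂ → ℂ) z = -((f : ℂ → ℂ) z)
    ring

variable {Ω : Type} [Field Ω] [CharZero Ω] {I : Ent →+* Ω} {D : Derivation ℤ Ω Ω}

/-- the field of small functions -/
noncomputable def smF (I : Ent →+* Ω) (J : Finset ι) (h : ι → ℂ → ℂ) : Subfield Ω :=
  acl (Subfield.closure ((smR J h).map I : Set Ω))

omit [CharZero Ω] in
theorem mem_smF {f : Ent} (hf : Sm 0 J h (f : ℂ → ℂ)) : I f ∈ smF I J h :=
  le_acl (Subfield.subset_closure ⟨f, hf, rfl⟩)

theorem good_smF (hD : ∀ f, D (I f) = I (dEnt f))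
    (hc : ∀ x, D x = 0 → ∃ c : ℂ, x = I (algebraMap ℂ Ent c)) {i0 : ι} (hi0 : i0 ∈ J)
    (hid : h i0 = id) : Good D (smF I J h) where
  stab := by
    apply acl_stab
    apply closure_stab
    rintro x ⟨f, hf, rfl⟩
    rw [hD]
    exact Subfield.subset_closure ⟨dEnt f, Sm.deriv le_rfl hf, rfl⟩
  cst := fun x hx => by
    obtain ⟨c, rfl⟩ := hc x hx
    exact mem_smF (Sm.const c)
  var := by
    refine ⟨I ⟨id, differentiable_id⟩, mem_smF ?_, ?_⟩
    · have := Sm.base (σ := 0) (h := h) hi0 (by rw [hid]; exact differentiable_id)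
      rwa [hid] at this
    · rw [hD]
      have : dEnt ⟨id, differentiable_id⟩ = 1 := Subtype.ext (by
        rw [dEnt_coe]
        funext z
        exact deriv_id z)
      rw [this, map_one]
  acl := fun x hx => acl_acl hx

omit [CharZero Ω] in
/-- an entire function in the field of small functions is a quotient of small functions -/
theorem smF_quot (hI : Function.Injective I) {E : Ent} (hE : I E ∈ smF I J h) :
    ∃ d w : Ent, d ≠ 0 ∧ Sm 0 J h (d : ℂ → ℂ) ∧ Sm 0 J h (w : ℂ → ℂ) ∧ d * E = w := by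
  obtain ⟨⟨_, d, hd, rfl⟩, hy0, p, hp, hpx⟩ := alg_frac ((smR J h).map I) (mem_acl.1 hE)
  refine ⟨d, d * E, ?_, hd, ?_, rfl⟩
  · rintro rfl
    exact hy0 (Subtype.ext (map_zero I))
  · -- the integral equation
    have hq : ∀ i, ∃ f : Ent, Sm 0 J h (f : ℂ → ℂ) ∧ I f = ((p.coeff i : (smR J h).map I) : Ω) := by
      intro i
      obtain ⟨f, hf, hf2⟩ := (p.coeff i).2
      exact ⟨f, hf, hf2⟩
    choose f hf hf2 using hq
    have h1 : I ((d * E) ^ p.natDegree + ∑ i ∈ Finset.range p.natDegree,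
        f i * (d * E) ^ i) = 0 := by
      rw [← Polynomial.aeval_def, Polynomial.aeval_eq_sum_range, Finset.sum_range_succ] at hpx
      rw [map_add, map_sum, map_pow, ← hpx, add_comm]
      congr 1
      · refine Finset.sum_congr rfl fun i _ => ?_
        rw [map_mul, map_pow, hf2, map_mul]
        rfl
      · rw [hp.coeff_natDegree, one_smul, map_mul]
    have h2 := hI (h1.trans (map_zero I).symm)
    refine Sm.bound (d := p.natDegree) (q := fun i => (f i : ℂ → ℂ)) (Ent.diff (d * E)) hf ?_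
    intro z
    apply root_bound
    have h3 := congrFun (congrArg Subtype.val h2) z
    simpa [Finset.sum_apply] using h3

end

end Pool.Agent.K4H53.BC
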