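import Pool.Agent.K4H53.BC.LSer

/-!
Square roots of Laurent series in `t ^ 2`.
-/

set_option autoImplicit false

open HahnSeries

namespace Pool.Agent.K4H53.BC

variable {k : Type*} [Field k]

theorem sqrt_ps [CharZero k] [IsAlgClosed k] (u : PowerSeries k)
    (hu : PowerSeries.constantCoeff u ≠ 0) : ∃ w : PowerSeries k, w ^ 2 = u := by
  obtain ⟨r, hr⟩ := IsAlgClosed.exists_pow_nat_eq (PowerSeries.constantCoeff u) (n := 2)
    (by norm_num)
  have hr0 : r ≠ 0 := by
    rintro rfl
    apply hu
    rw [← hr]; simp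
  set I : Ideal (PowerSeries k) := Ideal.span {PowerSeries.X} with hI
  have hIc : IsAdicComplete I (PowerSeries k) := inferInstance
  have hens : HenselianRing (PowerSeries k) I := IsAdicComplete.henselianRing _ _
  have h1 := hens.is_henselian (Polynomial.X ^ 2 - Polynomial.C u)
    (Polynomial.monic_X_pow_sub_C u (by norm_num)) (PowerSeries.C r) (by
      rw [Polynomial.eval_sub, Polynomial.eval_pow, Polynomial.eval_X, Polynomial.eval_C, hI,
        Ideal.mem_span_singleton, PowerSeries.X_dvd_iff]
      simp [hr]) (by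
      have : (Polynomial.derivative (Polynomial.X ^ 2 - Polynomial.C u :
          Polynomial (PowerSeries k))).eval (PowerSeries.C r) = PowerSeries.C (2 * r) := by
        rw [map_mul, map_ofNat]
        simp [one_add_one_eq_two]
      rw [this]
      apply IsUnit.map
      exact (isUnit_iff_ne_zero.2 (by simpa using hr0)).map PowerSeries.C)
  obtain ⟨w, hw, _⟩ := h1
  refine ⟨w, ?_⟩
  rw [Polynomial.IsRoot, Polynomial.eval_sub, Polynomial.eval_pow, Polynomial.eval_X,
    Polynomial.eval_C] at hw
  exact sub_eq_zero.1 hw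

/-- the substitution `T ↦ t ^ 2` -/
noncomputable def dbl : LaurentSeries k →+* LaurentSeries k :=
  embDomainRingHom (AddMonoidHom.mulLeft (2 : ℤ))
    (fun a b h => by simpa using h) (fun a b => by
      simp)

theorem dbl_single (m : ℤ) (r : k) :
    dbl (single m r : LaurentSeries k) = single (2 * m) r := by
  exact embDomain_single

theorem dbl_sq [CharZero k] [IsAlgClosed k] (x : LaurentSeries k) :
    ∃ d : LaurentSeries k, d ^ 2 = dbl x := by
  by_cases hx : x = 0
  · exact ⟨0, by rw [hx, map_zero]; ring⟩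
  · obtain ⟨m, u, r, hr, ⟨p, hp, hpr⟩, hxu⟩ := exists_form hx
    obtain ⟨w, hw⟩ := sqrt_ps p (by rw [hpr]; exact hr)
    refine ⟨single m 1 * dbl (w : LaurentSeries k), ?_⟩
    rw [mul_pow, hxu, map_mul, dbl_single, ← map_pow dbl, ← hp, ← hw, PowerSeries.coe_pow]
    congr 1
    rw [pow_two, single_mul_single', two_mul, one_mul]

/-- a root of a quadratic with coefficients in the series in `t ^ 2` is a series in `t` -/
theorem root_mem [CharZero k] [IsAlgClosed k] {L : Type*} [Field L] [CharZero L]
    (f : LaurentSeries k →+* L)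
    {x : L} {u v w : LaurentSeries k} (h0 : ¬ (u = 0 ∧ v = 0 ∧ w = 0))
    (h : f (dbl u) * x ^ 2 + f (dbl v) * x + f (dbl w) = 0) :
    ∃ y : LaurentSeries k, f y = x := by
  have hinj : ∀ y : LaurentSeries k, f (dbl y) = 0 → y = 0 := by
    intro y hy
    have h1 : (f.comp dbl) y = 0 := hy
    exact (map_eq_zero (f.comp dbl)).1 h1
  by_cases hu : u = 0
  · rw [hu, map_zero, map_zero, zero_mul, zero_add] at h
    by_cases hv : v = 0
    · rw [hv, map_zero, map_zero, zero_mul, zero_add] at h
      exact absurd ⟨hu, hv, hinj w h⟩ h0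
    · refine ⟨-(dbl w * (dbl v)⁻¹), ?_⟩
      have hv' : f (dbl v) ≠ 0 := fun hh => hv (hinj v hh)
      rw [map_neg, map_mul, map_inv₀]
      field_simp
      linear_combination -h
  · have hu' : f (dbl u) ≠ 0 := fun hh => hu (hinj u hh)
    obtain ⟨d, hd⟩ := dbl_sq (v ^ 2 - 4 * u * w)
    have hd' : f d ^ 2 = f (dbl v) ^ 2 - 4 * f (dbl u) * f (dbl w) := by
      rw [← map_pow, hd]
      simp only [map_sub, map_pow, map_mul, map_ofNat]
    have h1 : (2 * f (dbl u) * x + f (dbl v) - f d) * (2 * f (dbl u) * x + f (dbl v) + f d) = 0 := by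
      linear_combination 4 * f (dbl u) * h - hd'
    rcases mul_eq_zero.1 h1 with h2 | h2
    · refine ⟨(d - dbl v) * (2 * dbl u)⁻¹, ?_⟩
      rw [map_mul, map_inv₀, map_mul, map_sub, map_ofNat]
      field_simp
      linear_combination -h2
    · refine ⟨(-d - dbl v) * (2 * dbl u)⁻¹, ?_⟩
      rw [map_mul, map_inv₀, map_mul, map_sub, map_neg, map_ofNat]
      field_simp
      linear_combination -h2

end Pool.Agent.K4H53.BC
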