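import Mathlib

/-!
The algebraic system satisfied by the logarithmic derivatives of the quotients of the derivatives
of two functions.
-/

set_option autoImplicit false

namespace Pool.Agent.K4H53.BC

variable {K : Type*} [Field K]

/-- the system: `E' = c E`, `a (n+1) = a n + c n` and the basic equation -/
structure Sys (D : Derivation ℤ K K) (N : ℕ) (a c E : ℕ → K) : Prop where
  E0 : ∀ n, n < N → E n ≠ 0
  E1 : ∀ n, n < N → E n ≠ 1
  dE : ∀ n, n < N → D (E n) = c n * E n
  a0 : ∀ n, n < N → a n ≠ 0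
  as : ∀ n, n < N → a (n + 1) = a n + c n
  be : ∀ n, n + 1 < N → D (a n) * (E n - 1) * (E (n + 1) - 1) =
    a n ^ 2 * (E n - E (n + 1)) + c n * a n * (E n * E (n + 1) - 1)

variable {D : Derivation ℤ K K} {N : ℕ} {a c E : ℕ → K}

theorem D_inv (D : Derivation ℤ K K) (x : K) : D x⁻¹ = -(x⁻¹ ^ 2 * D x) := by
  rw [D.leibniz_inv]; simp

theorem D_mul (D : Derivation ℤ K K) (x y : K) : D (x * y) = D x * y + x * D y := by
  rw [D.leibniz]; simp; ring

theorem D_natCast (D : Derivation ℤ K K) (n : ℕ) : D (n : K) = 0 := D.map_natCast n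

theorem Sys.mono (h : Sys D N a c E) {M : ℕ} (hM : M ≤ N) : Sys D M a c E :=
  ⟨fun n hn => h.E0 n (by omega), fun n hn => h.E1 n (by omega), fun n hn => h.dE n (by omega),
    fun n hn => h.a0 n (by omega), fun n hn => h.as n (by omega), fun n hn => h.be n (by omega)⟩

theorem Sys.shift {j : ℕ} (h : Sys D (N + j) a c E) :
    Sys D N (fun n => a (n + j)) (fun n => c (n + j)) (fun n => E (n + j)) :=
  ⟨fun n hn => h.E0 _ (by omega), fun n hn => h.E1 _ (by omega), fun n hn => h.dE _ (by omega),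
    fun n hn => h.a0 _ (by omega),
    fun n hn => by
      have := h.as (n + j) (by omega)
      rw [show n + 1 + j = n + j + 1 by omega]; exact this,
    fun n hn => by
      have := h.be (n + j) (by omega)
      simp only [show n + 1 + j = n + j + 1 by omega]; exact this⟩

theorem Sys.swap (h : Sys D N a c E) :
    Sys D N (fun n => - a n) (fun n => - c n) (fun n => (E n)⁻¹) :=
  ⟨fun n hn => inv_ne_zero (h.E0 n hn),
   fun n hn => by
    intro h1
    exact h.E1 n hn (by rw [inv_eq_one] at h1; exact h1),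
   fun n hn => by
    have h0 := h.E0 n hn
    rw [D_inv, h.dE n hn]
    field_simp,
   fun n hn => neg_ne_zero.2 (h.a0 n hn),
   fun n hn => by
    have := h.as n hn
    rw [this]; ring,
   fun n hn => by
    have h0 := h.E0 n (by omega)
    have h1 := h.E0 (n + 1) (by omega)
    have h2 := h.be n hn
    simp only [map_neg]
    field_simp
    linear_combination (-1 : K) * h2⟩

/-- the function `e = 1/(E-1)` -/
noncomputable def ee (E : ℕ → K) (n : ℕ) : K := (E n - 1)⁻¹

theorem Sys.sub1 (h : Sys D N a c E) {n : ℕ} (hn : n < N) : E n - 1 ≠ 0 :=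
  sub_ne_zero.2 (h.E1 n hn)

theorem Sys.e0 (h : Sys D N a c E) {n : ℕ} (hn : n < N) : ee E n ≠ 0 :=
  inv_ne_zero (h.sub1 hn)

theorem Sys.e1 (h : Sys D N a c E) {n : ℕ} (hn : n < N) : 1 + ee E n = E n * ee E n := by
  have := h.sub1 hn
  unfold ee
  field_simp
  ring

theorem Sys.e10 (h : Sys D N a c E) {n : ℕ} (hn : n < N) : 1 + ee E n ≠ 0 := by
  rw [h.e1 hn]
  exact mul_ne_zero (h.E0 n hn) (h.e0 hn)

theorem Sys.de (h : Sys D N a c E) {n : ℕ} (hn : n < N) :
    D (ee E n) = - (c n * (ee E n * (1 + ee E n))) := by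
  have h1 := h.sub1 hn
  rw [h.e1 hn]
  unfold ee
  rw [D_inv, map_sub, D.map_one_eq_zero, h.dE n hn]
  ring

theorem Sys.ric (h : Sys D N a c E) {n : ℕ} (hn : n + 1 < N) :
    D (a n) = (ee E (n + 1) - ee E n) * a n ^ 2 + c n * (1 + ee E n + ee E (n + 1)) * a n := by
  have h1 := h.sub1 (show n < N by omega)
  have h2 := h.sub1 hn
  have h3 := h.be n hn
  unfold ee
  field_simp
  linear_combination h3

/-- coefficients of the Riccati equations for `a 0` -/
noncomputable def cA (E : ℕ → K) (n : ℕ) : K := ee E (n + 1) - ee E n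
noncomputable def cB (a c E : ℕ → K) (n : ℕ) : K :=
  c n * (1 + ee E n + ee E (n + 1)) + 2 * (a n - a 0) * cA E n
noncomputable def cD (D : Derivation ℤ K K) (a c E : ℕ → K) (n : ℕ) : K :=
  (a n - a 0) * (c n * (1 + ee E n + ee E (n + 1))) + (a n - a 0) ^ 2 * cA E n - D (a n - a 0)

theorem Sys.ric0 (h : Sys D N a c E) {n : ℕ} (hn : n + 1 < N) :
    D (a 0) = cA E n * a 0 ^ 2 + cB a c E n * a 0 + cD D a c E n := by
  have h1 := h.ric hn
  unfold cB cD cA
  rw [map_sub]
  linear_combination h1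

end Pool.Agent.K4H53.BC
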